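import Pool.Agent.Y456.LG.Sparse

/-!
# Every scheme of finite type is decided by finitely many sparse linear sections of `GL_m`
-/

set_option autoImplicit false

open CategoryTheory AlgebraicGeometry MvPolynomial

namespace Pool.Agent.Y456.LG

open Pool.Agent.Y116.UV

variable {R : Type} [CommRing R] {sep : Prop}

/-- A finite list of square matrices of polynomials, `(d, m, M)` being an `m × m` matrix of polynomials
in `d` variables. -/
abbrev Mats (R : Type) [CommRing R] : Type :=
  List (Σ d m : ℕ, Matrix (Fin m) (Fin m) (MvPolynomial (Fin d) R))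

/-- For all properties closed under dévissage, `X` has the property if the finitely many sections
`secGL M`, `M` in the list, have the property. -/
def Decides (sep : Prop) (L : Mats R) (X : Sch R) : Prop :=
  ∀ Q : Sch R → Prop, Dev sep Q → (∀ x ∈ L, Q (secGL x.2.2)) → Q X

/-- the schemes decided by lists of matrices with a property -/
def Reach (sep : Prop) (D : (Σ d m : ℕ, Matrix (Fin m) (Fin m) (MvPolynomial (Fin d) R)) → Prop)
    (X : Sch R) : Prop :=
  ∃ L : Mats R, (∀ x ∈ L, D x) ∧ Decides sep L X

lemma dev_reach (D : (Σ d m : ℕ, Matrix (Fin m) (Fin m) (MvPolynomial (Fin d) R)) → Prop) :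
    Dev sep (Reach sep D) where
  iso := by
    rintro X Y hX e ⟨L, h1, h2⟩
    exact ⟨L, h1, fun Q hQ h => hQ.iso hX e (h2 Q hQ h)⟩
  total := by
    rintro Z X U i j hX ht ⟨L, h1, h2⟩ ⟨L', h1', h2'⟩
    refine ⟨L ++ L', ?_, fun Q hQ h => hQ.total i j hX ht (h2 Q hQ fun x hx => h x ?_)
      (h2' Q hQ fun x hx => h x ?_)⟩
    · intro x hx
      rcases List.mem_append.mp hx with hx | hx
      · exact h1 x hx
      · exact h1' x hx
    · exact List.mem_append.mpr (Or.inl hx)
    · exact List.mem_append.mpr (Or.inr hx)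
  closed := by
    rintro Z X U i j hX ht ⟨L, h1, h2⟩ ⟨L', h1', h2'⟩
    refine ⟨L ++ L', ?_, fun Q hQ h => hQ.closed i j hX ht (h2 Q hQ fun x hx => h x ?_)
      (h2' Q hQ fun x hx => h x ?_)⟩
    · intro x hx
      rcases List.mem_append.mp hx with hx | hx
      · exact h1 x hx
      · exact h1' x hx
    · exact List.mem_append.mpr (Or.inl hx)
    · exact List.mem_append.mpr (Or.inr hx)

lemma reach_self {D : (Σ d m : ℕ, Matrix (Fin m) (Fin m) (MvPolynomial (Fin d) R)) → Prop}
    {d m : ℕ} (M : Matrix (Fin m) (Fin m) (MvPolynomial (Fin d) R)) (h : D ⟨d, m, M⟩) :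
    Reach sep D (secGL M) := by
  refine ⟨[⟨d, m, M⟩], ?_, fun Q _ h => h ⟨d, m, M⟩ (List.mem_singleton.mpr rfl)⟩
  intro x hx
  rw [List.mem_singleton.mp hx]
  exact h

lemma isPattern_of {d m : ℕ} {M : Matrix (Fin m) (Fin m) (MvPolynomial (Fin d) R)}
    (h : IsPat ({0, 1} : Set R) M) : IsPattern M where
  entry i j := by
    rcases h.entry i j with ⟨c, hc, hM⟩ | hM
    · rcases hc with hc | hc
      · left
        rw [hM, hc, map_zero]
      · right
        left
        rw [hM, Set.mem_singleton_iff.mp hc, map_one]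
    · exact Or.inr (Or.inr hM)
  occurs := h.occurs

/-- the sparse patterns of zeros, ones and variables -/
def IsThin (x : Σ d m : ℕ, Matrix (Fin m) (Fin m) (MvPolynomial (Fin d) R)) : Prop :=
  IsPattern x.2.2 ∧ Thin x.2.2

/-- Rings generated by `d` elements are decided by finitely many sparse patterns in `d` variables. -/
theorem decides_gen [IsNoetherianRing R] (hR : Function.Surjective (Int.cast : ℤ → R)) {d : ℕ}
    (A : Type) [CommRing A] [Algebra R A] (φ : MvPolynomial (Fin d) R →ₐ[R] A)
    (hφ : Function.Surjective φ) : Reach sep (fun x => x.1 = d ∧ IsThin x) (aff R A) :=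
  thin_gen (S := {0, 1}) (Or.inl rfl) (Or.inr rfl) (closure_int hR) (dev_reach _)
    (fun _ M hM hT => reach_self M ⟨rfl, isPattern_of hM, hT⟩) A φ hφ

/-- Every scheme of finite type is decided by finitely many sparse patterns. -/
theorem decides_all [IsNoetherianRing R] (hR : Function.Surjective (Int.cast : ℤ → R))
    (X : Sch R) (hX : FT sep X) : Reach sep IsThin X :=
  thin_all (S := {0, 1}) (Or.inl rfl) (Or.inr rfl) (closure_int hR) (dev_reach _)
    (fun _ _ M hM hT => reach_self M ⟨isPattern_of hM, hT⟩) X hX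

end Pool.Agent.Y456.LG
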