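import Pool.Agent.Y456.LG.OccDefs
import Pool.Agent.Y101.Th.PairDefs

/-!
# Schemes over finite extensions as schemes over the base field: definitions
-/

set_option autoImplicit false

open CategoryTheory CategoryTheory.Limits AlgebraicGeometry MvPolynomial

namespace Pool.Agent.Y456.LG

open Pool.Agent.Y116.UV Pool.Agent.Y101.Th

universe v u

/-- The scheme `X` over `K`, considered as a scheme over `k`. -/
noncomputable def toBase (k K : Type) [Field k] [Field K] [Algebra k K] (X : Sch K) : Sch k :=
  Over.mk (X.hom ≫ Spec.map (CommRingCat.ofHom (algebraMap k K)))

/-- Known properties of `H Y n = H^n_c(Y ⊗ k̄)`, for the schemes `Y` over `k`, and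
`H' X n = H^n_c(X ⊗ K̄)`, for the schemes `X` over the finite separable extension `K` of `k`, both as
representations of the Galois group of `K`:

* `coh`: isomorphic schemes have isomorphic cohomology, and long exact sequences (for `H`);
* `induced`: the cohomology of a scheme `X` over `K` is a subquotient (a direct summand) of the
  cohomology of `X` as a scheme over `k`;
* `resolution`: an irreducible subquotient of the cohomology with compact supports of a scheme over `k`
  is a subquotient of the cohomology of a smooth projective scheme over `K` (resolution of
  singularities). -/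
structure IsRes {k K : Type} [Field k] [Field K] [Algebra k K] {A : Type u} [Category.{v} A]
    [Abelian A] (H : Sch k → ℤ → A) (H' : Sch K → ℤ → A) : Prop where
  coh : IsCoh H
  induced : ∀ X : Sch K, SmProj X → ∀ n : ℤ, Subq (H' X n) (H (toBase k K X) n)
  resolution : ∀ (R : A), Simple R → ∀ Y : Sch k, FT True Y → ∀ n : ℤ, Subq R (H Y n) →
    ∃ (X : Sch K) (i : ℤ), SmProj X ∧ Subq R (H' X i)

end Pool.Agent.Y456.LG
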