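import Pool.Agent.Y456.LG.Occ
import Pool.Agent.Y456.LG.ResDefs
import Pool.Agent.Y456.LG.Local

/-!
# Schemes over finite extensions and sparse linear sections of `GL_m` over the base field
-/

set_option autoImplicit false

open CategoryTheory CategoryTheory.Limits AlgebraicGeometry MvPolynomial

namespace Pool.Agent.Y456.LG

open Pool.Agent.Y116.UV Pool.Agent.Z125.UN Pool.Agent.Y101.Th

universe v u

lemma ft_toBase {k K : Type} [Field k] [Field K] [Algebra k K] [Algebra.FiniteType k K]
    {X : Sch K} (hX : FT True X) : FT True (toBase k K X) := by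
  have h := ft_aff (R := k) (A := K) True
  have h1 := h.locallyOfFiniteType
  have h2 := h.quasiCompact
  have h3 := h.separated trivial
  have g1 := hX.locallyOfFiniteType
  have g2 := hX.quasiCompact
  have g3 := hX.separated trivial
  change LocallyOfFiniteType (Spec.map (CommRingCat.ofHom (algebraMap k K))) at h1
  change QuasiCompact (Spec.map (CommRingCat.ofHom (algebraMap k K))) at h2
  change IsSeparated (Spec.map (CommRingCat.ofHom (algebraMap k K))) at h3
  refine ⟨?_, ?_, fun _ => ?_⟩
  · change LocallyOfFiniteType (X.hom ≫ Spec.map (CommRingCat.ofHom (algebraMap k K)))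
    infer_instance
  · change QuasiCompact (X.hom ≫ Spec.map (CommRingCat.ofHom (algebraMap k K)))
    infer_instance
  · change IsSeparated (X.hom ≫ Spec.map (CommRingCat.ofHom (algebraMap k K)))
    infer_instance

lemma Subq.trans {A : Type u} [Category.{v} A] [Abelian A] {R B B' : A} (h : Subq R B)
    (h' : Subq B B') : Subq R B' := by
  obtain ⟨E, i, p, hi, hp⟩ := h
  obtain ⟨E', i', p', hi', hp'⟩ := h'
  refine ⟨pullback i p', pullback.snd i p' ≫ i', pullback.fst i p' ≫ p, ?_, ?_⟩
  · exact mono_comp _ _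
  · exact epi_comp _ _

lemma alphabet_frac {k : Type} [Field k] (h : IsFrac k) : Alphabet ({0, 1} : Set k) := by
  refine ⟨Or.inl rfl, Or.inr rfl, fun x => ?_⟩
  obtain ⟨d, n, hd, hx⟩ := h x
  exact ⟨n, intCast_mem _ n, d, intCast_mem _ d, hd.ne_zero, hx⟩

lemma isFrac_rat : IsFrac ℚ := fun x => ⟨x.den, x.num, by
  rw [isUnit_iff_ne_zero]
  exact_mod_cast x.den_ne_zero, by
  push_cast
  rw [mul_comm]
  exact Rat.mul_den_eq_num x⟩

variable {k K : Type} [Field k] [Field K] [Algebra k K] {S : Set k} {A : Type u}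
  [Category.{v} A] [Abelian A] {H : Sch k → ℤ → A} {H' : Sch K → ℤ → A}

/-- Irreducible subquotients of the cohomology of smooth projective schemes over `K` and of sparse linear
sections of `GL_m` over `k`. -/
theorem occ_res [Algebra.FiniteType k K] (hS : Alphabet S) (hH : IsRes H H') (R : A)
    [Simple R] :
    (∃ (X : Sch K) (i : ℤ), SmProj X ∧ Subq R (H' X i)) ↔
      ∃ (d m : ℕ) (M : Matrix (Fin m) (Fin m) (MvPolynomial (Fin d) k)) (i : ℤ),
        IsPat S M ∧ Thin M ∧ Subq R (H (secGL M) i) := by
  constructor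
  · rintro ⟨X, i, hX, h⟩
    obtain ⟨d, m, M, h1, h2, j, h3⟩ := occ_all hS hH.coh (ft_toBase (k := k) hX.ft)
      ⟨i, h.trans (hH.induced X hX i)⟩
    exact ⟨d, m, M, j, h1, h2, h3⟩
  · rintro ⟨d, m, M, i, h1, h2, h3⟩
    have hf : FT True (secGL M) := by
      have := ft_away (R := k) (MvPolynomial (Fin d) k) M.det
      exact ft_aff True
    exact hH.resolution R inferInstance _ hf i h3

end Pool.Agent.Y456.LG
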