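import Pool.Agent.Y456.LG.Dimn
import Pool.Agent.Z125.UN.MotUni

/-!
# Schur-finiteness of motives and sparse linear sections of `GL_m`
-/

set_option autoImplicit false

open CategoryTheory MonoidalCategory AlgebraicGeometry Pool.Agent.TH137.DG Pool.Agent.Y116.UV
  Pool.Agent.Z125.UN MvPolynomial

namespace Pool.Agent.Y456.LG

universe v u

variable {k : Type} [Field k] {S : Set k}

section

variable {C : Type u} [Category.{v} C] [MonoidalCategory C] [SymmetricCategory C] [Preadditive C]
  [Linear ℚ C] [Limits.HasZeroObject C] [HasShift C ℤ] [∀ n : ℤ, (shiftFunctor C n).Additive]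
  [Pretriangulated C] {D : Motives k C}

lemma sec_sf (hD : IsMotives D) {d m : ℕ} (M : Matrix (Fin m) (Fin m) (MvPolynomial (Fin d) k)) :
    IsSchurFinite (D.M (secGL M)) ↔ IsSchurFinite (D.Mc (secGL M)) :=
  hD.duality _ (ft_secF M) (smooth_sec M)

/-- dimension by dimension -/
theorem mot_iff [PerfectField k] (hS : Enough S) (hD : IsMotives D) (n : ℕ) :
    (∀ X : Sch k, FT True X → Smooth X.hom → topologicalKrullDim X.left ≤ n →
      IsSchurFinite (D.M X)) ↔
    ∀ (m : ℕ) (M : Matrix (Fin m) (Fin m) (MvPolynomial (Fin (n + 1)) k)), IsPat S M → Thin M →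
      IsSchurFinite (D.M (secGL M)) := by
  constructor
  · intro h m M hM hT
    rw [sec_sf hD]
    have h1 : ∀ X : Sch k, FT True X → topologicalKrullDim X.left ≤ n →
        IsSchurFinite (D.Mc X) :=
      dim_smooth (bnd_sf hD) n fun X hX hs hn => (hD.duality X hX hs).mp (h X hX hs hn)
    exact thin_of_dim (S := S) (bnd_sf hD) h1 m M hM hT
  · intro h X hX hs hn
    rw [hD.duality X hX hs]
    exact dim_of_thin hS (bnd_sf hD) (fun m M hM hT => (sec_sf hD M).mp (h m M hM hT)) X hX hn

end

lemma enough_or (hS : S = Set.univ ∨ (S = {0, 1} ∧ IsFrac k)) : Enough S := by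
  rcases hS with rfl | ⟨rfl, h⟩
  · exact enough_univ
  · exact enough_frac h

end Pool.Agent.Y456.LG
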