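import Pool.Agent.Y456.LG.Sparse
import Pool.Agent.Y691.TU.Defs

/-!
# Subquotients of cohomology groups with compact supports: definitions
-/

set_option autoImplicit false

open CategoryTheory CategoryTheory.Limits AlgebraicGeometry MvPolynomial

namespace Pool.Agent.Y456.LG

open Pool.Agent.Y116.UV

universe v u

/-- The set `S` contains `0` and `1`, and every element of the field `k` is a quotient of two elements of
the subring generated by `S`. For instance `S = {0, 1, s_1, …, s_r}` if the field `k` is generated by
`s_1, …, s_r` over its prime field. -/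
def Alphabet {k : Type} [Field k] (S : Set k) : Prop :=
  0 ∈ S ∧ 1 ∈ S ∧ ∀ x : k, ∃ a ∈ Subring.closure S, ∃ b ∈ Subring.closure S, b ≠ 0 ∧ b * x = a

/-- `R` is a subquotient of `B`: a quotient of a subobject. -/
def Subq {A : Type u} [Category.{v} A] (R B : A) : Prop :=
  ∃ (E : A) (i : E ⟶ B) (p : E ⟶ R), Mono i ∧ Epi p

/-- Known properties of the cohomology with compact supports `H X n = H^n_c(X ⊗ k̄)`, with values in the
abelian category `A` of `ℓ`-adic representations of the Galois group of `k`: isomorphic schemes have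
isomorphic cohomology, and for a closed subscheme `Z` of `X` with the complement `U` the sequence
`… → H U n → H X n → H Z n → H U (n + 1) → …` is exact. -/
structure IsCoh {k : Type} [Field k] {A : Type u} [Category.{v} A] [Abelian A]
    (H : Sch k → ℤ → A) : Prop where
  iso : ∀ {X Y : Sch k}, FT True X → Nonempty (X ≅ Y) → ∀ n, Nonempty (H X n ≅ H Y n)
  localization : ∀ {Z X U : Sch k} (i : Z ⟶ X) (j : U ⟶ X), FT True X → IsTriple i j →
    ∃ (a : ∀ n, H U n ⟶ H X n) (b : ∀ n, H X n ⟶ H Z n) (d : ∀ n, H Z n ⟶ H U (n + 1)),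
      ∀ n, Pool.Agent.Y691.TU.ExactAt (a n) (b n) ∧ Pool.Agent.Y691.TU.ExactAt (b n) (d n) ∧
        Pool.Agent.Y691.TU.ExactAt (d n) (a (n + 1))

end Pool.Agent.Y456.LG
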