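import Pool.Agent.Y456.LG.Scale
import Pool.Agent.Y456.LG.OccDefs

/-!
# Sparse linear sections of `GL_m` with constants in a finite alphabet
-/

set_option autoImplicit false

open CategoryTheory AlgebraicGeometry MvPolynomial

namespace Pool.Agent.Y456.LG

open Pool.Agent.Y116.UV Pool.Agent.Z125.UN

section ring

variable {R : Type} [CommRing R] {S : Set R} {V : Type}

lemma reps_mulC (h0 : 0 ∈ S) (h1 : 1 ∈ S) {r : R} (hr : r ∈ Subring.closure S) :
    ∀ g : MvPolynomial V R, RepS S g → RepS S (C r * g) := by
  induction hr using Subring.closure_induction with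
  | mem c hc =>
    intro g hg
    have h := reps_neg h0 h1 (reps_step h0 h1 (Or.inl ⟨c, hc, rfl⟩ : IsC S (C c : MvPolynomial V R))
      hg)
    rwa [neg_neg] at h
  | zero =>
    intro g hg
    have h := reps_step h0 h1 (isC_zero (V := V) h0) hg
    rw [zero_mul, neg_zero] at h
    rwa [map_zero, zero_mul]
  | one =>
    intro g hg
    rwa [map_one, one_mul]
  | add a b _ _ ha hb =>
    intro g hg
    rw [map_add, add_mul]
    exact reps_add h0 (ha g hg) (hb g hg)
  | neg a _ ha =>
    intro g hg
    rw [map_neg, neg_mul]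
    exact reps_neg h0 h1 (ha g hg)
  | mul a b _ _ ha hb =>
    intro g hg
    rw [map_mul, mul_assoc]
    exact ha _ (hb g hg)

/-- Polynomials with coefficients in the ring generated by `S`. -/
theorem reps_ring (h0 : 0 ∈ S) (h1 : 1 ∈ S) (g : MvPolynomial V R)
    (hg : ∀ m, coeff m g ∈ Subring.closure S) : RepS S g := by
  classical
  rw [g.as_sum]
  refine Finset.sum_induction _ (RepS S) (fun _ _ => reps_add h0) ?_ fun m _ => ?_
  · have h := reps_step h0 h1 (isC_zero (V := V) h0) (reps_one h1)
    rwa [zero_mul, neg_zero] at h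
  · have h2 : monomial m (coeff m g) = C (coeff m g) * monomial m (1 : R) := by
      rw [C_mul_monomial, mul_one]
    rw [h2]
    exact reps_mulC h0 h1 (hg m) _ (reps_monomial h0 h1 m 1 (AddSubgroup.subset_closure h1))

end ring

variable {k : Type} [Field k] {S : Set k}

lemma alph_scale (hS : Alphabet S) {σ : Type} (g : MvPolynomial σ k) :
    ∃ u : k, IsUnit u ∧ ∀ m, coeff m (C u * g) ∈ Subring.closure S := by
  classical
  choose a ha b hb hb0 hab using hS.2.2
  refine ⟨∏ m ∈ g.support, b (coeff m g), ?_, ?_⟩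
  · rw [isUnit_iff_ne_zero]
    exact Finset.prod_ne_zero_iff.mpr fun m _ => hb0 _
  · intro m
    rw [coeff_C_mul]
    by_cases hm : m ∈ g.support
    · rw [← Finset.prod_erase_mul _ _ hm, mul_assoc, hab]
      exact Subring.mul_mem _ (Subring.prod_mem _ fun m' _ => hb _) (ha _)
    · rw [notMem_support_iff.mp hm, mul_zero]
      exact Subring.zero_mem _

variable {sep : Prop} {P : Sch k → Prop} {d : ℕ}

/-- complements of hypersurfaces -/
theorem alph_away (hS : Alphabet S)
    (hiso : ∀ {X Y : Sch k}, FT sep X → Nonempty (X ≅ Y) → P X → P Y)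
    (h : ForThin S P d) (g : MvPolynomial (Fin d) k) : P (aff k (Localization.Away g)) := by
  obtain ⟨u, hu, hg⟩ := alph_scale hS g
  obtain ⟨m, M, hM, hT, hdet⟩ := thin_of_rep hS.1 hS.2.1 (reps_ring hS.1 hS.2.1 _ hg)
  have h4 := h _ M hM hT
  have h5 : IsLocalization.Away g (Localization.Away M.det) := by
    have hu2 : Associated M.det g := by
      rw [hdet]
      have h6 : IsUnit (-(C u) : MvPolynomial (Fin d) k) := (hu.map C).neg
      have h7 : -(C u * g) = (-(C u)) * g := by ring
      rw [h7]
      exact associated_unit_mul_left g _ h6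
    exact IsLocalization.Away.of_associated hu2
  have := ft_away (R := k) (MvPolynomial (Fin d) k) M.det
  obtain ⟨e⟩ := away_iso (R := k) g (S := Localization.Away M.det) (T := Localization.Away g)
  exact hiso (ft_aff sep) ⟨(affIso e).symm⟩ h4

/-- closed subschemes of the affine space -/
theorem alph_ideal (hS : Alphabet S) (hP : Dev sep P) (h : ForThin S P d)
    (I : Ideal (MvPolynomial (Fin d) k)) : P (aff k (MvPolynomial (Fin d) k ⧸ I)) := by
  obtain ⟨G, hG⟩ := (isNoetherianRing_iff_ideal_fg _).mp (inferInstance :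
    IsNoetherianRing (MvPolynomial (Fin d) k)) I
  have h2 : Ideal.span {x | x ∈ G.toList} = I := by
    rw [← hG]
    congr 1
    ext x
    simp
  rw [← h2]
  exact quot_of_list hP _ _ G.toList rfl fun M _ => alph_away hS hP.iso h M.prod

/-- all schemes of finite type -/
theorem alph_all (hS : Alphabet S) (hP : Dev sep P) (h : ∀ d, ForThin S P d)
    (X : Sch k) (hX : FT sep X) : P X := by
  refine of_affine' hP.iso hP.total ?_ X hX
  intro A _ _ hA
  obtain ⟨d, φ, hφ⟩ := Algebra.FiniteType.iff_quotient_mvPolynomial''.mp hA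
  exact iso_alg hP (Ideal.quotientKerAlgEquivOfSurjective hφ) (alph_ideal hS hP (h d) _)

end Pool.Agent.Y456.LG
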