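import Pool.Agent.Y456.LG.Valiant

/-!
# Linear sections of `GL_m` in `d` variables decide all rings generated by `d` elements
-/

set_option autoImplicit false

open CategoryTheory AlgebraicGeometry MvPolynomial

namespace Pool.Agent.Y456.LG

open Pool.Agent.Y116.UV

variable {R : Type} [CommRing R] {sep : Prop} {P : Sch R → Prop} {d : ℕ}

/-- complements of hypersurfaces -/
theorem of_away (hR : Function.Surjective (Int.cast : ℤ → R)) (hP : Dev sep P)
    (h : ∀ (m : ℕ) (M : Matrix (Fin m) (Fin m) (MvPolynomial (Fin d) R)), IsPattern M →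
      P (secGL M))
    (g : MvPolynomial (Fin d) R) : P (aff R (Localization.Away g)) := by
  classical
  obtain ⟨ι, _, _, M, h1, h2, h3⟩ := exists_det hR g
  let e := Fintype.equivFin ι
  let M' : Matrix (Fin (Fintype.card ι)) (Fin (Fintype.card ι)) (MvPolynomial (Fin d) R) :=
    Matrix.reindex e e M
  have hM : IsPattern M' := by
    constructor
    · intro i j
      exact h1 (e.symm i) (e.symm j)
    · intro k
      obtain ⟨i, j, hij⟩ := h2 k
      refine ⟨e i, e j, ?_⟩
      change M (e.symm (e i)) (e.symm (e j)) = _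
      rw [e.symm_apply_apply, e.symm_apply_apply, hij]
  have hdet : M'.det = -g := by
    change (Matrix.reindex e e M).det = _
    rw [Matrix.det_reindex_self, h3]
  have h4 := h _ M' hM
  have h5 : IsLocalization.Away g (Localization.Away M'.det) := by
    have hu : Associated M'.det g := by
      rw [hdet]
      exact ⟨-1, by simp⟩
    exact IsLocalization.Away.of_associated hu
  have := ft_away (R := R) (MvPolynomial (Fin d) R) M'.det
  obtain ⟨e⟩ := away_iso (R := R) g (S := Localization.Away M'.det) (T := Localization.Away g)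
  exact iso_alg hP e h4

/-- closed subschemes of the affine space -/
theorem of_ideal [IsNoetherianRing R] (hR : Function.Surjective (Int.cast : ℤ → R))
    (hP : Dev sep P)
    (h : ∀ (m : ℕ) (M : Matrix (Fin m) (Fin m) (MvPolynomial (Fin d) R)), IsPattern M →
      P (secGL M))
    (I : Ideal (MvPolynomial (Fin d) R)) : P (aff R (MvPolynomial (Fin d) R ⧸ I)) := by
  obtain ⟨G, hG⟩ := (isNoetherianRing_iff_ideal_fg _).mp (inferInstance :
    IsNoetherianRing (MvPolynomial (Fin d) R)) I
  have h1 : Ideal.span {x | x ∈ G.toList} = I := by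
    rw [← hG]
    congr 1
    ext x
    simp
  rw [← h1]
  exact quot_of_list hP _ _ G.toList rfl fun M _ => of_away hR hP h M.prod

/-- rings generated by `d` elements -/
theorem of_gen [IsNoetherianRing R] (hR : Function.Surjective (Int.cast : ℤ → R))
    (hP : Dev sep P)
    (h : ∀ (m : ℕ) (M : Matrix (Fin m) (Fin m) (MvPolynomial (Fin d) R)), IsPattern M →
      P (secGL M))
    (A : Type) [CommRing A] [Algebra R A] (φ : MvPolynomial (Fin d) R →ₐ[R] A)
    (hφ : Function.Surjective φ) : P (aff R A) := by
  have h1 := of_ideal hR hP h (RingHom.ker φ)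
  exact iso_alg hP (Ideal.quotientKerAlgEquivOfSurjective hφ) h1

/-- A property of the schemes of finite type over `R` that is closed under dévissage holds for all of
them, if it holds for the linear sections of `GL_m` given by patterns of zeros, ones and variables. -/
theorem universal [IsNoetherianRing R] (hR : Function.Surjective (Int.cast : ℤ → R))
    (hP : Dev sep P)
    (h : ∀ (d m : ℕ) (M : Matrix (Fin m) (Fin m) (MvPolynomial (Fin d) R)), IsPattern M →
      P (secGL M))
    (X : Sch R) (hX : FT sep X) : P X := by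
  refine of_affine' hP.iso hP.total ?_ X hX
  intro A _ _ hA
  obtain ⟨d, φ, hφ⟩ := Algebra.FiniteType.iff_quotient_mvPolynomial''.mp hA
  exact of_gen hR hP (h d) A φ hφ

/-- the open complement of a hypersurface, from closed subschemes -/
lemma away_of (hiso : ∀ {X Y : Sch R}, FT sep X → Nonempty (X ≅ Y) → P X → P Y)
    (hopen : ∀ {Z X U : Sch R} (i : Z ⟶ X) (j : U ⟶ X), FT sep X → IsTriple i j → P Z → P X → P U)
    (h : ∀ (A : Type) [CommRing A] [Algebra R A] (φ : MvPolynomial (Fin d) R →ₐ[R] A),
      Function.Surjective φ → P (aff R A)) (g : MvPolynomial (Fin d) R) :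
    P (aff R (Localization.Away g)) :=
  hopen _ _ (ft_aff sep) (triple_away g)
    (h _ (Ideal.Quotient.mkₐ R _) (Ideal.Quotient.mkₐ_surjective R _))
    (h _ (AlgHom.id R _) fun x => ⟨x, rfl⟩)

/-- polynomials in one more variable -/
lemma poly_surj {A : Type} [CommRing A] [Algebra R A] (φ : MvPolynomial (Fin d) R →ₐ[R] A)
    (hφ : Function.Surjective φ) :
    ∃ ψ : MvPolynomial (Fin (d + 1)) R →ₐ[R] Polynomial A, Function.Surjective ψ := by
  let ψ : MvPolynomial (Fin (d + 1)) R →ₐ[R] Polynomial A :=
    aeval (Fin.cons Polynomial.X fun i => Polynomial.C (φ (X i)))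
  refine ⟨ψ, fun p => ?_⟩
  have h1 : ∀ q : MvPolynomial (Fin d) R, ψ (rename Fin.succ q) = Polynomial.C (φ q) := by
    intro q
    have h2 : ψ.comp (rename Fin.succ) = (Polynomial.CAlgHom (R := R) (A := A)).comp φ := by
      apply MvPolynomial.algHom_ext
      intro i
      rw [AlgHom.comp_apply, rename_X]
      change ψ (X i.succ) = Polynomial.C (φ (X i))
      rw [aeval_X, Fin.cons_succ]
    exact congrArg (fun f : MvPolynomial (Fin d) R →ₐ[R] Polynomial A => f q) h2
  have h0 : ψ (X 0) = Polynomial.X := by
    rw [aeval_X, Fin.cons_zero]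
  induction p using Polynomial.induction_on' with
  | add p q hp hq =>
    obtain ⟨p, rfl⟩ := hp
    obtain ⟨q, rfl⟩ := hq
    exact ⟨p + q, map_add _ _ _⟩
  | monomial n a =>
    obtain ⟨q, rfl⟩ := hφ a
    refine ⟨rename Fin.succ q * X 0 ^ n, ?_⟩
    rw [map_mul, map_pow, h0, h1, Polynomial.C_mul_X_pow_eq_monomial]

end Pool.Agent.Y456.LG
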