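import Pool.Agent.Y116.UV.KT
import Pool.Agent.Y456.LG.Dim

/-!
# Finite generation of `K`-groups and linear sections of `GL_m`
-/

set_option autoImplicit false

open CategoryTheory AlgebraicGeometry MvPolynomial

namespace Pool.Agent.Y456.LG

open Pool.Agent.Y116.UV

/-- The groups `K'_n(X)` are finitely generated for all `n ≥ N`. -/
def KFGFrom (G : KTheory ℤ) (N : ℕ) (X : Sch ℤ) : Prop := ∀ n, N ≤ n → AddGroup.FG (G.K X n)

/-- Properties of the groups `K'_n(X)` of the schemes `X` of finite type over `ℤ` (Quillen):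
isomorphic schemes have isomorphic groups, the localisation sequences are exact (`localization`), and
there is a surjective homomorphism `K'_(n+1)(X × 𝔾_m) → K'_n(X)` for affine `X` (`fund`, the fundamental
theorem). -/
structure IsKGroups (G : KTheory ℤ) : Prop where
  iso : ∀ {X Y : Sch ℤ}, Nonempty (X ≅ Y) → HasKIso G X Y
  localization : ∀ {Z X U : Sch ℤ} (i : Z ⟶ X) (j : U ⟶ X), FT False X → IsTriple i j →
    HasKSequence G Z X U
  fund : ∀ (A : Type) [CommRing A] [Algebra ℤ A] [Algebra.FiniteType ℤ A] (n : ℕ),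
    ∃ s : KHom G (torS ℤ A) (n + 1) (aff ℤ A) n, Function.Surjective s.f

variable {G : KTheory ℤ}

lemma dev_from (hG : IsKGroups G) (N : ℕ) : Dev False (KFGFrom G N) where
  iso _ e h n hn := by
    obtain ⟨s, hs⟩ := hG.iso e n
    exact fg_of_surj s.hom hs.2 (h n hn)
  total i j hX ht hZ hU n hn := by
    obtain ⟨a, b, d, h, -⟩ := hG.localization i j hX ht
    exact fg_of_exact (a n).hom (b n).hom (h n).1.exact (hZ n hn) (hU n hn)
  closed i j hX ht hX' hU n hn := by
    obtain ⟨a, b, d, h, -⟩ := hG.localization i j hX ht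
    exact fg_of_exact (d n).hom (a n).hom (h n).2.2.exact (hU (n + 1) (by omega)) (hX' n hn)

lemma kfg_iff (X : Sch ℤ) : KFG G X ↔ KFGFrom G 0 X :=
  ⟨fun h n _ => h n, fun h n => h n (Nat.zero_le n)⟩

/-- one degree down -/
lemma from_down (hG : IsKGroups G) (N : ℕ) (h : ∀ X : Sch ℤ, FT False X → KFGFrom G (N + 1) X)
    (X : Sch ℤ) (hX : FT False X) : KFGFrom G N X := by
  have hd := dev_from hG N
  refine of_affine' hd.iso hd.total ?_ X hX
  intro A _ _ hA n hn
  obtain ⟨s, hs⟩ := hG.fund A n
  have hA' : Algebra.FiniteType ℤ (LaurentPolynomial A) := ft_laurent (R := ℤ) A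
  exact fg_of_surj s.hom hs (h (torS ℤ A) (ft_aff False) (n + 1) (by omega))

lemma from_zero (hG : IsKGroups G) (N : ℕ) (h : ∀ X : Sch ℤ, FT False X → KFGFrom G N X) :
    ∀ X : Sch ℤ, FT False X → KFGFrom G 0 X := by
  induction N with
  | zero => exact h
  | succ N ih => exact ih (from_down hG N h)

lemma bass_int : Function.Surjective (Int.cast : ℤ → ℤ) := fun n => ⟨n, Int.cast_id⟩

/-- Reduction to high `K`-groups of linear sections. -/
theorem bass_all (hG : IsKGroups G) (N : ℕ)
    (h : ∀ (d m : ℕ) (M : Matrix (Fin m) (Fin m) (MvPolynomial (Fin d) ℤ)), IsPattern M →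
      KFGFrom G N (secGL M)) (X : Sch ℤ) (hX : FT False X) : KFG G X :=
  (kfg_iff X).mpr (from_zero hG N (fun X hX => universal bass_int (dev_from hG N) h X hX) X hX)

/-- In each dimension. -/
theorem bass_dim (hG : IsKGroups G) (d : ℕ) :
    (∀ (A : Type) [CommRing A] [Algebra ℤ A] (a : Fin d → A),
      Function.Surjective (MvPolynomial.aeval (R := ℤ) a) → KFG G (aff ℤ A)) ↔
    ∀ (m : ℕ) (M : Matrix (Fin m) (Fin m) (MvPolynomial (Fin d) ℤ)), IsPattern M →
      KFG G (secGL M) := by
  constructor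
  · intro h m M _
    refine away_of (sep := False) (P := KFG G) (fun _ e h => kfg_iso (hG.iso e) h)
      (fun a b hX ht hZ hX' => kfg_opn (hG.localization a b hX ht) hZ hX') ?_ M.det
    intro A _ _ φ hφ
    refine h A (φ ∘ X) ?_
    rw [← MvPolynomial.aeval_unique φ]
    exact hφ
  · intro h A _ _ a ha
    rw [kfg_iff]
    exact of_gen bass_int (dev_from hG 0) (fun m M hM => (kfg_iff _).mp (h m M hM)) A _ ha

lemma regular_away (A : Type) [CommRing A] [IsRegularRing A] (f : A) :
    IsRegularRing (Localization.Away f) := by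
  rw [isRegularRing_iff]
  intro P _
  exact IsRegularLocalRing.of_ringEquiv
    (IsLocalization.localizationLocalizationAtPrimeIsoLocalization (Submonoid.powers f) P).toRingEquiv

/-- The linear sections are regular. -/
theorem reg_sec {m d : ℕ} (M : Matrix (Fin m) (Fin m) (MvPolynomial (Fin d) ℤ)) :
    IsReg (secGL M) := by
  have := regular_away (MvPolynomial (Fin d) ℤ) M.det
  exact isReg_aff

lemma ft_sec' {m N : ℕ} (M : Matrix (Fin m) (Fin m) (MvPolynomial (Fin N) ℤ)) :
    FT False (secGL M) := by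
  have := ft_away (R := ℤ) (MvPolynomial (Fin N) ℤ) M.det
  exact ft_aff False

end Pool.Agent.Y456.LG
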