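import Pool.Agent.Y116.UV.Geo

/-!
# Linear sections of `GL_m` given by patterns of zeros, ones and variables: definitions
-/

set_option autoImplicit false

open CategoryTheory AlgebraicGeometry MvPolynomial

namespace Pool.Agent.Y456.LG

open Pool.Agent.Y116.UV

/-- A square matrix `M` of polynomials is a pattern if each of its entries is `0`, `1` or a variable
and each variable occurs in it. The matrices `M(x)` form an affine linear subspace of the space of
`m × m` matrices, with equations `g_ij = 0`, `g_ij = 1`, `g_ij = g_kl`. -/
structure IsPattern {R : Type} [CommRing R] {m N : ℕ}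
    (M : Matrix (Fin m) (Fin m) (MvPolynomial (Fin N) R)) : Prop where
  entry : ∀ i j, M i j = 0 ∨ M i j = 1 ∨ ∃ k, M i j = X k
  occurs : ∀ k, ∃ i j, M i j = X k

/-- The scheme of the points `x` of the affine space such that the matrix `M(x)` is invertible, the
spectrum of `R[x_1, …, x_N][1 / det M]`. If `M` is a pattern, this is the intersection of `GL_m` with
a linear subspace of the space of matrices. -/
noncomputable def secGL {R : Type} [CommRing R] {m N : ℕ}
    (M : Matrix (Fin m) (Fin m) (MvPolynomial (Fin N) R)) : Sch R :=
  aff R (Localization.Away M.det)

/-- A property of schemes of finite type over `R` that is invariant under isomorphisms, that holds for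
`X` if it holds for a closed subscheme and its open complement, and that holds for a closed subscheme
if it holds for `X` and the open complement. -/
structure Dev {R : Type} [CommRing R] (sep : Prop) (P : Sch R → Prop) : Prop where
  iso : ∀ {X Y : Sch R}, FT sep X → Nonempty (X ≅ Y) → P X → P Y
  total : ∀ {Z X U : Sch R} (i : Z ⟶ X) (j : U ⟶ X), FT sep X → IsTriple i j → P Z → P U → P X
  closed : ∀ {Z X U : Sch R} (i : Z ⟶ X) (j : U ⟶ X), FT sep X → IsTriple i j → P X → P U → P Z

end Pool.Agent.Y456.LG
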