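import Pool.Agent.Y456.LG.List

/-!
# Products of three-term quadratic polynomials are determinants of patterns
-/

set_option autoImplicit false

open CategoryTheory AlgebraicGeometry MvPolynomial

namespace Pool.Agent.Y456.LG

open Pool.Agent.Y116.UV

variable {R : Type} [CommRing R] {sep : Prop} {P : Sch R → Prop}

/-- `0`, `1` or a variable -/
def IsE {V : Type} (x : MvPolynomial V R) : Prop := x = 0 ∨ x = 1 ∨ ∃ k, x = X k

/-- a sum of at most three products of two factors, each of which is `1` or a variable -/
def IsTer {V : Type} (q : MvPolynomial V R) : Prop :=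
  ∃ a b : Fin 3 → MvPolynomial V R, (∀ l, IsE (a l)) ∧ (∀ l, IsE (b l)) ∧ q = ∑ l, a l * b l

lemma isE_zero {V : Type} : IsE (0 : MvPolynomial V R) := Or.inl rfl

lemma isE_one {V : Type} : IsE (1 : MvPolynomial V R) := Or.inr (Or.inl rfl)

lemma isE_X {V : Type} (k : V) : IsE (X k : MvPolynomial V R) := Or.inr (Or.inr ⟨k, rfl⟩)

/-- patterns with arbitrary finite index types -/
lemma of_pattern (hP : Dev sep P)
    (h : ∀ (m N : ℕ) (M : Matrix (Fin m) (Fin m) (MvPolynomial (Fin N) R)), IsPattern M →
      P (secGL M))
    {ι V : Type} [Fintype ι] [DecidableEq ι] [Fintype V] (M : Matrix ι ι (MvPolynomial V R))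
    (h1 : ∀ i j, IsE (M i j)) (h2 : ∀ k, ∃ i j, M i j = X k) :
    P (aff R (Localization.Away M.det)) := by
  classical
  let e := Fintype.equivFin ι
  let v := Fintype.equivFin V
  let E : MvPolynomial V R ≃ₐ[R] MvPolynomial (Fin (Fintype.card V)) R := renameEquiv R v
  let M' : Matrix (Fin (Fintype.card ι)) (Fin (Fintype.card ι))
      (MvPolynomial (Fin (Fintype.card V)) R) := Matrix.reindex e e (M.map E)
  have hM : IsPattern M' := by
    constructor
    · intro i j
      change E (M (e.symm i) (e.symm j)) = 0 ∨ E (M (e.symm i) (e.symm j)) = 1 ∨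
        ∃ k, E (M (e.symm i) (e.symm j)) = X k
      rcases h1 (e.symm i) (e.symm j) with h | h | ⟨k, h⟩
      · left
        rw [h, map_zero]
      · right; left
        rw [h, map_one]
      · right; right
        refine ⟨v k, ?_⟩
        rw [h]
        change rename v (X k) = _
        rw [rename_X]
    · intro k
      obtain ⟨i, j, hij⟩ := h2 (v.symm k)
      refine ⟨e i, e j, ?_⟩
      change E (M (e.symm (e i)) (e.symm (e j))) = _
      rw [e.symm_apply_apply, e.symm_apply_apply, hij]
      change rename v (X (v.symm k)) = _
      rw [rename_X, v.apply_symm_apply]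
  have hdet : M'.det = E M.det := by
    change (Matrix.reindex e e (M.map E)).det = _
    rw [Matrix.det_reindex_self]
    exact (AlgEquiv.map_det E M).symm
  have h3 := h _ _ M' hM
  have h4 : Nonempty (Localization.Away M'.det ≃ₐ[R] Localization.Away M.det) := by
    rw [hdet]
    have hl : IsLocalization (Submonoid.powers (E M.det)) (Localization.Away (E M.det)) :=
      inferInstance
    have hm : Submonoid.map E.toRingEquiv.toMonoidHom (Submonoid.powers M.det) =
        Submonoid.powers (E M.det) := by
      rw [Submonoid.map_powers]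
      rfl
    refine ⟨(AlgEquiv.ofRingEquiv (f := IsLocalization.ringEquivOfRingEquiv
      (Localization.Away M.det) (Localization.Away (E M.det)) E.toRingEquiv hm) ?_).symm⟩
    intro r
    rw [IsScalarTower.algebraMap_apply R (MvPolynomial V R) (Localization.Away M.det),
      IsLocalization.ringEquivOfRingEquiv_eq,
      IsScalarTower.algebraMap_apply R (MvPolynomial (Fin (Fintype.card V)) R)
        (Localization.Away (E M.det))]
    congr 1
    exact E.commutes r
  obtain ⟨e4⟩ := h4
  have := ft_away (R := R) (MvPolynomial (Fin (Fintype.card V)) R) M'.det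
  exact iso_alg hP e4 h3

/-- the arrow matrix -/
noncomputable def arr {S : Type} [CommRing S] (a b : Fin 3 → S) :
    Matrix (Unit ⊕ Fin 3) (Unit ⊕ Fin 3) S :=
  Matrix.fromBlocks 0 (Matrix.of fun _ l => a l) (Matrix.of fun l _ => b l) 1

lemma det_arr {S : Type} [CommRing S] (a b : Fin 3 → S) : (arr a b).det = -∑ l, a l * b l := by
  rw [arr, Matrix.det_fromBlocks_one₂₂, Matrix.det_unique, Matrix.sub_apply, Matrix.zero_apply,
    zero_sub, Matrix.mul_apply]
  rfl

/-- the unipotent matrix -/
noncomputable def uni {S : Type} [CommRing S] (x : S) : Matrix (Fin 2) (Fin 2) S := !![1, x; 0, 1]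

lemma det_uni {S : Type} [CommRing S] (x : S) : (uni x).det = 1 := by
  rw [uni, Matrix.det_fin_two_of]
  ring

/-- products of three-term polynomials -/
theorem of_ter (hP : Dev sep P)
    (h : ∀ (m N : ℕ) (M : Matrix (Fin m) (Fin m) (MvPolynomial (Fin N) R)), IsPattern M →
      P (secGL M))
    {V : Type} [Fintype V] (L : List (MvPolynomial V R)) (hL : ∀ q ∈ L, IsTer q) :
    P (aff R (Localization.Away L.prod)) := by
  classical
  have hq : ∀ t : Fin L.length, IsTer (L.get t) := fun t => hL _ (List.get_mem L t)
  choose a b ha hb hab using hq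
  let M : Matrix (((Unit ⊕ Fin 3) × Fin L.length) ⊕ (Fin 2 × V))
      (((Unit ⊕ Fin 3) × Fin L.length) ⊕ (Fin 2 × V)) (MvPolynomial V R) :=
    Matrix.fromBlocks (Matrix.blockDiagonal fun t => arr (a t) (b t)) 0 0
      (Matrix.blockDiagonal fun k : V => uni (X k))
  have h0 : ∀ i j, IsE (M i j) := by
    rintro (⟨i, t⟩ | ⟨i, k⟩) (⟨j, t'⟩ | ⟨j, k'⟩)
    · change IsE (Matrix.blockDiagonal (fun t => arr (a t) (b t)) (i, t) (j, t'))
      rw [Matrix.blockDiagonal_apply]
      dsimp only
      split_ifs with ht
      · rcases i with i | i
        · rcases j with j | j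
          · exact isE_zero
          · exact ha t j
        · rcases j with j | j
          · exact hb t i
          · change IsE ((1 : Matrix (Fin 3) (Fin 3) (MvPolynomial V R)) i j)
            rw [Matrix.one_apply]
            split_ifs
            · exact isE_one
            · exact isE_zero
      · exact isE_zero
    · exact isE_zero
    · exact isE_zero
    · change IsE (Matrix.blockDiagonal (fun k : V => uni (X k : MvPolynomial V R)) (i, k) (j, k'))
      rw [Matrix.blockDiagonal_apply]
      dsimp only
      split_ifs with ht
      · fin_cases i <;> fin_cases j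
        · exact isE_one
        · exact isE_X k
        · exact isE_zero
        · exact isE_one
      · exact isE_zero
  have h1 : ∀ k, ∃ i j, M i j = X k := by
    intro k
    refine ⟨Sum.inr (0, k), Sum.inr (1, k), ?_⟩
    change Matrix.blockDiagonal (fun k : V => uni (X k : MvPolynomial V R)) (0, k) (1, k) = _
    rw [Matrix.blockDiagonal_apply]
    dsimp only
    rw [if_pos rfl]
    rfl
  have h2 := of_pattern hP h M h0 h1
  have h3 : M.det = (-1) ^ L.length * L.prod := by
    change (Matrix.fromBlocks _ _ _ _).det = _
    rw [Matrix.det_fromBlocks_zero₂₁, Matrix.det_blockDiagonal, Matrix.det_blockDiagonal]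
    simp only [det_arr, det_uni, Finset.prod_const_one, mul_one]
    have h4 : ∀ t, -∑ l, a t l * b t l = (-1) * L.get t := by
      intro t
      rw [hab t]
      ring
    rw [Finset.prod_congr rfl fun t _ => h4 t, Finset.prod_mul_distrib, Finset.prod_const,
      Finset.card_univ, Fintype.card_fin]
    congr 1
    rw [← List.prod_ofFn, List.ofFn_get]
  have h5 : IsLocalization.Away L.prod (Localization.Away M.det) := by
    have hu : Associated M.det L.prod := by
      rw [h3]
      refine associated_unit_mul_left _ _ ?_
      exact (isUnit_one.neg).pow _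
    exact IsLocalization.Away.of_associated hu
  have := ft_away (R := R) (MvPolynomial V R) M.det
  obtain ⟨e⟩ := away_iso (R := R) L.prod (S := Localization.Away M.det)
    (T := Localization.Away L.prod)
  exact iso_alg hP e h2

end Pool.Agent.Y456.LG
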