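import Pool.Agent.Y456.LG.Scale
import Pool.Agent.Y456.LG.Local
import Pool.Agent.Z125.UN.Dim2

/-!
# Schemes of dimension at most `n` and sparse linear sections of `GL_m` of dimension `n + 1`
-/

set_option autoImplicit false

open CategoryTheory AlgebraicGeometry MvPolynomial Pool.Agent.Y116.UV Pool.Agent.Z125.UN

namespace Pool.Agent.Y456.LG

section

variable {k : Type} [Field k] {S : Set k} {sep : Prop} {P : Sch k → Prop}

lemma dev_bnd (hP : Bnd sep P) : Dev sep P := ⟨hP.iso, hP.total, hP.closed⟩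

/-- The sections have dimension `n + 1`, the schemes have dimension at most `n`. -/
theorem dim_of_thin [PerfectField k] (hS : Enough S) (hP : Bnd sep P) {n : ℕ}
    (h : ForThin S P (n + 1)) (X : Sch k) (hX : FT sep X)
    (hn : topologicalKrullDim X.left ≤ n) : P X :=
  of_affine_dim hP (closed_to_dim hP fun I => scale_ideal hS (dev_bnd hP) h I) X hX hn

/-- the open complement of a hypersurface -/
lemma away_of_dim (hP : Bnd sep P) {n : ℕ} (h : ∀ (A : Type) [CommRing A] [Algebra k A]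
    [Algebra.FiniteType k A], ringKrullDim A ≤ n → P (aff k A))
    (g : MvPolynomial (Fin (n + 1)) k) : P (aff k (Localization.Away g)) :=
  hP.opened _ _ (ft_aff sep) (triple_away g) (dim_to_closed hP h _) (hP.space (n + 1))

theorem thin_of_dim (hP : Bnd sep P) {n : ℕ} (h : ∀ (X : Sch k), FT sep X →
    topologicalKrullDim X.left ≤ n → P X) : ForThin S P (n + 1) := by
  intro m M _ _
  refine away_of_dim hP (fun A _ _ _ hA => h _ (ft_aff sep) ?_) M.det
  rw [topDim_aff]
  exact hA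

/-- Dimension by dimension. -/
theorem dim_iff [PerfectField k] (hS : Enough S) (hP : Bnd sep P) (n : ℕ) :
    (∀ (X : Sch k), FT sep X → topologicalKrullDim X.left ≤ n → P X) ↔ ForThin S P (n + 1) :=
  ⟨thin_of_dim hP, fun h X hX hn => dim_of_thin hS hP h X hX hn⟩

/-- the schemes decided by lists of matrices with a property -/
def ReachB (sep : Prop) (D : (Σ d m : ℕ, Matrix (Fin m) (Fin m) (MvPolynomial (Fin d) k)) → Prop)
    (X : Sch k) : Prop :=
  ∃ L : List (Σ d m : ℕ, Matrix (Fin m) (Fin m) (MvPolynomial (Fin d) k)), (∀ x ∈ L, D x) ∧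
    ∀ Q : Sch k → Prop, Bnd sep Q → (∀ x ∈ L, Q (secGL x.2.2)) → Q X

lemma reachB_two {D : (Σ d m : ℕ, Matrix (Fin m) (Fin m) (MvPolynomial (Fin d) k)) → Prop}
    {X Y Z : Sch k} (h : ∀ Q : Sch k → Prop, Bnd sep Q → Q X → Q Y → Q Z)
    (hX : ReachB sep D X) (hY : ReachB sep D Y) : ReachB sep D Z := by
  obtain ⟨L, h1, h2⟩ := hX
  obtain ⟨L', h1', h2'⟩ := hY
  refine ⟨L ++ L', ?_, fun Q hQ hx => h Q hQ (h2 Q hQ fun x hx' => hx x ?_)
    (h2' Q hQ fun x hx' => hx x ?_)⟩
  · intro x hx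
    rcases List.mem_append.mp hx with hx | hx
    · exact h1 x hx
    · exact h1' x hx
  · exact List.mem_append.mpr (Or.inl hx')
  · exact List.mem_append.mpr (Or.inr hx')

lemma reachB_one {D : (Σ d m : ℕ, Matrix (Fin m) (Fin m) (MvPolynomial (Fin d) k)) → Prop}
    {X Y : Sch k} (h : ∀ Q : Sch k → Prop, Bnd sep Q → Q X → Q Y)
    (hX : ReachB sep D X) : ReachB sep D Y := by
  obtain ⟨L, h1, h2⟩ := hX
  exact ⟨L, h1, fun Q hQ hx => h Q hQ (h2 Q hQ hx)⟩

theorem bnd_reach (D : (Σ d m : ℕ, Matrix (Fin m) (Fin m) (MvPolynomial (Fin d) k)) → Prop) :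
    Bnd sep (ReachB sep D) where
  iso hX e h := reachB_one (fun Q hQ h => hQ.iso hX e h) h
  total i j hX ht hZ hU := reachB_two (fun Q hQ h1 h2 => hQ.total i j hX ht h1 h2) hZ hU
  opened i j hX ht hZ hX' := reachB_two (fun Q hQ h1 h2 => hQ.opened i j hX ht h1 h2) hZ hX'
  closed i j hX ht hX' hU := reachB_two (fun Q hQ h1 h2 => hQ.closed i j hX ht h1 h2) hX' hU
  space n := ⟨[], fun x hx => by simp at hx, fun Q hQ _ => hQ.space n⟩
  jouanolou A _ _ _ m f U j hj hr h := reachB_one
    (fun Q hQ h => hQ.jouanolou A m f U j hj hr h) h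
  torus A _ _ _ h := reachB_one (fun Q hQ h => hQ.torus A h) h
  bundle A _ _ _ m f U j hj hr h := reachB_one (fun Q hQ h => hQ.bundle A m f U j hj hr h) h

lemma reachB_self {D : (Σ d m : ℕ, Matrix (Fin m) (Fin m) (MvPolynomial (Fin d) k)) → Prop}
    {d m : ℕ} (M : Matrix (Fin m) (Fin m) (MvPolynomial (Fin d) k)) (h : D ⟨d, m, M⟩) :
    ReachB sep D (secGL M) := by
  refine ⟨[⟨d, m, M⟩], ?_, fun Q _ h => h ⟨d, m, M⟩ (List.mem_singleton.mpr rfl)⟩
  intro x hx
  rw [List.mem_singleton.mp hx]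
  exact h

/-- Each scheme of dimension at most `n` is decided by finitely many sparse sections of dimension
`n + 1`. -/
theorem reach_dim [PerfectField k] (hS : Enough S) {n : ℕ} (X : Sch k) (hX : FT sep X)
    (hn : topologicalKrullDim X.left ≤ n) :
    ReachB sep (fun x => x.1 = n + 1 ∧ IsPat S x.2.2 ∧ Thin x.2.2) X :=
  dim_of_thin hS (bnd_reach _) (fun _ M hM hT => reachB_self M ⟨rfl, hM, hT⟩) X hX hn

/-- smoothness -/
lemma smooth_sec {d m : ℕ} (M : Matrix (Fin m) (Fin m) (MvPolynomial (Fin d) k)) :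
    Smooth (secGL M).hom := by
  refine smooth_aff ?_
  have h1 : Algebra.Smooth (MvPolynomial (Fin d) k) (Localization.Away M.det) :=
    Algebra.Smooth.of_isLocalization_Away M.det
  have h2 : Algebra.Smooth k (MvPolynomial (Fin d) k) :=
    { formallySmooth := inferInstance
      finitePresentation := inferInstance }
  exact Algebra.Smooth.comp k (MvPolynomial (Fin d) k) _

lemma ft_secF {d m : ℕ} (M : Matrix (Fin m) (Fin m) (MvPolynomial (Fin d) k)) :
    FT sep (secGL M) := by
  have := ft_away (R := k) (MvPolynomial (Fin d) k) M.det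
  exact ft_aff sep

end

end Pool.Agent.Y456.LG
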