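import Pool.Agent.Y111.WM.Main
import Pool.Agent.Y456.LG.Dim

/-!
# Finite generation of étale motivic cohomology and linear sections of `GL_m`
-/

set_option autoImplicit false

open CategoryTheory AlgebraicGeometry MvPolynomial

namespace Pool.Agent.Y456.LG

open Pool.Agent.Y116.UV Pool.Agent.Y111.WM

/-- The groups `H^i(X_et, ℤ^c(n))` are finitely generated for all `i ≤ N`. -/
def FGUpTo (T : EtCoh) (n N : ℤ) (X : Sch ℤ) : Prop := ∀ i ≤ N, AddGroup.FG (T.H X n i)

/-- The groups `H^i(X_et, ℤ^c(n))` are finitely generated for all `i`. -/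
def FGAll (T : EtCoh) (n : ℤ) (X : Sch ℤ) : Prop := ∀ i, AddGroup.FG (T.H X n i)

variable {T : EtCoh} {n : ℤ}

lemma dev_upTo (hT : IsEtCoh T) (hn : n < 0) (N : ℤ) : Dev True (FGUpTo T n N) where
  iso hX e h i hi := fg_equiv (hT.iso hX e n hn i) (h i hi)
  total a b hX ht hZ hU i hi := total hT a b hX ht hn (hZ i hi) (hU i hi)
  closed a b hX ht hX' hU i hi := by
    have h1 : F T n (i - 1 + 1) _ := closed (i := i - 1) hT a b hX ht hn
      (by rw [sub_add_cancel]; exact hX' i hi) (hU (i - 1) (by omega))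
    rwa [sub_add_cancel] at h1

lemma all_upTo (X : Sch ℤ) : FGAll T n X ↔ ∀ N, FGUpTo T n N X :=
  ⟨fun h _ i _ => h i, fun h i => h i i le_rfl⟩

lemma dev_all (hT : IsEtCoh T) (hn : n < 0) : Dev True (FGAll T n) where
  iso hX e h i := fg_equiv (hT.iso hX e n hn i) (h i)
  total a b hX ht hZ hU i := total hT a b hX ht hn (hZ i) (hU i)
  closed a b hX ht hX' hU i := by
    have h1 : F T n (i - 1 + 1) _ := closed (i := i - 1) hT a b hX ht hn
      (by rw [sub_add_cancel]; exact hX' i) (hU (i - 1))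
    rwa [sub_add_cancel] at h1

lemma surj_int : Function.Surjective (Int.cast : ℤ → ℤ) := fun n => ⟨n, Int.cast_id⟩

/-- In each negative weight and each dimension. -/
theorem etale_dim (hT : IsEtCoh T) (hn : n < 0) (d : ℕ) :
    (∀ (A : Type) [CommRing A] [Algebra ℤ A] (a : Fin d → A),
      Function.Surjective (MvPolynomial.aeval (R := ℤ) a) → FGAll T n (aff ℤ A)) ↔
    ∀ (m : ℕ) (M : Matrix (Fin m) (Fin m) (MvPolynomial (Fin d) ℤ)), IsPattern M →
      FGAll T n (secGL M) := by
  constructor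
  · intro h m M _
    refine away_of (sep := True) (P := FGAll T n) (dev_all hT hn).iso
      (fun a b hX ht hZ hX' i => opened hT a b hX ht hn (hZ (i + 1)) (hX' i)) ?_ M.det
    intro A _ _ φ hφ
    refine h A (φ ∘ X) ?_
    rw [← MvPolynomial.aeval_unique φ]
    exact hφ
  · intro h A _ _ a ha
    exact of_gen surj_int (dev_all hT hn) h A _ ha

/-- The weight `-1` and very negative degrees for the linear sections. -/
theorem etale_conj (hT : IsEtCoh T) (N : ℤ)
    (h : ∀ (d m : ℕ) (M : Matrix (Fin m) (Fin m) (MvPolynomial (Fin d) ℤ)), IsPattern M →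
      FGUpTo T (-1) N (secGL M)) : Conjecture T := by
  apply conj_of hT
  intro N'
  refine ⟨min N N', min_le_right _ _, ?_⟩
  intro A _ _ _
  exact universal surj_int (dev_upTo hT (by norm_num) N) h (aff ℤ A) (ft_aff True) _ (min_le_left _ _)

lemma ft_secGL {R : Type} [CommRing R] {sep : Prop} {m N : ℕ}
    (M : Matrix (Fin m) (Fin m) (MvPolynomial (Fin N) R)) : FT sep (secGL M) := by
  have := ft_away (R := R) (MvPolynomial (Fin N) R) M.det
  exact ft_aff sep

end Pool.Agent.Y456.LG
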