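import Pool.Agent.Y456.LG.Etale
import Pool.Agent.Y456.LG.Local

/-!
# Finite generation of étale motivic cohomology and sparse linear sections of `GL_m`
-/

set_option autoImplicit false

open CategoryTheory AlgebraicGeometry MvPolynomial

namespace Pool.Agent.Y456.LG

open Pool.Agent.Y116.UV Pool.Agent.Y111.WM

lemma forThin_of {R : Type} [CommRing R] {P : Sch R → Prop} {d : ℕ}
    (h : ∀ (m : ℕ) (M : Matrix (Fin m) (Fin m) (MvPolynomial (Fin d) R)), IsPattern M → Thin M →
      P (secGL M)) : ForThin ({0, 1} : Set R) P d := fun m M hM hT => h m M (isPattern_of hM) hT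

variable {T : EtCoh} {n : ℤ}

/-- In each negative weight and each dimension. -/
theorem etale_thin (hT : IsEtCoh T) (hn : n < 0) (d : ℕ) :
    (∀ (A : Type) [CommRing A] [Algebra ℤ A] (a : Fin d → A),
      Function.Surjective (MvPolynomial.aeval (R := ℤ) a) → FGAll T n (aff ℤ A)) ↔
    ∀ (m : ℕ) (M : Matrix (Fin m) (Fin m) (MvPolynomial (Fin d) ℤ)), IsPattern M → Thin M →
      FGAll T n (secGL M) := by
  constructor
  · intro h m M _ _
    refine away_of (sep := True) (P := FGAll T n) (dev_all hT hn).iso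
      (fun a b hX ht hZ hX' i => opened hT a b hX ht hn (hZ (i + 1)) (hX' i)) ?_ M.det
    intro A _ _ φ hφ
    refine h A (φ ∘ X) ?_
    rw [← MvPolynomial.aeval_unique φ]
    exact hφ
  · intro h A _ _ a ha
    exact thin_gen (S := {0, 1}) (Or.inl rfl) (Or.inr rfl) (closure_int surj_int) (dev_all hT hn)
      (forThin_of h) A _ ha

/-- The weight `-1` and very negative degrees for the linear sections. -/
theorem etale_conj_thin (hT : IsEtCoh T) (N : ℤ)
    (h : ∀ (d m : ℕ) (M : Matrix (Fin m) (Fin m) (MvPolynomial (Fin d) ℤ)), IsPattern M →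
      Thin M → FGUpTo T (-1) N (secGL M)) : Conjecture T := by
  apply conj_of hT
  intro N'
  refine ⟨min N N', min_le_right _ _, ?_⟩
  intro A _ _ _
  exact thin_all (S := {0, 1}) (Or.inl rfl) (Or.inr rfl) (closure_int surj_int)
    (dev_upTo hT (by norm_num) N) (fun d => forThin_of (h d)) (aff ℤ A) (ft_aff True) _
    (min_le_left _ _)

/-- one ring -/
theorem etale_local_gen {d : ℕ} (A : Type) [CommRing A] [Algebra ℤ A] (a : Fin d → A)
    (ha : Function.Surjective (MvPolynomial.aeval (R := ℤ) a)) :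
    ∃ L : Mats ℤ, (∀ x ∈ L, x.1 = d ∧ IsPattern x.2.2 ∧ Thin x.2.2) ∧
      ∀ T : EtCoh, IsEtCoh T → ∀ n : ℤ, n < 0 → ∀ N : ℤ,
        (∀ x ∈ L, FGUpTo T n N (secGL x.2.2)) → FGUpTo T n N (aff ℤ A) := by
  obtain ⟨L, h1, h2⟩ := decides_gen (sep := True) surj_int A _ ha
  exact ⟨L, h1, fun T hT n hn N h => h2 _ (dev_upTo hT hn N) h⟩

/-- one scheme -/
theorem etale_local (X : Sch ℤ) (hX : FT True X) :
    ∃ L : Mats ℤ, (∀ x ∈ L, IsPattern x.2.2 ∧ Thin x.2.2) ∧
      ∀ T : EtCoh, IsEtCoh T → ∀ n : ℤ, n < 0 → ∀ N : ℤ,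
        (∀ x ∈ L, FGUpTo T n N (secGL x.2.2)) → FGUpTo T n N X := by
  obtain ⟨L, h1, h2⟩ := decides_all (sep := True) surj_int X hX
  exact ⟨L, h1, fun T hT n hn N h => h2 _ (dev_upTo hT hn N) h⟩

end Pool.Agent.Y456.LG
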