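import Pool.Agent.Y456.LG.TannDefs

/-!
# Full functors on motives: definitions
-/

set_option autoImplicit false

open CategoryTheory

namespace Pool.Agent.Y456.LG

universe v u v' u'

/-- Every morphism `F(A) → F(B)` comes from a morphism `A → B`. -/
def FullOn {C : Type u} [Category.{v} C] {E : Type u'} [Category.{v'} E] (F : C ⥤ E) (A B : C) :
    Prop :=
  ∀ φ : F.obj A ⟶ F.obj B, ∃ f : A ⟶ B, F.map f = φ

/-- The functor `F` is compatible with the Tate twist `L`: there is a faithful functor `L'` (the Tate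
twist of realisations) with `F(L(A)) = L'(F(A))`. -/
def CommTwist {C : Type u} [Category.{v} C] {E : Type u'} [Category.{v'} E] (F : C ⥤ E)
    (L : C ⥤ C) : Prop :=
  ∃ L' : E ⥤ E, L'.Faithful ∧ Nonempty (L ⋙ F ≅ F ⋙ L')

end Pool.Agent.Y456.LG
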