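import Pool.Agent.Y456.LG.Summ
import Pool.Agent.Y456.LG.Dimn
import Pool.Agent.Y456.LG.Mot
import Pool.Agent.Y456.LG.FullDefs
import Pool.Agent.Y691.TU.Hod

/-!
# Full functors on motives and sparse linear sections of `GL_m`
-/

set_option autoImplicit false

open CategoryTheory CategoryTheory.Limits MonoidalCategory AlgebraicGeometry MvPolynomial
open scoped TensorProduct

namespace Pool.Agent.Y456.LG

open Pool.Agent.Y116.UV Pool.Agent.Y101.Th Pool.Agent.Y691.TU Pool.Agent.Z125.UN

universe v u v' u'

section fullOn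

variable {C : Type u} [Category.{v} C] {E : Type u'} [Category.{v'} E] {F : C ⥤ E}

lemma fullOn_ret {A A' B B' : C} (hA : Ret A A') (hB : Ret B B') (h : FullOn F A' B') :
    FullOn F A B := by
  obtain ⟨s, r, hs⟩ := hA
  obtain ⟨s', r', hs'⟩ := hB
  intro φ
  obtain ⟨g, hg⟩ := h (F.map r ≫ φ ≫ F.map s')
  refine ⟨s ≫ g ≫ r', ?_⟩
  rw [F.map_comp, F.map_comp, hg]
  simp only [Category.assoc]
  rw [← F.map_comp, hs', F.map_id, Category.comp_id, ← Category.assoc, ← F.map_comp, hs, F.map_id,
    Category.id_comp]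

lemma fullOn_L {L : C ⥤ C} [L.Full] (hL : CommTwist F L) {A B : C}
    (h : FullOn F (L.obj A) (L.obj B)) : FullOn F A B := by
  obtain ⟨L', hL', ⟨e⟩⟩ := hL
  intro φ
  obtain ⟨g, hg⟩ := h (e.hom.app A ≫ L'.map φ ≫ e.inv.app B)
  refine ⟨L.preimage g, ?_⟩
  apply L'.map_injective
  have h1 := e.hom.naturality (L.preimage g)
  change F.map (L.map (L.preimage g)) ≫ e.hom.app B =
    e.hom.app A ≫ L'.map (F.map (L.preimage g)) at h1
  rw [L.map_preimage, hg] at h1
  simp only [Category.assoc] at h1
  rw [← NatTrans.comp_app, e.inv_hom_id, NatTrans.id_app] at h1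
  have h2 : e.hom.app A ≫ L'.map φ = e.hom.app A ≫ L'.map (F.map (L.preimage g)) := by
    rw [← h1]
    exact congrArg _ (Category.comp_id _).symm
  have h3 : Epi (e.hom.app A) := inferInstance
  exact ((cancel_epi _).mp h2).symm

lemma fullOn_tw {L : C ⥤ C} [L.Full] (hL : CommTwist F L) {A B : C} (n : ℕ)
    (h : FullOn F (Pool.Agent.Y691.TU.tw L n A) (Pool.Agent.Y691.TU.tw L n B)) :
    FullOn F A B := by
  induction n with
  | zero => exact h
  | succ n ih => exact ih (fullOn_L hL h)

lemma full_of (h : ∀ A B : C, FullOn F A B) : F.Full := ⟨fun {A B} φ => h A B φ⟩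

lemma fullOn_of (h : F.Full) (A B : C) : FullOn F A B := fun φ => F.map_surjective φ

end fullOn

section

variable {k : Type} [Field k] {S : Set k} {C : Type u} [Category.{v} C] [Abelian C]
  [HasFiniteBiproducts C] [MonoidalCategory C] [MonoidalPreadditive C] [BraidedCategory C]
  {D : Graded k C} {T : C} {E : Type u'} [Category.{v'} E] {F : C ⥤ E}

/-- All morphisms between two motives are decided by the endomorphisms of one section. -/
theorem fullOn_pair (hS : Enough S) (hC : Semisimple C) (hD : IsGraded D) (hT : IsTensor D T)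
    [D.L.Full] (A B : C) :
    ∃ (d m : ℕ) (M : Matrix (Fin m) (Fin m) (MvPolynomial (Fin d) k)), Good S M ∧
      ∀ {E : Type u'} [Category.{v'} E] (F : C ⥤ E), CommTwist F D.L →
        FullOn F (hSec D M) (hSec D M) → FullOn F A B := by
  obtain ⟨n, d, m, M, hM, h⟩ := summ_all hS hC hD hT (A ⊞ B)
  refine ⟨d, m, M, hM, fun {E} _ F hF hE => ?_⟩
  have h1 := fullOn_tw hF n (fullOn_ret h h hE)
  exact fullOn_ret ⟨biprod.inl, biprod.fst, biprod.inl_fst⟩ ⟨biprod.inr, biprod.snd, biprod.inr_snd⟩
    h1

/-- A functor is full if and only if it is full on the endomorphisms of single sections. -/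
theorem full_sec (hS : Enough S) (hC : Semisimple C) (hD : IsGraded D) (hT : IsTensor D T)
    [D.L.Full] (hF : CommTwist F D.L) :
    F.Full ↔ ∀ (d m : ℕ) (M : Matrix (Fin m) (Fin m) (MvPolynomial (Fin d) k)), Good S M →
      FullOn F (hSec D M) (hSec D M) := by
  constructor
  · intro h d m M _
    exact fullOn_of h _ _
  · intro h
    refine full_of fun A B => ?_
    obtain ⟨d, m, M, hM, h1⟩ := fullOn_pair.{v, u, v', u'} hS hC hD hT A B
    exact h1 F hF (h d m M hM)

end

section dim

variable {k : Type} [Field k] [PerfectField k] {S : Set k} {C : Type u} [Category.{v} C]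
  [Abelian C] {D : Graded k C} {R : C → Prop}

/-- Additive properties of motives, dimension by dimension, and linear sections. -/
theorem every_dim_sec (hS : Enough S) (hk : Resolution k) (hC : Semisimple C) (hD : IsGraded D)
    [D.L.IsEquivalence] (hR : Additive R) (h1 : Every D.L R D.one) (n : ℕ) :
    (∀ X : Sch k, SmProj X → topologicalKrullDim X.left ≤ n → ∀ i, Every D.L R (D.H X i i)) ↔
      ∀ (m : ℕ) (M : Matrix (Fin m) (Fin m) (MvPolynomial (Fin (n + 1)) k)), IsPat S M → Thin M →
        ∀ w j, Every D.L R (D.H (secGL M) w j) := by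
  have hQ := stable_every hC hR h1
  have hB := bnd_pieces hC hD hQ
  constructor
  · intro h m M hM hT
    exact thin_of_dim (S := S) hB (of_smproj hk hB n fun X hX hd =>
      (pieces_smproj hD hQ hX).mpr fun i => h X hX hd i) m M hM hT
  · intro h X hX hd i
    exact dim_of_thin hS hB (fun m M hM hT => h m M hM hT) X hX.ft hd i i

end dim

end Pool.Agent.Y456.LG
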