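import Pool.Agent.Y456.LG.Var
import Mathlib.RingTheory.Localization.FractionRing
import Mathlib.Algebra.Field.ZMod

/-!
# The field of rational functions over a prime field and its alphabet
-/

set_option autoImplicit false

open MvPolynomial

namespace Pool.Agent.Y456.LG

/-- The field `𝔽_p(t_1, …, t_n)` of rational functions. -/
abbrev RatF (p n : ℕ) [Fact p.Prime] : Type := FractionRing (MvPolynomial (Fin n) (ZMod p))

/-- The alphabet `{0, 1, t_1, …, t_n}` in the field `𝔽_p(t_1, …, t_n)`. -/
def letters (p n : ℕ) [Fact p.Prime] : Set (RatF p n) :=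
  {0, 1} ∪ Set.range fun i : Fin n => algebraMap (MvPolynomial (Fin n) (ZMod p)) (RatF p n) (X i)

lemma alphabet_letters (p n : ℕ) [Fact p.Prime] : Alphabet (letters p n) := by
  have h1 : ∀ g : MvPolynomial (Fin n) (ZMod p),
      algebraMap (MvPolynomial (Fin n) (ZMod p)) (RatF p n) g ∈
        Subring.closure (letters p n) := by
    intro g
    induction g using MvPolynomial.induction_on with
    | C a =>
      have h2 : (C a : MvPolynomial (Fin n) (ZMod p)) = ((a.val : ℕ) :
          MvPolynomial (Fin n) (ZMod p)) := by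
        conv_lhs => rw [← ZMod.natCast_zmod_val a]
        rw [map_natCast]
      rw [h2, map_natCast]
      exact natCast_mem _ _
    | add f g hf hg =>
      rw [map_add]
      exact Subring.add_mem _ hf hg
    | mul_X f i hf =>
      rw [map_mul]
      exact Subring.mul_mem _ hf (Subring.subset_closure (Or.inr ⟨i, rfl⟩))
  refine ⟨Or.inl (Or.inl rfl), Or.inl (Or.inr rfl), fun x => ?_⟩
  obtain ⟨a, b, hb, hx⟩ := IsFractionRing.div_surjective (A := MvPolynomial (Fin n) (ZMod p)) x
  have hb0 : algebraMap (MvPolynomial (Fin n) (ZMod p)) (RatF p n) b ≠ 0 := by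
    intro h
    exact nonZeroDivisors.ne_zero hb ((IsFractionRing.injective (MvPolynomial (Fin n) (ZMod p))
      (RatF p n)) (h.trans (map_zero _).symm))
  refine ⟨_, h1 a, _, h1 b, hb0, ?_⟩
  rw [← hx, mul_div_cancel₀ _ hb0]

end Pool.Agent.Y456.LG
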