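import Pool.Agent.Y456.LG.Defs

/-!
# From complements of hypersurfaces to closed subschemes
-/

set_option autoImplicit false

open CategoryTheory AlgebraicGeometry MvPolynomial

namespace Pool.Agent.Y456.LG

open Pool.Agent.Y116.UV

variable {R : Type} [CommRing R] {sep : Prop} {P : Sch R → Prop}

lemma iso_alg (hP : Dev sep P) {A B : Type} [CommRing A] [CommRing B] [Algebra R A] [Algebra R B]
    [Algebra.FiniteType R A] (e : A ≃ₐ[R] B) (h : P (aff R A)) : P (aff R B) :=
  hP.iso (ft_aff sep) ⟨(affIso e).symm⟩ h

lemma ft_away (A : Type) [CommRing A] [Algebra R A] [Algebra.FiniteType R A] (f : A) :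
    Algebra.FiniteType R (Localization.Away f) := by
  have h1 : Algebra.FiniteType A (Localization.Away f) := IsLocalization.finiteType_of_monoid_fg
    (Submonoid.powers f) (Localization.Away f)
  exact Algebra.FiniteType.trans (S := A) inferInstance h1

/-- Two localizations away from associated elements. -/
lemma away_iso {A S T : Type} [CommRing A] [CommRing S] [CommRing T] [Algebra R A] [Algebra A S]
    [Algebra A T] [Algebra R S] [Algebra R T] [IsScalarTower R A S] [IsScalarTower R A T] (f : A)
    [IsLocalization.Away f S] [IsLocalization.Away f T] : Nonempty (S ≃ₐ[R] T) :=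
  ⟨(IsLocalization.algEquiv (Submonoid.powers f) S T).restrictScalars R⟩

lemma closed_away (hP : Dev sep P) (A : Type) [CommRing A] [Algebra R A] [Algebra.FiniteType R A]
    (w : A) (h1 : P (aff R A)) (h2 : P (aff R (Localization.Away w))) :
    P (aff R (A ⧸ Ideal.span {w})) :=
  hP.closed _ _ (ft_aff sep) (triple_away w) h1 h2

lemma set_cons {A : Type} (f : A) (L : List A) : {x | x ∈ f :: L} = {f} ∪ {x | x ∈ L} := by
  ext x
  simp

/-- If the property holds for the complements of all products of sublists of a list of functions, it
holds for the closed subscheme defined by the list. -/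
theorem quot_of_list (hP : Dev sep P) (n : ℕ) :
    ∀ (A : Type) [CommRing A] [Algebra R A] [Algebra.FiniteType R A] (L : List A), L.length = n →
      (∀ M : List A, M.Sublist L → P (aff R (Localization.Away M.prod))) →
      P (aff R (A ⧸ Ideal.span {x | x ∈ L})) := by
  induction n with
  | zero =>
    intro A _ _ _ L hL h
    have h0 : L = [] := List.length_eq_zero_iff.mp hL
    subst h0
    have h1 := h [] (List.Sublist.refl _)
    have h2 : Ideal.span {x | x ∈ ([] : List A)} = ⊥ := by
      rw [Ideal.span_eq_bot]
      intro x hx
      simp at hx
    have h3 : P (aff R A) := by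
      have := ft_away (R := R) A (([] : List A).prod)
      have e : A ≃ₐ[A] Localization.Away (([] : List A).prod) :=
        IsLocalization.atUnit A _ (([] : List A).prod) (by rw [List.prod_nil]; exact isUnit_one)
      exact iso_alg hP (e.restrictScalars R).symm h1
    rw [h2]
    exact iso_alg hP (AlgEquiv.quotientBot R A).symm h3
  | succ n ih =>
    intro A _ _ _ L hL h
    obtain ⟨f, L, rfl⟩ : ∃ f L', L = f :: L' := by
      cases L with
      | nil => simp at hL
      | cons f L => exact ⟨f, L, rfl⟩
    have hL' : L.length = n := by simpa using hL
    let I : Ideal A := Ideal.span {x | x ∈ L}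
    have h1 : P (aff R (A ⧸ I)) := ih A L hL' fun M hM => h M (hM.trans (List.sublist_cons_self f L))
    let w : A ⧸ I := Ideal.Quotient.mk I f
    have hft := ft_away (R := R) A f
    have h2 : P (aff R (Localization.Away f ⧸
        Ideal.span {x | x ∈ L.map (algebraMap A (Localization.Away f))})) := by
      apply ih (Localization.Away f) (L.map (algebraMap A (Localization.Away f))) (by simpa using hL')
      intro M hM
      obtain ⟨M', hM', rfl⟩ := List.sublist_map_iff.mp hM
      have h3 := h (f :: M') (hM'.cons_cons f)
      rw [List.prod_cons] at h3
      rw [← map_list_prod]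
      have := ft_away (R := R) A (f * M'.prod)
      obtain ⟨e⟩ := away_iso (R := R) (f * M'.prod)
        (S := Localization.Away (f * M'.prod))
        (T := Localization.Away (algebraMap A (Localization.Away f) M'.prod))
      exact iso_alg hP e h3
    have h4 : Ideal.span {x | x ∈ L.map (algebraMap A (Localization.Away f))} =
        I.map (algebraMap A (Localization.Away f)) := by
      rw [Ideal.map_span]
      congr 1
      ext x
      simp
    rw [h4] at h2
    have h5 : P (aff R (Localization.Away w)) := by
      have hl : IsLocalization.Away w
          (Localization.Away f ⧸ I.map (algebraMap A (Localization.Away f))) := by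
        have h6 : IsLocalization (Algebra.algebraMapSubmonoid (A ⧸ I) (Submonoid.powers f))
          (Localization.Away f ⧸ I.map (algebraMap A (Localization.Away f))) := inferInstance
        have h7 : Algebra.algebraMapSubmonoid (A ⧸ I) (Submonoid.powers f) = Submonoid.powers w := by
          rw [Algebra.algebraMapSubmonoid, Submonoid.map_powers]
          rfl
        rw [h7] at h6
        exact h6
      have htw : IsScalarTower R (A ⧸ I)
          (Localization.Away f ⧸ I.map (algebraMap A (Localization.Away f))) := by
        refine IsScalarTower.of_algebraMap_eq fun r => ?_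
        change Ideal.Quotient.mk _ (algebraMap R (Localization.Away f) r) =
          Ideal.Quotient.mk _ (algebraMap A (Localization.Away f) (algebraMap R A r))
        rw [← IsScalarTower.algebraMap_apply R A (Localization.Away f)]
      obtain ⟨e⟩ := away_iso (R := R) w
        (S := Localization.Away f ⧸ I.map (algebraMap A (Localization.Away f)))
        (T := Localization.Away w)
      exact iso_alg hP e h2
    have h6 := closed_away hP (A ⧸ I) w h1 h5
    have h7 : Ideal.span {w} = (Ideal.span {f}).map (Ideal.Quotient.mkₐ R I) := by
      rw [Ideal.map_span, Set.image_singleton]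
      rfl
    rw [h7] at h6
    have e := DoubleQuot.quotQuotEquivQuotSupₐ R I (Ideal.span {f})
    have h8 : I ⊔ Ideal.span {f} = Ideal.span {x | x ∈ f :: L} := by
      rw [set_cons, Ideal.span_union, sup_comm]
    rw [h8] at e
    exact iso_alg hP e h6

end Pool.Agent.Y456.LG
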