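import Mathlib.CategoryTheory.Monoidal.NaturalTransformation
import Mathlib.CategoryTheory.Endomorphism
import Mathlib.CategoryTheory.Products.Basic
import Mathlib.Algebra.Group.Subgroup.Map

/-!
# Groups of tensor automorphisms of a fibre functor: definitions
-/

set_option autoImplicit false

open CategoryTheory MonoidalCategory

namespace Pool.Agent.Y456.LG

universe v u v' u'

variable {C : Type u} [Category.{v} C] {V : Type u'} [Category.{v'} V]

/-- The action of the automorphisms of the functor `ω` on the object `ω(N)`. -/
def actOn (ω : C ⥤ V) (N : C) : Aut ω →* Aut (ω.obj N) :=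
  Functor.mapAut ω ((evaluation C V).obj N)

/-- The image of a group of automorphisms of the functor `ω` in the group of automorphisms of the
object `ω(N)`. -/
def imOn {ω : C ⥤ V} (H : Subgroup (Aut ω)) (N : C) : Subgroup (Aut (ω.obj N)) :=
  H.map (actOn ω N)

/-- The elements of the group `H` are tensor automorphisms of `ω`: they are compatible with the unit
and with tensor products. -/
def Tensorial [MonoidalCategory C] [MonoidalCategory V] {ω : C ⥤ V} [ω.Monoidal]
    (H : Subgroup (Aut ω)) : Prop :=
  ∀ g ∈ H, NatTrans.IsMonoidal g.hom

end Pool.Agent.Y456.LG
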