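import Pool.Agent.Y456.LG.Summ
import Pool.Agent.Y456.LG.MtDefs

/-!
# Groups of tensor automorphisms and sparse linear sections of `GL_m`
-/

set_option autoImplicit false

open CategoryTheory CategoryTheory.Limits MonoidalCategory AlgebraicGeometry MvPolynomial
open scoped TensorProduct

namespace Pool.Agent.Y456.LG

open Pool.Agent.Y116.UV Pool.Agent.Y101.Th Pool.Agent.Y691.TU Pool.Agent.Z125.UN

universe v u v' u'

section mono

variable {C : Type u} [Category.{v} C] {V : Type u'} [Category.{v'} V]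

lemma triv_ret {ω : C ⥤ V} (g : ω ⟶ ω) {A B : C} (h : Ret A B) (hB : g.app B = 𝟙 _) :
    g.app A = 𝟙 _ := by
  obtain ⟨s, r, hs⟩ := h
  have h1 : g.app A ≫ ω.map s = ω.map s ≫ g.app B := (g.naturality s).symm
  calc g.app A = (g.app A ≫ ω.map s) ≫ ω.map r := by
        rw [Category.assoc, ← ω.map_comp, hs, ω.map_id, Category.comp_id]
    _ = 𝟙 _ := by rw [h1, hB, Category.comp_id, ← ω.map_comp, hs, ω.map_id]

/-- Cancellation of invertible objects. -/
lemma cancel_inv [MonoidalCategory V] {X P Q : V} (i : P ⊗ Q ≅ 𝟙_ V) (f : X ⟶ X)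
    (h : f ▷ P = 𝟙 _) : f = 𝟙 _ := by
  have h1 : f ▷ (P ⊗ Q) = 𝟙 _ := by
    rw [MonoidalCategory.whiskerRight_tensor, h, MonoidalCategory.id_whiskerRight,
      Category.id_comp, Iso.inv_hom_id]
  have h2 : f ▷ (𝟙_ V) = 𝟙 _ := by
    have h3 := MonoidalCategory.whisker_exchange f i.hom
    rw [h1, Category.id_comp] at h3
    have h4 : X ◁ i.hom ≫ f ▷ 𝟙_ V = X ◁ i.hom ≫ 𝟙 _ := by
      rw [h3, Category.comp_id]
    exact (cancel_epi _).mp h4
  rw [MonoidalCategory.whiskerRight_id] at h2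
  have h3 : (ρ_ X).inv ≫ ((ρ_ X).hom ≫ f ≫ (ρ_ X).inv) ≫ (ρ_ X).hom = 𝟙 _ := by
    rw [h2, Category.id_comp, Iso.inv_hom_id]
  simpa using h3

variable [MonoidalCategory C] [MonoidalCategory V]

/-- A tensor automorphism that is trivial on `A ⊗ B` and on the invertible object `B` is trivial on
`A`. -/
lemma triv_cancel {ω : C ⥤ V} [ω.Monoidal] (g : ω ⟶ ω) [NatTrans.IsMonoidal g] {A B B' : C}
    (i : B ⊗ B' ≅ 𝟙_ C) (hB : g.app B = 𝟙 _) (h : g.app (A ⊗ B) = 𝟙 _) : g.app A = 𝟙 _ := by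
  have h1 := NatTrans.IsMonoidal.tensor (τ := g) A B
  rw [h, hB, Category.comp_id, MonoidalCategory.tensorHom_id] at h1
  have h2 : g.app A ▷ ω.obj B = 𝟙 _ := by
    rw [← cancel_mono (Functor.LaxMonoidal.μ ω A B), Category.id_comp]
    exact h1.symm
  exact cancel_inv (Functor.Monoidal.μIso ω B B' ≪≫ ω.mapIso i ≪≫
    (Functor.Monoidal.εIso ω).symm) _ h2

omit [MonoidalCategory C] in
lemma ret_obj (L : C ⥤ C) {A B : C} (h : Ret A B) : Ret (L.obj A) (L.obj B) := by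
  obtain ⟨s, r, hs⟩ := h
  refine ⟨L.map s, L.map r, ?_⟩
  rw [← L.map_comp, hs, L.map_id]

omit [MonoidalCategory C] in
lemma ret_map {L : C ⥤ C} {A B : C} (h : Ret A B) (n : ℕ) :
    Ret (Pool.Agent.Y691.TU.tw L n A) (Pool.Agent.Y691.TU.tw L n B) := by
  induction n with
  | zero => exact h
  | succ n ih => exact ret_obj L ih

/-- Two groups of tensor automorphisms. -/
lemma imOn_le {ω : C ⥤ V} [ω.Monoidal] {H H' : Subgroup (Aut ω)} (h : Tensorial H)
    (h' : Tensorial H') {A N : C}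
    (hA : ∀ g : ω ⟶ ω, NatTrans.IsMonoidal g → g.app A = 𝟙 _ → g.app N = 𝟙 _)
    (hH : imOn H A ≤ imOn H' A) : imOn H N ≤ imOn H' N := by
  rintro _ ⟨x, hx, rfl⟩
  obtain ⟨y, hy, hxy⟩ := hH ⟨x, hx, rfl⟩
  have h1 : y.hom.app A = x.hom.app A := congrArg Iso.hom hxy
  have i1 := h x hx
  have i2 := h' y hy
  have h2 : (x.hom ≫ y.inv).app A = 𝟙 _ := by
    rw [NatTrans.comp_app, ← h1, ← NatTrans.comp_app, y.hom_inv_id]
    rfl
  have h3 := hA (x.hom ≫ y.inv) inferInstance h2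
  refine ⟨y, hy, ?_⟩
  refine Iso.ext ?_
  change y.hom.app N = x.hom.app N
  have h4 : x.hom.app N = ((x.hom ≫ y.inv) ≫ y.hom).app N := by
    rw [Category.assoc, y.inv_hom_id, Category.comp_id]
  rw [h4, NatTrans.comp_app, h3, Category.id_comp]

end mono

section

variable {k : Type} [Field k] {S : Set k} {C : Type u} [Category.{v} C] [Abelian C]
  [HasFiniteBiproducts C] [MonoidalCategory C] [MonoidalPreadditive C] [BraidedCategory C]
  {D : Graded k C} {T : C}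

lemma pow_inv (hT : IsTensor D T) (n : ℕ) :
    ∃ P Q : C, toSkeleton P = toSkeleton T ^ n ∧ Nonempty (P ⊗ Q ≅ 𝟙_ C) := by
  obtain ⟨T', ⟨iT⟩⟩ := hT.inverse
  have htt : toSkeleton T * toSkeleton T' = 1 := by
    rw [← Skeleton.toSkeleton_tensorObj, Skeleton.one_eq]
    exact congr_toSkeleton_of_iso iT
  obtain ⟨P, hP⟩ := Quotient.exists_rep (toSkeleton T ^ n)
  obtain ⟨Q, hQ⟩ := Quotient.exists_rep (toSkeleton T' ^ n)
  have hP' : toSkeleton P = toSkeleton T ^ n := hP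
  have hQ' : toSkeleton Q = toSkeleton T' ^ n := hQ
  refine ⟨P, Q, hP', ?_⟩
  rw [← toSkeleton_eq_toSkeleton_iff, Skeleton.toSkeleton_tensorObj, hP', hQ', ← mul_pow, htt,
    one_pow, Skeleton.one_eq]

/-- For every motive `N` there is a section such that all tensor automorphisms of all fibre functors
that are trivial on the motive of the section are trivial on `N`. -/
theorem triv_all (hS : Enough S) (hC : Semisimple C) (hD : IsGraded D) (hT : IsTensor D T)
    (N : C) :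
    ∃ (d m : ℕ) (M : Matrix (Fin m) (Fin m) (MvPolynomial (Fin d) k)), Good S M ∧
      (∃ n : ℕ, Ret (Pool.Agent.Y691.TU.tw D.L n N) (hSec D M)) ∧
      ∀ {V : Type u'} [Category.{v'} V] [MonoidalCategory V] (ω : C ⥤ V) [ω.Monoidal] (g : ω ⟶ ω),
        NatTrans.IsMonoidal g → g.app (hSec D M) = 𝟙 _ → g.app N = 𝟙 _ := by
  obtain ⟨n, d, m, M, hM, h⟩ := summ_all hS hC hD hT (N ⊞ 𝟙_ C)
  have h1 : Ret N (N ⊞ 𝟙_ C) := ⟨biprod.inl, biprod.fst, biprod.inl_fst⟩
  have h2 : Ret (𝟙_ C) (N ⊞ 𝟙_ C) := ⟨biprod.inr, biprod.snd, biprod.inr_snd⟩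
  refine ⟨d, m, M, hM, ⟨n, (ret_map h1 n).trans h⟩, fun ω _ g hg hgM => ?_⟩
  have h3 : g.app (Pool.Agent.Y691.TU.tw D.L n N) = 𝟙 _ :=
    triv_ret g ((ret_map h1 n).trans h) hgM
  have h4 : g.app (Pool.Agent.Y691.TU.tw D.L n (𝟙_ C)) = 𝟙 _ :=
    triv_ret g ((ret_map h2 n).trans h) hgM
  obtain ⟨P, Q, hP, ⟨i⟩⟩ := pow_inv hT n
  have h5 : g.app P = 𝟙 _ := by
    refine triv_ret g (of_rs ?_) h4
    rw [hP, sk_twA hT, ← Skeleton.one_eq, one_mul]
    exact rs_refl _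
  have h6 : g.app (N ⊗ P) = 𝟙 _ := by
    refine triv_ret g (of_rs ?_) h3
    rw [sk_twA hT, Skeleton.toSkeleton_tensorObj, hP]
    exact rs_refl _
  exact triv_cancel g i h5 h6

/-- Two groups of tensor automorphisms of a fibre functor have the same image in the automorphism group
of a motive if they have the same image for one section. -/
theorem groups_one (hS : Enough S) (hC : Semisimple C) (hD : IsGraded D) (hT : IsTensor D T)
    (N : C) :
    ∃ (d m : ℕ) (M : Matrix (Fin m) (Fin m) (MvPolynomial (Fin d) k)), Good S M ∧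
      (∃ n : ℕ, Ret (Pool.Agent.Y691.TU.tw D.L n N) (hSec D M)) ∧
      ∀ {V : Type u'} [Category.{v'} V] [MonoidalCategory V] (ω : C ⥤ V) [ω.Monoidal]
        (H H' : Subgroup (Aut ω)), Tensorial H → Tensorial H' →
        (imOn H (hSec D M) ≤ imOn H' (hSec D M) → imOn H N ≤ imOn H' N) ∧
        (imOn H (hSec D M) = imOn H' (hSec D M) → imOn H N = imOn H' N) := by
  obtain ⟨d, m, M, hM, hr, h⟩ := triv_all.{v, u, v', u'} hS hC hD hT N
  refine ⟨d, m, M, hM, hr, fun ω _ H H' h1 h2 => ?_⟩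
  have h3 : imOn H (hSec D M) ≤ imOn H' (hSec D M) → imOn H N ≤ imOn H' N :=
    imOn_le h1 h2 (fun g hg => h ω g hg)
  have h4 : imOn H' (hSec D M) ≤ imOn H (hSec D M) → imOn H' N ≤ imOn H N :=
    imOn_le h2 h1 (fun g hg => h ω g hg)
  exact ⟨h3, fun e => le_antisymm (h3 e.le) (h4 e.ge)⟩

end

end Pool.Agent.Y456.LG
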