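import Pool.Agent.Y456.LG.Alph
import Mathlib.CategoryTheory.Abelian.Basic
import Mathlib.CategoryTheory.Simple

/-!
# Irreducible subquotients of cohomology groups and sparse linear sections of `GL_m`
-/

set_option autoImplicit false

open CategoryTheory CategoryTheory.Limits AlgebraicGeometry MvPolynomial

namespace Pool.Agent.Y456.LG

open Pool.Agent.Y116.UV Pool.Agent.Z125.UN

universe v u

section abelian

variable {A : Type u} [Category.{v} A]

lemma Subq.refl (R : A) : Subq R R := ⟨R, 𝟙 R, 𝟙 R, inferInstance, inferInstance⟩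

lemma Subq.iso {R B B' : A} (h : Subq R B) (e : B ≅ B') : Subq R B' := by
  obtain ⟨E, i, p, h1, h2⟩ := h
  exact ⟨E, i ≫ e.hom, p, mono_comp _ _, h2⟩

/-- An irreducible subquotient of the middle term is a subquotient of one of the outer terms. -/
theorem subq_mid [Abelian A] {R : A} [Simple R] {X B Y : A} {f : X ⟶ B} {g : B ⟶ Y}
    (h : Pool.Agent.Y691.TU.ExactAt f g) (hR : Subq R B) : Subq R X ∨ Subq R Y := by
  obtain ⟨E, i, p, hi, hp⟩ := hR
  obtain ⟨hfg, hex⟩ := h
  let q : pullback i f ⟶ R := pullback.fst i f ≫ p
  by_cases hq : q = 0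
  · right
    let u : E ⟶ Y := i ≫ g
    -- the kernel of `u`
    have hK : kernel.ι u ≫ p = 0 := by
      -- lift to the kernel of `g`
      have h1 : (kernel.ι u ≫ i) ≫ g = 0 := by
        rw [Category.assoc]
        exact kernel.condition u
      have hepi : Epi (kernel.lift g f hfg) := by
        rw [ShortComplex.exact_iff_epi_kernel_lift] at hex
        exact hex
      let l : kernel u ⟶ kernel g := kernel.lift g (kernel.ι u ≫ i) h1
      let P := pullback l (kernel.lift g f hfg)
      have hP : Epi (pullback.fst l (kernel.lift g f hfg)) := inferInstance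
      rw [← cancel_epi (pullback.fst l (kernel.lift g f hfg)), comp_zero]
      have h2 : (pullback.fst l (kernel.lift g f hfg) ≫ kernel.ι u) ≫ i =
          pullback.snd l (kernel.lift g f hfg) ≫ f := by
        have h3 := pullback.condition (f := l) (g := kernel.lift g f hfg)
        have h4 := congrArg (· ≫ kernel.ι g) h3
        simp only [Category.assoc, l, kernel.lift_ι] at h4
        rw [Category.assoc]
        exact h4
      have h5 : pullback.fst l (kernel.lift g f hfg) ≫ kernel.ι u =
          pullback.lift _ _ h2 ≫ pullback.fst i f := (pullback.lift_fst _ _ h2).symm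
      rw [← Category.assoc, h5, Category.assoc]
      change _ ≫ q = 0
      rw [hq, comp_zero]
    have hK' : kernel.ι (factorThruImage u) ≫ p = 0 := by
      have h1 : kernel.ι (factorThruImage u) ≫ u = 0 := by
        have h0 : kernel.ι (factorThruImage u) ≫ u =
            (kernel.ι (factorThruImage u) ≫ factorThruImage u) ≫ image.ι u := by
          rw [Category.assoc, image.fac]
        rw [h0, kernel.condition, zero_comp]
      have h2 : kernel.ι (factorThruImage u) = kernel.lift u _ h1 ≫ kernel.ι u :=
        (kernel.lift_ι u _ h1).symm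
      rw [h2, Category.assoc, hK, comp_zero]
    refine ⟨image u, image.ι u, Abelian.epiDesc (factorThruImage u) p hK', inferInstance, ?_⟩
    have h1 := Abelian.comp_epiDesc (factorThruImage u) p hK'
    have : Epi (factorThruImage u ≫ Abelian.epiDesc (factorThruImage u) p hK') := by
      rw [h1]
      exact hp
    exact epi_of_epi (factorThruImage u) _
  · left
    refine ⟨pullback i f, pullback.snd i f, q, inferInstance, ?_⟩
    exact epi_of_nonzero_to_simple hq

end abelian

section occ

variable {k : Type} [Field k] {S : Set k} {A : Type u} [Category.{v} A] [Abelian A]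
  {H : Sch k → ℤ → A}

/-- `R` occurs in the cohomology of the scheme `X`. -/
def Occ (H : Sch k → ℤ → A) (R : A) (X : Sch k) : Prop := ∃ j, Subq R (H X j)

lemma dev_occ (hH : IsCoh H) (R : A) [Simple R] (Q : Prop) :
    Dev True fun X => Occ H R X → Q where
  iso := by
    rintro X Y hX e h ⟨j, hj⟩
    obtain ⟨i⟩ := hH.iso hX e j
    exact h ⟨j, hj.iso i.symm⟩
  total := by
    rintro Z X U i j hX ht hZ hU ⟨n, hn⟩
    obtain ⟨a, b, d, h⟩ := hH.localization i j hX ht
    rcases subq_mid (h n).1 hn with h1 | h1
    · exact hU ⟨n, h1⟩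
    · exact hZ ⟨n, h1⟩
  closed := by
    rintro Z X U i j hX ht hX' hU ⟨n, hn⟩
    obtain ⟨a, b, d, h⟩ := hH.localization i j hX ht
    rcases subq_mid (h n).2.1 hn with h1 | h1
    · exact hX' ⟨n, h1⟩
    · exact hU ⟨n + 1, h1⟩

/-- Every irreducible subquotient of the cohomology of a scheme of finite type is a subquotient of the
cohomology of one sparse linear section of `GL_m`. -/
theorem occ_all (hS : Alphabet S) (hH : IsCoh H) {R : A} [Simple R] {X : Sch k}
    (hX : FT True X) (h : Occ H R X) :
    ∃ (d m : ℕ) (M : Matrix (Fin m) (Fin m) (MvPolynomial (Fin d) k)), IsPat S M ∧ Thin M ∧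
      Occ H R (secGL M) := by
  refine alph_all hS (dev_occ hH R (∃ (d m : ℕ)
    (M : Matrix (Fin m) (Fin m) (MvPolynomial (Fin d) k)), IsPat S M ∧ Thin M ∧
      Occ H R (secGL M))) ?_ X hX h
  intro d m M hM hT h
  exact ⟨d, m, M, hM, hT, h⟩

lemma alphabet_univ : Alphabet (Set.univ : Set k) :=
  ⟨trivial, trivial, fun x => ⟨x, by rw [Subring.closure_univ]; trivial, 1, Subring.one_mem _,
    one_ne_zero, one_mul x⟩⟩

end occ

end Pool.Agent.Y456.LG
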