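import Pool.Agent.Y111.HR.Main
import Pool.Agent.Y456.LG.Dim

/-!
# The formula for the order of the zeta function at one integer
-/

set_option autoImplicit false

open CategoryTheory AlgebraicGeometry MvPolynomial

namespace Pool.Agent.Y456.LG

open Pool.Agent.Y116.UV Pool.Agent.Y111.HR

/-- The formula for `X` and the integer `n`: the zeta function of `X` has a meromorphic continuation
`F` to `ℂ`, the ranks of the groups `CH_n(X, i)` are finite and almost all of them are zero, and the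
order of the pole of `F` at `s = n` is the alternating sum of the ranks. -/
def FormulaAt (T : HigherChow) (n : ℤ) (X : Sch ℤ) : Prop :=
  (∀ i, FiniteDimensional ℚ (T.M X i n)) ∧
  (∃ B : ℕ, ∀ i, B ≤ i → Subsingleton (T.M X i n)) ∧
  ∃ F : ℂ → ℂ, IsZeta X.left F ∧ -meromorphicOrderAt F (n : ℂ) = (eulerChar T X n : WithTop ℤ)

/-- Known properties of the higher Chow groups of schemes of finite type over `ℤ`, separated ones if
`sep` is true: isomorphic schemes have isomorphic groups, the localisation sequences are exact (Bloch,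
Levine), and `CH_(n+1)(X × 𝔸¹, i) = CH_n(X, i)` for affine `X`. -/
structure IsChow (sep : Prop) (T : HigherChow) : Prop where
  iso : IsoInvariance sep T
  localization : Localization sep T
  line : ∀ (A : Type) [CommRing A] [Algebra ℤ A] [Algebra.FiniteType ℤ A] (i : ℕ) (n : ℤ),
    Nonempty (T.M (aff ℤ A) i n ≃ₗ[ℚ] T.M (aff ℤ (Polynomial A)) i (n + 1))

variable {S : Type}

/-- the order at one integer -/
def OrdAt (N : S → ℕ) (n a : ℤ) : Prop := ∃ e : ℤ → ℤ, OrdM N e ∧ e n = a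

lemma ordAt_of {N : S → ℕ} {g : ℕ} (hN : Adm N g) {F : ℂ → ℂ} (hF : MeromorphicOn F Set.univ)
    {σ : ℝ} (hs : ∀ s : ℂ, σ < s.re → F s = eulerP N s) {n a : ℤ}
    (h : meromorphicOrderAt F (n : ℂ) = ((a : ℤ) : WithTop ℤ)) : OrdAt N n a := by
  have hne := order_ne_top hN hF σ hs
  choose e he using fun n : ℤ => WithTop.ne_top_iff_exists.mp (hne (n : ℂ))
  refine ⟨e, ⟨F, hF, ⟨σ, hs⟩, fun n => (he n).symm⟩, ?_⟩
  have h1 := he n
  rw [h] at h1
  exact WithTop.coe_injective h1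

variable {sep : Prop} {T : HigherChow} {n : ℤ}

lemma formulaAt_iff {X : Sch ℤ} (hX : ∃ g, Adm (nrm X.left) g) : FormulaAt T n X ↔
    (∀ i, FiniteDimensional ℚ (T.M X i n)) ∧ (Bdd fun i => T.M X i n) ∧
    OrdAt (nrm X.left) n (-ch T X n) := by
  obtain ⟨g, hg⟩ := hX
  constructor
  · rintro ⟨h1, h2, F, ⟨hF, σ, hs⟩, ho⟩
    exact ⟨h1, h2, ordAt_of hg hF hs (neg_top_ne ho)⟩
  · rintro ⟨h1, h2, e, ⟨F, hF, hs, ho⟩, he⟩
    refine ⟨h1, h2, F, ⟨hF, hs⟩, ?_⟩
    rw [ho n, he, neg_coe, neg_neg]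
    rfl

lemma at_iso (hT : IsChow sep T) {X Y : Sch ℤ} (hX : FT sep X) (e : Nonempty (X ≅ Y))
    (h : FormulaAt T n X) : FormulaAt T n Y := by
  obtain ⟨g, hg⟩ := adm_all X (ft_false hX)
  have hi := hT.iso hX e
  obtain ⟨e⟩ := e
  obtain ⟨e'⟩ := leftIso e
  rw [formulaAt_iff ⟨g, hg⟩] at h
  rw [formulaAt_iff ⟨g, hg.equiv (ptsIso e') (nrm_ptsIso e')⟩]
  obtain ⟨h1, h2, f, h3, h4⟩ := h
  refine ⟨fun i => ?_, ?_, f, h3.equiv (ptsIso e') (nrm_ptsIso e'), ?_⟩
  · obtain ⟨e⟩ := hi i n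
    have := h1 i
    exact e.finiteDimensional
  · obtain ⟨B, hB⟩ := h2
    refine ⟨B, fun i hi' => ?_⟩
    obtain ⟨e⟩ := hi i n
    have := hB i hi'
    exact e.symm.toEquiv.subsingleton
  · rw [h4, ch, ch, chi_congr fun i => hi i n]

lemma ch_add' {Z X U : Sch ℤ} (h : ∃ f g d, IsSequence T Z X U n f g d)
    (hZ : ∀ i, FiniteDimensional ℚ (T.M Z i n)) (hX : ∀ i, FiniteDimensional ℚ (T.M X i n))
    (hU : ∀ i, FiniteDimensional ℚ (T.M U i n)) (bZ : Bdd fun i => T.M Z i n)
    (bX : Bdd fun i => T.M X i n) (bU : Bdd fun i => T.M U i n) :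
    ch T X n = ch T Z n + ch T U n := by
  obtain ⟨f, g, d, h1, h2⟩ := h
  exact chi_add h1 h2 hZ hX hU bZ bX bU

lemma at_total (hT : IsChow sep T) {Z X U : Sch ℤ} (a : Z ⟶ X) (b : U ⟶ X) (hX : FT sep X)
    (ht : IsTriple a b) (hZ : FormulaAt T n Z) (hU : FormulaAt T n U) : FormulaAt T n X := by
  obtain ⟨g, hg, hg'⟩ := adm_triple (ft_false hX) ht
  rw [formulaAt_iff ⟨g, hg⟩] at hZ
  rw [formulaAt_iff ⟨g, hg'⟩] at hU
  rw [formulaAt_iff (adm_all X (ft_false hX))]
  obtain ⟨z1, z2, ez, z3, z4⟩ := hZ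
  obtain ⟨u1, u2, eu, u3, u4⟩ := hU
  have hs := hT.localization a b hX ht n
  have x1 : ∀ i, FiniteDimensional ℚ (T.M X i n) := by
    intro i
    obtain ⟨f, g, d, h1, h2⟩ := hs
    exact fin_X h1 z1 u1 i
  have x2 : Bdd fun i => T.M X i n := by
    obtain ⟨f, g, d, h1, h2⟩ := hs
    exact bdd_X h1 z2 u2
  refine ⟨x1, x2, _, (z3.sum hg hg' u3).equiv (ptsTriple (ft_false hX) ht)
    (nrm_ptsTriple (ft_false hX) ht), ?_⟩
  rw [ch_add' hs z1 x1 u1 z2 x2 u2, z4, u4]
  ring

lemma at_closed (hT : IsChow sep T) {Z X U : Sch ℤ} (a : Z ⟶ X) (b : U ⟶ X) (hX : FT sep X)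
    (ht : IsTriple a b) (hX' : FormulaAt T n X) (hU : FormulaAt T n U) : FormulaAt T n Z := by
  obtain ⟨g, hg, hg'⟩ := adm_triple (ft_false hX) ht
  rw [formulaAt_iff ⟨g, hg'⟩] at hU
  rw [formulaAt_iff (adm_all X (ft_false hX))] at hX'
  rw [formulaAt_iff ⟨g, hg⟩]
  obtain ⟨u1, u2, eu, u3, u4⟩ := hU
  obtain ⟨x1, x2, ex, x3, x4⟩ := hX'
  have hs := hT.localization a b hX ht n
  have z1 : ∀ i, FiniteDimensional ℚ (T.M Z i n) := by
    intro i
    obtain ⟨f, g, d, h1, h2⟩ := hs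
    exact fin_Z h1 x1 u1 i
  have z2 : Bdd fun i => T.M Z i n := by
    obtain ⟨f, g, d, h1, h2⟩ := hs
    exact bdd_Z h1 x2 u2
  refine ⟨z1, z2, _, OrdM.left hg hg' (x3.equiv (ptsTriple (ft_false hX) ht).symm
    (nrm_ptsTriple' (ft_false hX) ht)) u3, ?_⟩
  rw [x4, u4, ch_add' hs z1 x1 u1 z2 x2 u2]
  ring

lemma at_opened (hT : IsChow sep T) {Z X U : Sch ℤ} (a : Z ⟶ X) (b : U ⟶ X) (hX : FT sep X)
    (ht : IsTriple a b) (hZ : FormulaAt T n Z) (hX' : FormulaAt T n X) : FormulaAt T n U := by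
  obtain ⟨g, hg, hg'⟩ := adm_triple (ft_false hX) ht
  rw [formulaAt_iff ⟨g, hg⟩] at hZ
  rw [formulaAt_iff (adm_all X (ft_false hX))] at hX'
  rw [formulaAt_iff ⟨g, hg'⟩]
  obtain ⟨z1, z2, ez, z3, z4⟩ := hZ
  obtain ⟨x1, x2, ex, x3, x4⟩ := hX'
  have hs := hT.localization a b hX ht n
  have u1 : ∀ i, FiniteDimensional ℚ (T.M U i n) := by
    intro i
    obtain ⟨f, g, d, h1, h2⟩ := hs
    exact fin_U h1 h2 z1 x1 i
  have u2 : Bdd fun i => T.M U i n := by
    obtain ⟨f, g, d, h1, h2⟩ := hs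
    exact bdd_U h1 z2 x2
  refine ⟨u1, u2, _, OrdM.right hg hg' (x3.equiv (ptsTriple (ft_false hX) ht).symm
    (nrm_ptsTriple' (ft_false hX) ht)) z3, ?_⟩
  rw [x4, z4, ch_add' hs z1 x1 u1 z2 x2 u2]
  ring

/-- The formula at one integer is closed under dévissage. -/
theorem dev_formulaAt (hT : IsChow sep T) (n : ℤ) : Dev sep (FormulaAt T n) where
  iso hX e h := at_iso hT hX e h
  total a b hX ht hZ hU := at_total hT a b hX ht hZ hU
  closed a b hX ht hX' hU := at_closed hT a b hX ht hX' hU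

/-- points of `X × 𝔸¹` -/
theorem card_line (F : Type) [Field F] [Finite F] (A : Type) [CommRing A] :
    Nat.card (hm (Set.univ : Set (Ideal (Polynomial A))) F) =
      Nat.card F * Nat.card (hm (Set.univ : Set (Ideal A)) F) := by
  rw [card_hm_univ, card_hm_univ, mul_comm, ← Nat.card_prod]
  refine Nat.card_congr ?_
  exact
    { toFun := fun φ => (φ.comp Polynomial.C, φ Polynomial.X)
      invFun := fun p => Polynomial.eval₂RingHom p.1 p.2
      left_inv := fun φ => Polynomial.ringHom_ext (fun a => by simp) (by simp)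
      right_inv := fun p => by
        refine Prod.ext (RingHom.ext fun a => ?_) ?_
        · simp
        · simp }

/-- from `X × 𝔸¹` to `X` -/
lemma at_line (hT : IsChow sep T) (A : Type) [CommRing A] [Algebra ℤ A]
    [hA : Algebra.FiniteType ℤ A] (h : FormulaAt T (n + 1) (aff ℤ (Polynomial A))) :
    FormulaAt T n (aff ℤ A) := by
  have hA' : Algebra.FiniteType ℤ (Polynomial A) := Algebra.FiniteType.trans (S := A) hA inferInstance
  rw [formulaAt_iff (adm_all _ (ft_aff False))] at h ⊢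
  obtain ⟨h1, h2, e', h3, h4⟩ := h
  have hi := hT.line A
  have e1 := ftz hA'
  have e2 := ftz hA
  obtain ⟨g, hg⟩ := exists_adm (Set.univ : Set (Ideal A))
  obtain ⟨g', hg'⟩ := exists_adm (Set.univ : Set (Ideal (Polynomial A)))
  have h5 := ((ord_aff _).mp h3).shift hg hg' 1 (co_compare _ _ (fun q => (q : ℂ) ^ 1) (by
    intro F _ _
    rw [card_line]
    push_cast
    ring))
  refine ⟨fun i => ?_, ?_, _, (ord_aff _).mpr h5, ?_⟩
  · obtain ⟨e⟩ := hi i n
    have := h1 i
    exact e.symm.finiteDimensional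
  · obtain ⟨B, hB⟩ := h2
    refine ⟨B, fun i hi' => ?_⟩
    obtain ⟨e⟩ := hi i n
    have := hB i hi'
    exact e.toEquiv.subsingleton
  · change e' (n + ((1 : ℕ) : ℤ)) = _
    rw [Nat.cast_one, h4, ch, ch, chi_congr fun i => hi i n]

lemma ft_sec {R : Type} [CommRing R] {m N : ℕ}
    (M : Matrix (Fin m) (Fin m) (MvPolynomial (Fin N) R)) : FT sep (secGL M) := by
  have := ft_away (R := R) (MvPolynomial (Fin N) R) M.det
  exact ft_aff sep

/-- The formula at `s = n` is true for the linear sections of `GL_m` in `d` variables. -/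
def ForSections (T : HigherChow) (n : ℤ) (d : ℕ) : Prop :=
  ∀ (m : ℕ) (M : Matrix (Fin m) (Fin m) (MvPolynomial (Fin d) ℤ)), IsPattern M →
    FormulaAt T n (secGL M)

/-- The formula at `s = n` is true for the spectra of all rings generated by `d` elements, that is for
all closed subschemes of the affine space of dimension `d` over `ℤ`. -/
def ForRings (T : HigherChow) (n : ℤ) (d : ℕ) : Prop :=
  ∀ (A : Type) [CommRing A] [Algebra ℤ A] (a : Fin d → A),
    Function.Surjective (MvPolynomial.aeval (R := ℤ) a) → FormulaAt T n (aff ℤ A)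

lemma hz : Function.Surjective (Int.cast : ℤ → ℤ) := fun n => ⟨n, Int.cast_id⟩

/-- Reduction to the linear sections of `GL_m`, at each integer and in each dimension. -/
theorem rings_iff (hT : IsChow sep T) (n : ℤ) (d : ℕ) : ForRings T n d ↔ ForSections T n d := by
  constructor
  · intro h m M _
    refine away_of (sep := sep) (P := FormulaAt T n) (fun hX e h => at_iso hT hX e h)
      (fun a b hX ht hZ hX' => at_opened hT a b hX ht hZ hX') ?_ M.det
    intro A _ _ φ hφ
    refine h A (φ ∘ X) ?_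
    rw [← MvPolynomial.aeval_unique φ]
    exact hφ
  · intro h A _ _ a ha
    exact of_gen hz (dev_formulaAt hT n) h A _ ha

/-- The formula at `s = n` in `d + k` variables implies the formula at `s = n - k` in `d` variables. -/
theorem rings_shift (hT : IsChow sep T) (k : ℕ) : ∀ (n : ℤ) (d : ℕ), ForRings T n (d + k) →
    ForRings T (n - k) d := by
  induction k with
  | zero =>
    intro n d h
    rw [Nat.cast_zero, sub_zero]
    exact h
  | succ k ih =>
    intro n d h A _ _ a ha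
    have hft : Algebra.FiniteType ℤ A := Algebra.FiniteType.of_surjective (aeval a) ha
    apply at_line hT A
    have h1 : n - ((k + 1 : ℕ) : ℤ) + 1 = n - k := by push_cast; ring
    rw [h1]
    obtain ⟨ψ, hψ⟩ := poly_surj (aeval a) ha
    have h2 : ForRings T n (d + 1 + k) := by
      have h3 : d + 1 + k = d + (k + 1) := by ring
      rw [h3]
      exact h
    refine ih n (d + 1) h2 (Polynomial A) (ψ ∘ X) ?_
    rw [← MvPolynomial.aeval_unique ψ]
    exact hψ

/-- All schemes of finite type. -/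
theorem all_iff (hT : IsChow sep T) (n : ℤ) :
    (∀ X : Sch ℤ, FT sep X → FormulaAt T n X) ↔ ∀ d, ForSections T n d :=
  ⟨fun h _ _ M _ => h (secGL M) (ft_sec M),
    fun h X hX => universal hz (dev_formulaAt hT n) (fun d m M hM => h d m M hM) X hX⟩

end Pool.Agent.Y456.LG
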