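import Pool.Agent.Y456.LG.List

/-!
# Linear sections of `GL_m` with coefficients in a set `S`
-/

set_option autoImplicit false

open CategoryTheory AlgebraicGeometry MvPolynomial

namespace Pool.Agent.Y456.LG

open Pool.Agent.Y116.UV

variable {R : Type} [CommRing R]

/-- A square matrix of polynomials is a pattern with constants in `S` if each of its entries is a
constant in `S` or a variable, and each variable occurs in it. The matrices `M(x)` form an affine linear
subspace of the space of `m × m` matrices. -/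
structure IsPat (S : Set R) {m N : ℕ}
    (M : Matrix (Fin m) (Fin m) (MvPolynomial (Fin N) R)) : Prop where
  entry : ∀ i j, (∃ c ∈ S, M i j = C c) ∨ ∃ k, M i j = X k
  occurs : ∀ k, ∃ i j, M i j = X k

/-- a constant in `S` or a variable -/
def IsC (S : Set R) {V : Type} (x : MvPolynomial V R) : Prop := (∃ c ∈ S, x = C c) ∨ ∃ k, x = X k

variable {S : Set R} {V : Type}

lemma isC_zero (h0 : 0 ∈ S) : IsC S (0 : MvPolynomial V R) := Or.inl ⟨0, h0, (map_zero _).symm⟩

lemma isC_one (h1 : 1 ∈ S) : IsC S (1 : MvPolynomial V R) := Or.inl ⟨1, h1, (map_one _).symm⟩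

lemma isC_X (k : V) : IsC S (X k : MvPolynomial V R) := Or.inr ⟨k, rfl⟩

/-- `g = a C⁻¹ b` for a row `a`, a matrix `C` of determinant `1` and a column `b` whose entries are
constants in `S` or variables -/
def RepS (S : Set R) (g : MvPolynomial V R) : Prop :=
  ∃ (ι : Type) (_ : Fintype ι) (_ : DecidableEq ι) (a b : ι → MvPolynomial V R)
    (C Ci : Matrix ι ι (MvPolynomial V R)), (∀ i, IsC S (a i)) ∧ (∀ i, IsC S (b i)) ∧
    (∀ i j, IsC S (C i j)) ∧ C * Ci = 1 ∧ C.det = 1 ∧ g = a ⬝ᵥ (Matrix.mulVec Ci b)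

lemma reps_one (h1 : 1 ∈ S) : RepS S (1 : MvPolynomial V R) := by
  refine ⟨Unit, inferInstance, inferInstance, fun _ => 1, fun _ => 1, 1, 1, fun _ => isC_one h1,
    fun _ => isC_one h1, fun _ _ => ?_, mul_one _, Matrix.det_one, ?_⟩
  · rw [Matrix.one_apply, if_pos rfl]
    exact isC_one h1
  · rw [Matrix.one_mulVec, dotProduct]
    simp

lemma reps_add (h0 : 0 ∈ S) {g h : MvPolynomial V R} (hg : RepS S g) (hh : RepS S h) :
    RepS S (g + h) := by
  obtain ⟨ι, _, _, a, b, C, Ci, ha, hb, hC, h1, h2, rfl⟩ := hg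
  obtain ⟨ι', _, _, a', b', C', Ci', ha', hb', hC', h1', h2', rfl⟩ := hh
  refine ⟨ι ⊕ ι', inferInstance, inferInstance, Sum.elim a a', Sum.elim b b',
    Matrix.fromBlocks C 0 0 C', Matrix.fromBlocks Ci 0 0 Ci', ?_, ?_, ?_, ?_, ?_, ?_⟩
  · rintro (i | i)
    · exact ha i
    · exact ha' i
  · rintro (i | i)
    · exact hb i
    · exact hb' i
  · rintro (i | i) (j | j)
    · exact hC i j
    · exact isC_zero h0
    · exact isC_zero h0
    · exact hC' i j
  · simp only [Matrix.fromBlocks_multiply, h1, h1', Matrix.mul_zero, Matrix.zero_mul, add_zero,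
      zero_add, Matrix.fromBlocks_one]
  · rw [Matrix.det_fromBlocks_zero₂₁, h2, h2', mul_one]
  · rw [Matrix.fromBlocks_mulVec, Matrix.zero_mulVec, Matrix.zero_mulVec, add_zero, zero_add,
      sumElim_dotProduct_sumElim]
    rfl

lemma reps_step (h0 : 0 ∈ S) (h1 : 1 ∈ S) {g x : MvPolynomial V R} (hx : IsC S x)
    (hg : RepS S g) : RepS S (-(x * g)) := by
  obtain ⟨ι, _, _, a, b, C, Ci, ha, hb, hC, h3, h2, rfl⟩ := hg
  let A : Matrix Unit ι (MvPolynomial V R) := Matrix.of fun _ i => a i
  refine ⟨Unit ⊕ ι, inferInstance, inferInstance, Sum.elim (fun _ => x) 0, Sum.elim 0 b,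
    Matrix.fromBlocks 1 A 0 C, Matrix.fromBlocks 1 (-(A * Ci)) 0 Ci, ?_, ?_, ?_, ?_, ?_, ?_⟩
  · rintro (i | i)
    · exact hx
    · exact isC_zero h0
  · rintro (i | i)
    · exact isC_zero h0
    · exact hb i
  · rintro (i | i) (j | j)
    · change IsC S ((1 : Matrix Unit Unit (MvPolynomial V R)) i j)
      rw [Matrix.one_apply, if_pos rfl]
      exact isC_one h1
    · exact ha j
    · exact isC_zero h0
    · exact hC i j
  · rw [Matrix.fromBlocks_multiply, h3, Matrix.mul_zero, Matrix.mul_zero, Matrix.zero_mul,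
      Matrix.zero_mul, Matrix.one_mul, Matrix.one_mul, add_zero, add_zero, zero_add,
      neg_add_cancel, Matrix.fromBlocks_one]
  · rw [Matrix.det_fromBlocks_zero₂₁, h2, Matrix.det_one, mul_one]
  · rw [Matrix.fromBlocks_mulVec, Matrix.zero_mulVec, zero_add, sumElim_dotProduct_sumElim,
      zero_dotProduct, add_zero, Matrix.neg_mulVec, ← Matrix.mulVec_mulVec]
    simp only [dotProduct, Finset.univ_unique, Finset.sum_singleton, Pi.add_apply, Pi.neg_apply]
    have h4 : (Matrix.mulVec (1 : Matrix Unit Unit (MvPolynomial V R))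
        (Sum.elim (0 : Unit → MvPolynomial V R) b ∘ Sum.inl)) default = 0 := by
      rw [Matrix.one_mulVec]
      rfl
    rw [h4, zero_add, mul_neg]
    rfl

lemma reps_neg (h0 : 0 ∈ S) (h1 : 1 ∈ S) {g : MvPolynomial V R} (hg : RepS S g) : RepS S (-g) := by
  have h := reps_step h0 h1 (isC_one (V := V) h1) hg
  rwa [one_mul] at h

/-- All polynomials, if the elements of `R` are sums of elements of `S` and their negatives. -/
theorem reps_all (h0 : 0 ∈ S) (h1 : 1 ∈ S) (hS : AddSubgroup.closure S = ⊤)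
    (g : MvPolynomial V R) : RepS S g := by
  induction g using MvPolynomial.induction_on with
  | C r =>
    have hr : r ∈ AddSubgroup.closure S := by
      rw [hS]
      trivial
    induction hr using AddSubgroup.closure_induction with
    | mem c hc =>
      have h := reps_neg h0 h1 (reps_step h0 h1 (Or.inl ⟨c, hc, rfl⟩ : IsC S (C c : MvPolynomial V R))
        (reps_one h1))
      rwa [neg_neg, mul_one] at h
    | zero =>
      have h := reps_step h0 h1 (isC_zero (V := V) h0) (reps_one h1)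
      rw [zero_mul, neg_zero] at h
      rwa [map_zero]
    | add a b _ _ ha hb =>
      rw [map_add]
      exact reps_add h0 ha hb
    | neg a _ ha =>
      rw [map_neg]
      exact reps_neg h0 h1 ha
  | add p q hp hq => exact reps_add h0 hp hq
  | mul_X p k hp =>
    have h := reps_neg h0 h1 (reps_step h0 h1 (isC_X k) hp)
    rwa [neg_neg, mul_comm] at h

/-- the unipotent matrix -/
noncomputable def unip {B : Type} [CommRing B] (x : B) : Matrix (Fin 2) (Fin 2) B := !![1, x; 0, 1]

lemma det_unip {B : Type} [CommRing B] (x : B) : (unip x).det = 1 := by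
  rw [unip, Matrix.det_fin_two_of]
  ring

/-- Valiant's theorem: `-g` is the determinant of a matrix whose entries are constants in `S` or
variables and in which all variables occur. -/
theorem pat_of_rep (h0 : 0 ∈ S) (h1 : 1 ∈ S) {d : ℕ} {g : MvPolynomial (Fin d) R}
    (hg : RepS S g) :
    ∃ (m : ℕ) (M : Matrix (Fin m) (Fin m) (MvPolynomial (Fin d) R)), IsPat S M ∧ M.det = -g := by
  classical
  obtain ⟨ι, _, _, a, b, C, Ci, ha, hb, hC, h2, h3, rfl⟩ := hg
  let _ : Invertible C := ⟨Ci, mul_eq_one_comm.mp h2, h2⟩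
  let A : Matrix Unit ι (MvPolynomial (Fin d) R) := Matrix.of fun _ i => a i
  let B : Matrix ι Unit (MvPolynomial (Fin d) R) := Matrix.of fun i _ => b i
  let M : Matrix ((Unit ⊕ ι) ⊕ (Fin 2 × Fin d)) ((Unit ⊕ ι) ⊕ (Fin 2 × Fin d))
      (MvPolynomial (Fin d) R) :=
    Matrix.fromBlocks (Matrix.fromBlocks 0 A B C) 0 0
      (Matrix.blockDiagonal fun k : Fin d => unip (X k))
  have hz : IsC S (0 : MvPolynomial (Fin d) R) := isC_zero h0
  have e1 : ∀ i j, IsC S (M i j) := by
    rintro ((i | i) | ⟨i, k⟩) ((j | j) | ⟨j, k'⟩)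
    · exact hz
    · exact ha j
    · exact hz
    · exact hb i
    · exact hC i j
    · exact hz
    · exact hz
    · exact hz
    · change IsC S (Matrix.blockDiagonal
        (fun k : Fin d => unip (X k : MvPolynomial (Fin d) R)) (i, k) (j, k'))
      rw [Matrix.blockDiagonal_apply]
      dsimp only
      split_ifs with ht
      · fin_cases i <;> fin_cases j
        · exact isC_one h1
        · exact isC_X k
        · exact hz
        · exact isC_one h1
      · exact hz
  have e2 : ∀ k, ∃ i j, M i j = X k := by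
    intro k
    refine ⟨Sum.inr (0, k), Sum.inr (1, k), ?_⟩
    change Matrix.blockDiagonal (fun k : Fin d => unip (X k : MvPolynomial (Fin d) R))
      (0, k) (1, k) = _
    rw [Matrix.blockDiagonal_apply]
    dsimp only
    rw [if_pos rfl]
    rfl
  have e3 : M.det = -(a ⬝ᵥ (Matrix.mulVec Ci b)) := by
    have h5 : (⅟C : Matrix ι ι (MvPolynomial (Fin d) R)) = Ci := rfl
    change (Matrix.fromBlocks _ _ _ _).det = _
    rw [Matrix.det_fromBlocks_zero₂₁, Matrix.det_blockDiagonal, Matrix.det_fromBlocks₂₂, h3, h5]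
    simp only [det_unip, Finset.prod_const_one, mul_one, one_mul]
    rw [Matrix.det_unique, Matrix.sub_apply, Matrix.zero_apply, zero_sub, Matrix.mul_assoc]
    rfl
  let e := Fintype.equivFin ((Unit ⊕ ι) ⊕ (Fin 2 × Fin d))
  refine ⟨_, Matrix.reindex e e M, ⟨?_, ?_⟩, ?_⟩
  · intro i j
    exact e1 (e.symm i) (e.symm j)
  · intro k
    obtain ⟨i, j, hij⟩ := e2 k
    refine ⟨e i, e j, ?_⟩
    change M (e.symm (e i)) (e.symm (e j)) = _
    rw [e.symm_apply_apply, e.symm_apply_apply, hij]
  · rw [Matrix.det_reindex_self, e3]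

/-- Valiant's theorem for all polynomials. -/
theorem exists_pat (h0 : 0 ∈ S) (h1 : 1 ∈ S) (hS : AddSubgroup.closure S = ⊤) {d : ℕ}
    (g : MvPolynomial (Fin d) R) :
    ∃ (m : ℕ) (M : Matrix (Fin m) (Fin m) (MvPolynomial (Fin d) R)), IsPat S M ∧ M.det = -g :=
  pat_of_rep h0 h1 (reps_all h0 h1 hS g)

variable {sep : Prop} {P : Sch R → Prop} {d : ℕ}

/-- the sections have the property -/
def ForPat (S : Set R) (P : Sch R → Prop) (d : ℕ) : Prop :=
  ∀ (m : ℕ) (M : Matrix (Fin m) (Fin m) (MvPolynomial (Fin d) R)), IsPat S M → P (secGL M)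

/-- complements of hypersurfaces -/
theorem pat_away (h0 : 0 ∈ S) (h1 : 1 ∈ S) (hS : AddSubgroup.closure S = ⊤)
    (hiso : ∀ {X Y : Sch R}, FT sep X → Nonempty (X ≅ Y) → P X → P Y)
    (h : ForPat S P d) (g : MvPolynomial (Fin d) R) : P (aff R (Localization.Away g)) := by
  obtain ⟨m, M, hM, hdet⟩ := exists_pat h0 h1 hS g
  have h4 := h _ M hM
  have h5 : IsLocalization.Away g (Localization.Away M.det) := by
    have hu : Associated M.det g := by
      rw [hdet]
      exact ⟨-1, by simp⟩
    exact IsLocalization.Away.of_associated hu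
  have := ft_away (R := R) (MvPolynomial (Fin d) R) M.det
  obtain ⟨e⟩ := away_iso (R := R) g (S := Localization.Away M.det) (T := Localization.Away g)
  exact hiso (ft_aff sep) ⟨(affIso e).symm⟩ h4

/-- closed subschemes of the affine space -/
theorem pat_ideal [IsNoetherianRing R] (h0 : 0 ∈ S) (h1 : 1 ∈ S)
    (hS : AddSubgroup.closure S = ⊤) (hP : Dev sep P) (h : ForPat S P d)
    (I : Ideal (MvPolynomial (Fin d) R)) : P (aff R (MvPolynomial (Fin d) R ⧸ I)) := by
  obtain ⟨G, hG⟩ := (isNoetherianRing_iff_ideal_fg _).mp (inferInstance :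
    IsNoetherianRing (MvPolynomial (Fin d) R)) I
  have h2 : Ideal.span {x | x ∈ G.toList} = I := by
    rw [← hG]
    congr 1
    ext x
    simp
  rw [← h2]
  exact quot_of_list hP _ _ G.toList rfl fun M _ => pat_away h0 h1 hS hP.iso h M.prod

/-- all schemes of finite type -/
theorem pat_all [IsNoetherianRing R] (h0 : 0 ∈ S) (h1 : 1 ∈ S)
    (hS : AddSubgroup.closure S = ⊤) (hP : Dev sep P) (h : ∀ d, ForPat S P d)
    (X : Sch R) (hX : FT sep X) : P X := by
  refine of_affine' hP.iso hP.total ?_ X hX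
  intro A _ _ hA
  obtain ⟨d, φ, hφ⟩ := Algebra.FiniteType.iff_quotient_mvPolynomial''.mp hA
  exact iso_alg hP (Ideal.quotientKerAlgEquivOfSurjective hφ) (pat_ideal h0 h1 hS hP (h d) _)

lemma closure_univ : AddSubgroup.closure (Set.univ : Set R) = ⊤ := AddSubgroup.closure_univ

lemma closure_int (hR : Function.Surjective (Int.cast : ℤ → R)) :
    AddSubgroup.closure ({0, 1} : Set R) = ⊤ := by
  rw [eq_top_iff]
  intro x _
  obtain ⟨z, rfl⟩ := hR x
  have h : (1 : R) ∈ AddSubgroup.closure ({0, 1} : Set R) :=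
    AddSubgroup.subset_closure (Or.inr rfl)
  have h2 := AddSubgroup.zsmul_mem _ h z
  rwa [zsmul_one] at h2

end Pool.Agent.Y456.LG
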