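import Pool.Agent.Y111.WM.Pres3
import Pool.Agent.Y456.LG.Det

/-!
# Presentations by three-term quadratic polynomials
-/

set_option autoImplicit false

open MvPolynomial

namespace Pool.Agent.Y456.LG

open Pool.Agent.Y116.UV Pool.Agent.Y111.WM

section

variable (R : Type) [CommRing R] (n D : ℕ) {κ : Type} (F : κ → Finset (Fin n →₀ ℕ))

/-- the variables: one for each monomial of degree at most `D` and one for `-1` -/
abbrev Va (n D : ℕ) : Type := Option (Mon n D)

/-- the variable for `-1` -/
noncomputable def ve : MvPolynomial (Va n D) R := X none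

/-- the variable of a monomial -/
noncomputable def vz (μ : Fin n →₀ ℕ) : MvPolynomial (Va n D) R :=
  if h : μ.degree ≤ D then X (some ⟨μ, h⟩) else 0

lemma vz_of (μ : Fin n →₀ ℕ) (h : μ.degree ≤ D) : vz R n D μ = X (some ⟨μ, h⟩) := dif_pos h

/-- the homogeneous quadratic relations -/
noncomputable def rel : Unit ⊕ ((Mon n D × Fin n) ⊕ κ) → MvPolynomial (Va n D) R
  | Sum.inl _ => ve R n D * vz R n D 0 + vz R n D 0 * vz R n D 0
  | Sum.inr (Sum.inl (m, i)) => if (m.1 + Finsupp.single i 1).degree ≤ D then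
      vz R n D m.1 * vz R n D (Finsupp.single i 1) +
        ve R n D * vz R n D (m.1 + Finsupp.single i 1) else 0
  | Sum.inr (Sum.inr k) => ∑ μ ∈ F k, vz R n D μ * vz R n D 0

lemma rel_one : rel R n D F (Sum.inl ()) = ve R n D * vz R n D 0 + vz R n D 0 * vz R n D 0 := rfl

lemma rel_mul (m : Mon n D) (i : Fin n) : rel R n D F (Sum.inr (Sum.inl (m, i))) =
    if (m.1 + Finsupp.single i 1).degree ≤ D then
      vz R n D m.1 * vz R n D (Finsupp.single i 1) +
        ve R n D * vz R n D (m.1 + Finsupp.single i 1) else 0 := rfl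

lemma rel_sum (k : κ) : rel R n D F (Sum.inr (Sum.inr k)) =
    ∑ μ ∈ F k, vz R n D μ * vz R n D 0 := rfl

/-- the ideal of the relations and of the equation `z_0 = 1` -/
noncomputable def relI : Ideal (MvPolynomial (Va n D) R) :=
  Ideal.span (Set.range (rel R n D F)) ⊔ Ideal.span {vz R n D 0 - 1}

/-- the ring of the relations -/
abbrev RelR : Type := MvPolynomial (Va n D) R ⧸ relI R n D F

/-- the class of a polynomial -/
noncomputable def cl : MvPolynomial (Va n D) R →ₐ[R] RelR R n D F := Ideal.Quotient.mkₐ R _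

lemma cl_surj : Function.Surjective (cl R n D F) := Ideal.Quotient.mkₐ_surjective R _

lemma cl_rel (k : Unit ⊕ ((Mon n D × Fin n) ⊕ κ)) : cl R n D F (rel R n D F k) = 0 :=
  Ideal.Quotient.eq_zero_iff_mem.mpr
    ((le_sup_left : _ ≤ relI R n D F) (Ideal.subset_span ⟨k, rfl⟩))

lemma cl_z : cl R n D F (vz R n D 0) = 1 := by
  have h : cl R n D F (vz R n D 0 - 1) = 0 := Ideal.Quotient.eq_zero_iff_mem.mpr
    ((le_sup_right : _ ≤ relI R n D F) (Ideal.mem_span_singleton_self _))
  rw [map_sub, map_one] at h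
  exact sub_eq_zero.mp h

lemma cl_e : cl R n D F (ve R n D) = -1 := by
  have h := cl_rel R n D F (Sum.inl ())
  rw [rel_one, map_add, map_mul, map_mul, cl_z, mul_one, mul_one] at h
  exact eq_neg_of_add_eq_zero_left h

/-- the substitution of the variables -/
noncomputable def ps : MvPolynomial (Fin n) R →ₐ[R] RelR R n D F :=
  aeval fun i => cl R n D F (vz R n D (Finsupp.single i 1))

lemma ps_monomial : ∀ (d : ℕ) (m : Fin n →₀ ℕ) (_ : m.degree ≤ D), m.degree = d →
    ps R n D F (monomial m 1) = cl R n D F (vz R n D m) := by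
  intro d
  induction d with
  | zero =>
    intro m h hm
    have h0 : m = 0 := (Finsupp.degree_eq_zero_iff m).mp hm
    subst h0
    rw [cl_z]
    exact map_one _
  | succ d ih =>
    intro m h hm
    have hne : m ≠ 0 := by
      rintro rfl
      simp at hm
    obtain ⟨i, hi⟩ := Finsupp.support_nonempty_iff.mpr hne
    have hi1 : 1 ≤ m i := Nat.one_le_iff_ne_zero.mpr (Finsupp.mem_support_iff.mp hi)
    obtain ⟨m', rfl⟩ : ∃ m', m = m' + Finsupp.single i 1 :=
      ⟨m - Finsupp.single i 1, by
        rw [tsub_add_cancel_of_le]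
        rw [Finsupp.single_le_iff]
        exact hi1⟩
    have hdeg : (m' + Finsupp.single i 1).degree = m'.degree + 1 := by
      rw [map_add, Finsupp.degree_single]
    have hm' : m'.degree ≤ D := by omega
    have h1 := ih m' hm' (by omega)
    have h2 : (monomial (m' + Finsupp.single i 1) (1 : R)) = monomial m' 1 * X i := by
      rw [X, monomial_mul, one_mul]
    have h3 : ps R n D F (X i) = cl R n D F (vz R n D (Finsupp.single i 1)) := by
      rw [ps, aeval_X]
    rw [h2, map_mul, h1, h3]
    have h4 := cl_rel R n D F (Sum.inr (Sum.inl (⟨m', hm'⟩, i)))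
    rw [rel_mul, if_pos h, map_add, map_mul, map_mul, cl_e] at h4
    linear_combination h4

/-- the substitution of the monomials -/
noncomputable def sub : MvPolynomial (Va n D) R →ₐ[R] MvPolynomial (Fin n) R :=
  aeval fun v => v.elim (-1) fun m => monomial m.1 1

lemma sub_e : sub R n D (ve R n D) = -1 := by
  rw [sub, ve, aeval_X]
  rfl

lemma sub_z (μ : Fin n →₀ ℕ) (h : μ.degree ≤ D) : sub R n D (vz R n D μ) = monomial μ 1 := by
  rw [sub, vz_of R n D μ h, aeval_X]
  rfl

lemma ps_sub (q : MvPolynomial (Va n D) R) : ps R n D F (sub R n D q) = cl R n D F q := by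
  have h : (ps R n D F).comp (sub R n D) = cl R n D F := by
    apply MvPolynomial.algHom_ext
    rintro (_ | m)
    · have h1 := cl_e R n D F
      change ps R n D F (sub R n D (ve R n D)) = cl R n D F (ve R n D)
      rw [sub_e, h1, map_neg, map_one]
    · have h1 : (X (some m) : MvPolynomial (Va n D) R) = vz R n D m.1 :=
        (vz_of R n D m.1 m.2).symm
      rw [AlgHom.comp_apply, h1, sub_z R n D m.1 m.2]
      exact ps_monomial R n D F _ m.1 m.2 rfl
  exact congrArg (fun f : MvPolynomial (Va n D) R →ₐ[R] _ => f q) h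

end

variable {R : Type} [CommRing R] {n D : ℕ} {κ : Type} {F : κ → Finset (Fin n →₀ ℕ)}
  {A : Type} [CommRing A] [Algebra R A] {φ : MvPolynomial (Fin n) R →ₐ[R] A}

lemma deg_zero : (0 : Fin n →₀ ℕ).degree ≤ D := by simp

lemma th_rel (hK : RingHom.ker φ = Ideal.span (Set.range fun k => ms R (F k)))
    (hd : ∀ k, ∀ μ ∈ F k, μ.degree ≤ D) (hD : 1 ≤ D) (k : Unit ⊕ ((Mon n D × Fin n) ⊕ κ)) :
    φ (sub R n D (rel R n D F k)) = 0 := by
  have h0 : sub R n D (vz R n D 0) = 1 := sub_z R n D 0 deg_zero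
  rcases k with _ | ⟨m, i⟩ | k
  · rw [rel_one, map_add, map_mul, map_mul, h0, sub_e, mul_one, mul_one, neg_add_cancel, map_zero]
  · rw [rel_mul]
    split_ifs with h
    · have h1 : (Finsupp.single i 1 : Fin n →₀ ℕ).degree ≤ D := by
        rw [Finsupp.degree_single]
        exact hD
      have h2 : (monomial (m.1 + Finsupp.single i 1) (1 : R)) =
          monomial m.1 1 * monomial (Finsupp.single i 1) 1 := by
        rw [monomial_mul, one_mul]
      rw [map_add, map_mul, map_mul, sub_z R n D _ m.2, sub_z R n D _ h1, sub_z R n D _ h, sub_e, h2]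
      have h3 : monomial m.1 (1 : R) * monomial (Finsupp.single i 1) 1 +
        -1 * (monomial m.1 (1 : R) * monomial (Finsupp.single i 1) 1) = 0 := by ring
      rw [h3, map_zero]
    · rw [map_zero, map_zero]
  · rw [rel_sum]
    have h1 : sub R n D (∑ μ ∈ F k, vz R n D μ * vz R n D 0) = ms R (F k) := by
      rw [map_sum, ms]
      apply Finset.sum_congr rfl
      intro μ hμ
      rw [map_mul, h0, mul_one, sub_z R n D μ (hd k μ hμ)]
    rw [h1]
    have h2 : ms R (F k) ∈ RingHom.ker φ := by
      rw [hK]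
      exact Ideal.subset_span ⟨k, rfl⟩
    exact h2

/-- The ring of the relations is `A`. -/
theorem pres_equiv (hs : Function.Surjective φ)
    (hK : RingHom.ker φ = Ideal.span (Set.range fun k => ms R (F k)))
    (hd : ∀ k, ∀ μ ∈ F k, μ.degree ≤ D) (hD : 1 ≤ D) : Nonempty (RelR R n D F ≃ₐ[R] A) := by
  have hI : ∀ a ∈ relI R n D F, (φ.comp (sub R n D)) a = 0 := by
    have h : relI R n D F ≤ RingHom.ker (φ.comp (sub R n D)) := by
      rw [relI, sup_le_iff, Ideal.span_le, Ideal.span_le]
      constructor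
      · rintro _ ⟨k, rfl⟩
        exact th_rel hK hd hD k
      · rintro _ rfl
        change φ (sub R n D (vz R n D 0 - 1)) = 0
        have h9 : sub R n D (vz R n D 0 - 1) = 0 := by
          rw [map_sub, map_one (sub R n D), sub_z R n D 0 deg_zero]
          exact sub_self _
        rw [h9, map_zero]
    exact fun a ha => h ha
  let α : RelR R n D F →ₐ[R] A := Ideal.Quotient.liftₐ _ (φ.comp (sub R n D)) hI
  have hα : ∀ q, α (cl R n D F q) = φ (sub R n D q) := fun q => rfl
  have hps : ∀ p : MvPolynomial (Fin n) R, α (ps R n D F p) = φ p := by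
    intro p
    have h : α.comp (ps R n D F) = φ := by
      apply MvPolynomial.algHom_ext
      intro i
      rw [AlgHom.comp_apply, ps, aeval_X, hα, sub_z R n D _ (by rw [Finsupp.degree_single]; exact hD)]
      rfl
    exact congrArg (fun f : MvPolynomial (Fin n) R →ₐ[R] _ => f p) h
  have hker : ∀ p ∈ RingHom.ker φ, ps R n D F p = 0 := by
    have h : RingHom.ker φ ≤ RingHom.ker (ps R n D F) := by
      rw [hK, Ideal.span_le]
      rintro _ ⟨k, rfl⟩
      change ps R n D F (ms R (F k)) = 0
      have h1 := cl_rel R n D F (Sum.inr (Sum.inr k))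
      rw [rel_sum] at h1
      rw [ms, map_sum, ← h1, map_sum]
      apply Finset.sum_congr rfl
      intro μ hμ
      rw [ps_monomial R n D F _ μ (hd k μ hμ) rfl, map_mul, cl_z, mul_one]
    exact fun p hp => h hp
  refine ⟨AlgEquiv.ofBijective α ⟨?_, ?_⟩⟩
  · rw [injective_iff_map_eq_zero]
    intro b hb
    obtain ⟨q, rfl⟩ := cl_surj R n D F b
    rw [hα] at hb
    rw [← ps_sub]
    exact hker _ hb
  · intro a
    obtain ⟨p, rfl⟩ := hs a
    exact ⟨_, hps p⟩

/-- Every algebra of finite type is given by three-term quadratic relations. -/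
theorem exists_pres [IsNoetherianRing R] (hR : Function.Surjective (Int.cast : ℤ → R))
    (A : Type) [CommRing A] [Algebra R A] [Algebra.FiniteType R A] :
    ∃ (n D : ℕ) (κ : Type) (_ : Fintype κ) (F : κ → Finset (Fin n →₀ ℕ)), 1 ≤ D ∧
      (∀ k, (F k).card ≤ 3) ∧ Nonempty (RelR R n D F ≃ₐ[R] A) := by
  classical
  obtain ⟨n, φ, G, hs, hK, hc⟩ := presents_three hR A
  choose! F hF using hc
  let D : ℕ := 1 + ∑ g ∈ G, ∑ m ∈ F g, m.degree
  have hD : 1 ≤ D := by omega
  have hd : ∀ g : G, ∀ m ∈ F g.1, m.degree ≤ D := by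
    intro g m hm
    have h1 : m.degree ≤ ∑ m ∈ F g.1, m.degree :=
      Finset.single_le_sum (f := fun m : Fin n →₀ ℕ => m.degree) (fun _ _ => Nat.zero_le _) hm
    have h2 : ∑ m ∈ F g.1, m.degree ≤ ∑ g ∈ G, ∑ m ∈ F g, m.degree :=
      Finset.single_le_sum (f := fun g : MvPolynomial (Fin n) R => ∑ m ∈ F g, m.degree)
        (fun _ _ => Nat.zero_le _) g.2
    omega
  have hK' : RingHom.ker φ = Ideal.span (Set.range fun k : G => ms R (F k.1)) := by
    rw [hK]
    congr 1
    ext x
    constructor
    · intro hx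
      exact ⟨⟨x, hx⟩, (hF x hx).2.symm⟩
    · rintro ⟨g, rfl⟩
      change ms R (F g.1) ∈ _
      rw [← (hF g.1 g.2).2]
      exact g.2
  exact ⟨n, D, G, inferInstance, fun g => F g.1, hD, fun g => (hF g.1 g.2).1,
    pres_equiv hs hK' hd hD⟩

end Pool.Agent.Y456.LG
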