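import Pool.Agent.Y456.LG.Scale

/-!
# Products of sparse linear sections of `GL_m`
-/

set_option autoImplicit false

open CategoryTheory AlgebraicGeometry MvPolynomial
open scoped TensorProduct

namespace Pool.Agent.Y456.LG

open Pool.Agent.Y116.UV

section iso

variable {R : Type} [CommRing R] {d e : ℕ} (f : MvPolynomial (Fin d) R) (g : MvPolynomial (Fin e) R)

/-- the function on the product -/
noncomputable def pr : MvPolynomial (Fin (d + e)) R :=
  rename (Fin.castAdd e) f * rename (Fin.natAdd d) g

/-- the tensor product -/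
abbrev Tn : Type := Localization.Away f ⊗[R] Localization.Away g

/-- a function on the open subscheme -/
noncomputable def lc {c : ℕ} (f : MvPolynomial (Fin c) R) :
    MvPolynomial (Fin c) R →ₐ[R] Localization.Away f :=
  IsScalarTower.toAlgHom R (MvPolynomial (Fin c) R) (Localization.Away f)

lemma lc_unit {c : ℕ} (f : MvPolynomial (Fin c) R) : IsUnit (lc f f) :=
  IsLocalization.Away.algebraMap_isUnit (S := Localization.Away f) f

/-- the first inclusion -/
noncomputable def il : Localization.Away f →ₐ[R] Tn f g := Algebra.TensorProduct.includeLeft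

/-- the second inclusion -/
noncomputable def ir : Localization.Away g →ₐ[R] Tn f g := Algebra.TensorProduct.includeRight

/-- polynomials to the tensor product -/
noncomputable def toTn : MvPolynomial (Fin (d + e)) R →ₐ[R] Tn f g :=
  aeval (Fin.append (fun i => il f g (lc f (X i))) fun j => ir f g (lc g (X j)))

lemma toTn_left (p : MvPolynomial (Fin d) R) :
    toTn f g (rename (Fin.castAdd e) p) = il f g (lc f p) := by
  have h : (toTn f g).comp (rename (Fin.castAdd e)) = (il f g).comp (lc f) := by
    apply MvPolynomial.algHom_ext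
    intro i
    rw [AlgHom.comp_apply, AlgHom.comp_apply, rename_X, toTn, aeval_X, Fin.append_left]
  exact DFunLike.congr_fun h p

lemma toTn_right (p : MvPolynomial (Fin e) R) :
    toTn f g (rename (Fin.natAdd d) p) = ir f g (lc g p) := by
  have h : (toTn f g).comp (rename (Fin.natAdd d)) = (ir f g).comp (lc g) := by
    apply MvPolynomial.algHom_ext
    intro i
    rw [AlgHom.comp_apply, AlgHom.comp_apply, rename_X, toTn, aeval_X, Fin.append_right]
  exact DFunLike.congr_fun h p

lemma toTn_unit : IsUnit (toTn f g (pr f g)) := by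
  rw [pr, map_mul, toTn_left, toTn_right]
  exact ((lc_unit f).map (il f g)).mul ((lc_unit g).map (ir f g))

/-- the localisation to the tensor product -/
noncomputable def locTn : Localization.Away (pr f g) →ₐ[R] Tn f g :=
  IsLocalization.Away.liftAlgHom (pr f g) (toTn_unit f g)

lemma locTn_alg (p : MvPolynomial (Fin (d + e)) R) :
    locTn f g (lc (pr f g) p) = toTn f g p :=
  IsLocalization.Away.lift_eq (pr f g) (toTn_unit f g) p

lemma unitL : IsUnit (((lc (pr f g)).comp (rename (Fin.castAdd e))) f) :=
  isUnit_of_dvd_unit (map_dvd (lc (pr f g))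
    (Dvd.intro _ rfl : rename (Fin.castAdd e) f ∣ pr f g)) (lc_unit (pr f g))

lemma unitR : IsUnit (((lc (pr f g)).comp (rename (Fin.natAdd d))) g) :=
  isUnit_of_dvd_unit (map_dvd (lc (pr f g))
    (Dvd.intro_left _ rfl : rename (Fin.natAdd d) g ∣ pr f g)) (lc_unit (pr f g))

/-- the first factor to the localisation -/
noncomputable def fstL : Localization.Away f →ₐ[R] Localization.Away (pr f g) :=
  IsLocalization.Away.liftAlgHom f (unitL f g)

/-- the second factor to the localisation -/
noncomputable def sndL : Localization.Away g →ₐ[R] Localization.Away (pr f g) :=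
  IsLocalization.Away.liftAlgHom g (unitR f g)

lemma fstL_alg (p : MvPolynomial (Fin d) R) :
    fstL f g (lc f p) = lc (pr f g) (rename (Fin.castAdd e) p) :=
  IsLocalization.Away.lift_eq f (unitL f g) p

lemma sndL_alg (p : MvPolynomial (Fin e) R) :
    sndL f g (lc g p) = lc (pr f g) (rename (Fin.natAdd d) p) :=
  IsLocalization.Away.lift_eq g (unitR f g) p

/-- the tensor product to the localisation -/
noncomputable def fromTn : Tn f g →ₐ[R] Localization.Away (pr f g) :=
  Algebra.TensorProduct.productMap (fstL f g) (sndL f g)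

lemma fromTn_l (a : Localization.Away f) : fromTn f g (il f g a) = fstL f g a :=
  Algebra.TensorProduct.productMap_left_apply _ _ a

lemma fromTn_r (a : Localization.Away g) : fromTn f g (ir f g a) = sndL f g a :=
  Algebra.TensorProduct.productMap_right_apply _ _ a

lemma comp_one : (locTn f g).comp (fromTn f g) = AlgHom.id R (Tn f g) := by
  apply Algebra.TensorProduct.ext
  · apply IsLocalization.algHom_ext (Submonoid.powers f)
    apply MvPolynomial.algHom_ext
    intro i
    change locTn f g (fromTn f g (il f g (lc f (X i)))) = il f g (lc f (X i))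
    rw [fromTn_l, fstL_alg, locTn_alg, toTn_left]
  · apply IsLocalization.algHom_ext (Submonoid.powers g)
    apply MvPolynomial.algHom_ext
    intro i
    change locTn f g (fromTn f g (ir f g (lc g (X i)))) = ir f g (lc g (X i))
    rw [fromTn_r, sndL_alg, locTn_alg, toTn_right]

lemma comp_two : (fromTn f g).comp (locTn f g) = AlgHom.id R (Localization.Away (pr f g)) := by
  apply IsLocalization.algHom_ext (Submonoid.powers (pr f g))
  apply MvPolynomial.algHom_ext
  intro i
  change fromTn f g (locTn f g (lc (pr f g) (X i))) = lc (pr f g) (X i)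
  rw [locTn_alg, toTn, aeval_X]
  induction i using Fin.addCases with
  | left i => rw [Fin.append_left, fromTn_l, fstL_alg, rename_X]
  | right j => rw [Fin.append_right, fromTn_r, sndL_alg, rename_X]

/-- the isomorphism -/
noncomputable def prodE : Localization.Away (pr f g) ≃ₐ[R] Tn f g :=
  AlgEquiv.ofAlgHom (locTn f g) (fromTn f g) (comp_one f g) (comp_two f g)

end iso

section dsum

variable {R : Type} [CommRing R] {S : Set R} {d e m n : ℕ}
  (M : Matrix (Fin m) (Fin m) (MvPolynomial (Fin d) R))
  (N : Matrix (Fin n) (Fin n) (MvPolynomial (Fin e) R))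

/-- the block sum before the reindexing -/
noncomputable def dblock : Matrix (Fin m ⊕ Fin n) (Fin m ⊕ Fin n) (MvPolynomial (Fin (d + e)) R) :=
  Matrix.fromBlocks (M.map (rename (Fin.castAdd e))) 0 0 (N.map (rename (Fin.natAdd d)))

/-- the direct sum of two matrices of polynomials in disjoint sets of variables -/
noncomputable def dsum : Matrix (Fin (m + n)) (Fin (m + n)) (MvPolynomial (Fin (d + e)) R) :=
  Matrix.reindex finSumFinEquiv finSumFinEquiv (dblock M N)

lemma det_dsum : (dsum M N).det = pr M.det N.det := by
  rw [dsum, Matrix.det_reindex_self, dblock, Matrix.det_fromBlocks_zero₂₁, pr]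
  congr 1
  · exact ((rename (Fin.castAdd e) : MvPolynomial (Fin d) R →ₐ[R] _).map_det M).symm
  · exact ((rename (Fin.natAdd d) : MvPolynomial (Fin e) R →ₐ[R] _).map_det N).symm

lemma isC_rename {V W : Type} (φ : V → W) {x : MvPolynomial V R} (h : IsC S x) :
    IsC S (rename φ x) := by
  rcases h with ⟨c, hc, rfl⟩ | ⟨k, rfl⟩
  · exact Or.inl ⟨c, hc, rename_C _ _⟩
  · exact Or.inr ⟨φ k, rename_X _ _⟩

variable {M N}

lemma isPat_dsum (h0 : 0 ∈ S) (hM : IsPat S M) (hN : IsPat S N) : IsPat S (dsum M N) := by
  constructor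
  · intro i j
    change IsC S (dblock M N (finSumFinEquiv.symm i) (finSumFinEquiv.symm j))
    rcases finSumFinEquiv.symm i with i | i <;> rcases finSumFinEquiv.symm j with j | j
    · exact isC_rename _ (hM.entry i j)
    · exact isC_zero h0
    · exact isC_zero h0
    · exact isC_rename _ (hN.entry i j)
  · intro k
    induction k using Fin.addCases with
    | left k =>
      obtain ⟨i, j, h⟩ := hM.occurs k
      refine ⟨finSumFinEquiv (Sum.inl i), finSumFinEquiv (Sum.inl j), ?_⟩
      change dblock M N (finSumFinEquiv.symm _) (finSumFinEquiv.symm _) = _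
      rw [Equiv.symm_apply_apply, Equiv.symm_apply_apply]
      change rename (Fin.castAdd e) (M i j) = _
      rw [h, rename_X]
    | right k =>
      obtain ⟨i, j, h⟩ := hN.occurs k
      refine ⟨finSumFinEquiv (Sum.inr i), finSumFinEquiv (Sum.inr j), ?_⟩
      change dblock M N (finSumFinEquiv.symm _) (finSumFinEquiv.symm _) = _
      rw [Equiv.symm_apply_apply, Equiv.symm_apply_apply]
      change rename (Fin.natAdd d) (N i j) = _
      rw [h, rename_X]

lemma nz_rename {V W : Type} (φ : V → W) (hφ : Function.Injective φ) (x : MvPolynomial V R) :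
    nz (rename φ x) = nz x := by
  unfold nz
  rw [map_eq_zero_iff _ (rename_injective φ hφ)]

lemma rc_block (x : Fin m ⊕ Fin n) : rc (dblock M N) x = Sum.elim (rc M) (rc N) x := by
  unfold rc
  rw [Fintype.sum_sum_type]
  rcases x with i | i
  · have h1 : ∀ j, dblock M N (Sum.inl i) (Sum.inl j) = rename (Fin.castAdd e) (M i j) :=
      fun j => rfl
    have h2 : ∀ j, dblock M N (Sum.inl i) (Sum.inr j) = 0 := fun j => rfl
    simp only [h1, h2, nz_zero, Finset.sum_const_zero, add_zero,
      nz_rename _ (Fin.castAdd_injective d e)]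
    rfl
  · have h1 : ∀ j, dblock M N (Sum.inr i) (Sum.inr j) = rename (Fin.natAdd d) (N i j) :=
      fun j => rfl
    have h2 : ∀ j, dblock M N (Sum.inr i) (Sum.inl j) = 0 := fun j => rfl
    simp only [h1, h2, nz_zero, Finset.sum_const_zero, zero_add,
      nz_rename _ (Fin.natAdd_injective e d)]
    rfl

lemma cc_block (x : Fin m ⊕ Fin n) : cc (dblock M N) x = Sum.elim (cc M) (cc N) x := by
  unfold cc
  rw [Fintype.sum_sum_type]
  rcases x with i | i
  · have h1 : ∀ j, dblock M N (Sum.inl j) (Sum.inl i) = rename (Fin.castAdd e) (M j i) :=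
      fun j => rfl
    have h2 : ∀ j, dblock M N (Sum.inr j) (Sum.inl i) = 0 := fun j => rfl
    simp only [h1, h2, nz_zero, Finset.sum_const_zero, add_zero,
      nz_rename _ (Fin.castAdd_injective d e)]
    rfl
  · have h1 : ∀ j, dblock M N (Sum.inr j) (Sum.inr i) = rename (Fin.natAdd d) (N j i) :=
      fun j => rfl
    have h2 : ∀ j, dblock M N (Sum.inl j) (Sum.inr i) = 0 := fun j => rfl
    simp only [h1, h2, nz_zero, Finset.sum_const_zero, zero_add,
      nz_rename _ (Fin.natAdd_injective e d)]
    rfl

lemma thin_dsum (hM : Thin M) (hN : Thin N) : Thin (dsum M N) := by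
  constructor
  · intro i
    rw [← rc_eq]
    have h : rc (dsum M N) i = rc (dblock M N) (finSumFinEquiv.symm i) := by
      unfold rc
      exact finSumFinEquiv.symm.sum_comp fun j => nz (dblock M N (finSumFinEquiv.symm i) j)
    rw [h, rc_block]
    rcases finSumFinEquiv.symm i with i | i
    · exact (rc_eq M i).trans_le (hM.1 i)
    · exact (rc_eq N i).trans_le (hN.1 i)
  · intro i
    rw [← cc_eq]
    have h : cc (dsum M N) i = cc (dblock M N) (finSumFinEquiv.symm i) := by
      unfold cc
      exact finSumFinEquiv.symm.sum_comp fun j => nz (dblock M N j (finSumFinEquiv.symm i))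
    rw [h, cc_block]
    rcases finSumFinEquiv.symm i with i | i
    · exact (cc_eq M i).trans_le (hM.2 i)
    · exact (cc_eq N i).trans_le (hN.2 i)

/-- the matrix with one entry, a variable -/
noncomputable def one1 : Matrix (Fin 1) (Fin 1) (MvPolynomial (Fin 1) R) := fun _ _ => X 0

lemma isPat_one1 : IsPat S (one1 : Matrix (Fin 1) (Fin 1) (MvPolynomial (Fin 1) R)) where
  entry _ _ := Or.inr ⟨0, rfl⟩
  occurs k := ⟨0, 0, by rw [Fin.fin_one_eq_zero k]; rfl⟩

lemma thin_one1 : Thin (one1 : Matrix (Fin 1) (Fin 1) (MvPolynomial (Fin 1) R)) := by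
  have h : ∀ s : Set (Fin 1), s.ncard ≤ 3 := fun s =>
    (Set.ncard_le_card s).trans (by simp)
  exact ⟨fun _ => h _, fun _ => h _⟩

lemma det_one1 : (one1 : Matrix (Fin 1) (Fin 1) (MvPolynomial (Fin 1) R)).det = X 0 := by
  rw [Matrix.det_fin_one]
  rfl

end dsum

end Pool.Agent.Y456.LG
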