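import Pool.Agent.Y456.LG.Res

/-!
# Finitely many sparse linear sections of `GL_m` contain all irreducible subquotients
-/

set_option autoImplicit false

open CategoryTheory CategoryTheory.Limits AlgebraicGeometry MvPolynomial

namespace Pool.Agent.Y456.LG

open Pool.Agent.Y116.UV Pool.Agent.Z125.UN Pool.Agent.Y101.Th

universe v u

/-- For every scheme of finite type there are finitely many sparse linear sections of `GL_m` whose
cohomology contains all irreducible subquotients of its cohomology, for all cohomology theories. -/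
theorem occ_fin {k : Type} [Field k] {S : Set k} (hS : Alphabet S) (X : Sch k)
    (hX : FT True X) :
    ∃ L : Mats k, (∀ x ∈ L, IsPat S x.2.2 ∧ Thin x.2.2) ∧
      ∀ {A : Type u} [Category.{v} A] [Abelian A] {H : Sch k → ℤ → A}, IsCoh H → ∀ R : A,
        Simple R → Occ H R X → ∃ x ∈ L, Occ H R (secGL x.2.2) := by
  have h : Reach True (fun x => IsPat S x.2.2 ∧ Thin x.2.2) X :=
    alph_all hS (dev_reach _) (fun _ _ M hM hT => reach_self M ⟨hM, hT⟩) X hX
  obtain ⟨L, h1, h2⟩ := h
  refine ⟨L, h1, fun {A} _ _ H hH R _ hR => ?_⟩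
  exact h2 _ (dev_occ hH R (∃ x ∈ L, Occ H R (secGL x.2.2))) (fun x hx h => ⟨x, hx, h⟩) hR

end Pool.Agent.Y456.LG
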