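import Pool.Agent.Y456.LG.TannDefs
import Pool.Agent.Y456.LG.Prod
import Pool.Agent.Y691.TU.Bnd

/-!
# Direct summands of motives of sparse linear sections of `GL_m`
-/

set_option autoImplicit false

open CategoryTheory CategoryTheory.Limits MonoidalCategory AlgebraicGeometry MvPolynomial
open scoped TensorProduct

namespace Pool.Agent.Y456.LG

open Pool.Agent.Y116.UV Pool.Agent.Y101.Th Pool.Agent.Y691.TU Pool.Agent.Z125.UN

universe v u

section ret

variable {C : Type u} [Category.{v} C]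

/-- `A` is a direct summand of `B` -/
def Ret (A B : C) : Prop := ∃ (s : A ⟶ B) (r : B ⟶ A), s ≫ r = 𝟙 A

lemma Ret.refl (A : C) : Ret A A := ⟨𝟙 A, 𝟙 A, Category.id_comp _⟩

lemma Ret.trans {A B E : C} (h : Ret A B) (h' : Ret B E) : Ret A E := by
  obtain ⟨s, r, hs⟩ := h
  obtain ⟨s', r', hs'⟩ := h'
  refine ⟨s ≫ s', r' ≫ r, ?_⟩
  rw [Category.assoc, reassoc_of% hs', hs]

lemma Ret.of_iso {A B : C} (e : A ≅ B) : Ret A B := ⟨e.hom, e.inv, e.hom_inv_id⟩

lemma Ret.tensor [MonoidalCategory C] {A B A' B' : C} (h : Ret A B) (h' : Ret A' B') :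
    Ret (A ⊗ A') (B ⊗ B') := by
  obtain ⟨s, r, hs⟩ := h
  obtain ⟨s', r', hs'⟩ := h'
  refine ⟨s ⊗ₘ s', r ⊗ₘ r', ?_⟩
  rw [MonoidalCategory.tensorHom_comp_tensorHom, hs, hs', MonoidalCategory.id_tensorHom_id]

lemma Ret.sum [Preadditive C] [HasBinaryBiproducts C] {A B A' B' : C} (h : Ret A B)
    (h' : Ret A' B') : Ret (A ⊞ A') (B ⊞ B') := by
  obtain ⟨s, r, hs⟩ := h
  obtain ⟨s', r', hs'⟩ := h'
  refine ⟨biprod.map s s', biprod.map r r', ?_⟩
  ext <;> simp [hs, hs']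

lemma Ret.bi [Preadditive C] [HasBinaryBiproducts C] [HasFiniteBiproducts C] {J : Type} [Finite J]
    (f : J → C) {p q : J} (hpq : p ≠ q) : Ret (f p ⊞ f q) (⨁ f) := by
  refine ⟨biprod.desc (biproduct.ι f p) (biproduct.ι f q),
    biprod.lift (biproduct.π f p) (biproduct.π f q), ?_⟩
  ext
  · simp
  · simp [biproduct.ι_π_ne f hpq]
  · simp [biproduct.ι_π_ne f hpq.symm]
  · simp

lemma Ret.one' [Preadditive C] [HasFiniteBiproducts C] {J : Type} [Finite J]
    (f : J → C) (p : J) : Ret (f p) (⨁ f) :=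
  ⟨biproduct.ι f p, biproduct.π f p, biproduct.ι_π_self f p⟩

/-- direct summands of isomorphism classes -/
def RS [MonoidalCategory C] (x y : Skeleton C) : Prop :=
  ∃ A B : C, toSkeleton A = x ∧ toSkeleton B = y ∧ Ret A B

variable [MonoidalCategory C]

lemma rs_of {A B : C} (h : Ret A B) : RS (toSkeleton A) (toSkeleton B) := ⟨A, B, rfl, rfl, h⟩

lemma of_rs {A B : C} (h : RS (toSkeleton A) (toSkeleton B)) : Ret A B := by
  obtain ⟨A', B', hA, hB, h⟩ := h
  obtain ⟨e⟩ := toSkeleton_eq_toSkeleton_iff.mp hA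
  obtain ⟨e'⟩ := toSkeleton_eq_toSkeleton_iff.mp hB
  exact ((Ret.of_iso e.symm).trans h).trans (Ret.of_iso e')

lemma rs_refl (x : Skeleton C) : RS x x := by
  obtain ⟨A, rfl⟩ := Quotient.exists_rep x
  exact rs_of (Ret.refl A)

lemma rs_trans {x y z : Skeleton C} (h : RS x y) (h' : RS y z) : RS x z := by
  obtain ⟨A, rfl⟩ := Quotient.exists_rep x
  obtain ⟨B, rfl⟩ := Quotient.exists_rep y
  obtain ⟨E, rfl⟩ := Quotient.exists_rep z
  exact rs_of ((of_rs h).trans (of_rs h'))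

lemma rs_mul {x y x' y' : Skeleton C} (h : RS x y) (h' : RS x' y') : RS (x * x') (y * y') := by
  obtain ⟨A, B, rfl, rfl, h⟩ := h
  obtain ⟨A', B', rfl, rfl, h'⟩ := h'
  rw [← Skeleton.toSkeleton_tensorObj, ← Skeleton.toSkeleton_tensorObj]
  exact rs_of (h.tensor h')

end ret

section main

variable {k : Type} [Field k] {S : Set k} {C : Type u} [Category.{v} C] [Abelian C]
  [HasFiniteBiproducts C] [MonoidalCategory C] {D : Graded k C} {T : C}

/-- the class of the Tate twists of the unit -/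
lemma sk_tw (hT : IsTensor D T) (n : ℕ) :
    toSkeleton (Pool.Agent.Y691.TU.tw D.L n D.one) = (toSkeleton T) ^ n := by
  induction n with
  | zero =>
    rw [pow_zero, Skeleton.one_eq]
    obtain ⟨e⟩ := hT.one
    exact congr_toSkeleton_of_iso e
  | succ n ih =>
    obtain ⟨e⟩ := hT.twist (Pool.Agent.Y691.TU.tw D.L n D.one)
    rw [pow_succ, ← ih, ← Skeleton.toSkeleton_tensorObj]
    exact congr_toSkeleton_of_iso e

variable {d e m n : ℕ} {M : Matrix (Fin m) (Fin m) (MvPolynomial (Fin d) k)}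
  {N : Matrix (Fin n) (Fin n) (MvPolynomial (Fin e) k)}

lemma ft_s (M : Matrix (Fin m) (Fin m) (MvPolynomial (Fin d) k)) {sep : Prop} :
    FT sep (secGL M) := by
  have := ft_away (R := k) (MvPolynomial (Fin d) k) M.det
  exact ft_aff sep

/-- A piece is zero or a direct summand. -/
lemma piece_ret (hT : IsTensor D T) (M : Matrix (Fin m) (Fin m) (MvPolynomial (Fin d) k))
    (w j : ℤ) : IsZero (D.H (secGL M) w j) ∨ Ret (D.H (secGL M) w j) (hSec D M) := by
  by_cases h : w < 0 ∨ 2 * d < w ∨ j < 0 ∨ 2 * d < j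
  · exact Or.inl (hT.range d M.det w j h)
  · right
    push Not at h
    obtain ⟨h1, h2, h3, h4⟩ := h
    obtain ⟨w', rfl⟩ := Int.eq_ofNat_of_zero_le h1
    obtain ⟨j', rfl⟩ := Int.eq_ofNat_of_zero_le h3
    have hw : w' < 2 * d + 1 := by omega
    have hj : j' < 2 * d + 1 := by omega
    exact Ret.one' (fun p : Fin (2 * d + 1) × Fin (2 * d + 1) =>
      D.H (secGL M) (p.1 : ℕ) (p.2 : ℕ)) (⟨w', hw⟩, ⟨j', hj⟩)

/-- isomorphic schemes -/
lemma tot_iso (hD : IsGraded D) {X Y : Sch k} (hX : FT True X) (h : Nonempty (X ≅ Y)) (b : ℕ) :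
    Nonempty (tot D X b ≅ tot D Y b) :=
  ⟨biproduct.mapIso fun p => (hD.iso hX h (p.1 : ℕ) (p.2 : ℕ)).some⟩

/-- the Künneth formula for sections -/
lemma kun (hD : IsGraded D) (hT : IsTensor D T) (M : Matrix (Fin m) (Fin m) (MvPolynomial (Fin d) k))
    (N : Matrix (Fin n) (Fin n) (MvPolynomial (Fin e) k)) :
    RS (toSkeleton (hSec D M) * toSkeleton (hSec D N)) (toSkeleton (hSec D (dsum M N))) := by
  have h1 := ft_away (R := k) (MvPolynomial (Fin d) k) M.det
  have h2 := ft_away (R := k) (MvPolynomial (Fin e) k) N.det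
  have h := hT.kunneth (Localization.Away M.det) (Localization.Away N.det) (2 * d) (2 * e)
  have h3 : secGL (dsum M N) = aff k (Localization.Away (pr M.det N.det)) := by
    rw [secGL, det_dsum]
  have h4 : Nonempty (secGL (dsum M N) ≅ aff k (Tn M.det N.det)) := by
    rw [h3]
    exact ⟨(affIso (prodE M.det N.det)).symm⟩
  obtain ⟨i⟩ := tot_iso hD (ft_s (dsum M N)) h4 (2 * d + 2 * e)
  rw [← Skeleton.toSkeleton_tensorObj]
  refine rs_of (Ret.trans h ?_)
  have h5 : hSec D (dsum M N) = tot D (secGL (dsum M N)) (2 * d + 2 * e) := by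
    rw [hSec, Nat.mul_add]
  rw [h5]
  exact Ret.of_iso i.symm

lemma ret_top (hT : IsTensor D T) (hM : M.det ≠ 0) :
    RS (toSkeleton T ^ d) (toSkeleton (hSec D M)) := by
  obtain ⟨i⟩ := hT.top d M.det hM
  rw [← sk_tw hT d]
  refine rs_of ((Ret.of_iso i.symm).trans ?_)
  have hw : 2 * d < 2 * d + 1 := by omega
  have h := Ret.one' (fun p : Fin (2 * d + 1) × Fin (2 * d + 1) =>
      D.H (secGL M) (p.1 : ℕ) (p.2 : ℕ)) (⟨2 * d, hw⟩, ⟨2 * d, hw⟩)
  have h2 : D.H (secGL M) ((2 * d : ℕ) : ℤ) ((2 * d : ℕ) : ℤ) =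
      D.H (aff k (Localization.Away M.det)) (2 * d) (2 * d) := by
    push_cast
    rfl
  rw [← h2]
  exact h

lemma one1_ne : (one1 : Matrix (Fin 1) (Fin 1) (MvPolynomial (Fin 1) k)).det ≠ 0 := by
  rw [det_one1]
  exact X_ne_zero 0

/-- the motive of the multiplicative group -/
lemma ret_gm (hT : IsTensor D T) :
    Ret (𝟙_ C ⊞ T) (hSec D (one1 : Matrix (Fin 1) (Fin 1) (MvPolynomial (Fin 1) k))) := by
  let M : Matrix (Fin 1) (Fin 1) (MvPolynomial (Fin 1) k) := one1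
  have h : secGL M = aff k (Localization.Away (X 0 : MvPolynomial (Fin 1) k)) := by
    rw [secGL, det_one1]
  let f : Fin (2 * 1 + 1) × Fin (2 * 1 + 1) → C := fun p => D.H (secGL M) (p.1 : ℕ) (p.2 : ℕ)
  have h1 := Ret.bi f (p := (0, 1)) (q := (2, 2)) (by decide)
  refine Ret.trans (Ret.sum ?_ ?_) h1
  · obtain ⟨i⟩ := hT.torus
    obtain ⟨i'⟩ := hT.one
    have h2 : f (0, 1) = D.H (aff k (Localization.Away (X 0 : MvPolynomial (Fin 1) k))) 0 1 := by
      change D.H (secGL M) _ _ = _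
      rw [h]
      rfl
    rw [h2]
    exact Ret.of_iso (i ≪≫ i').symm
  · obtain ⟨i⟩ := hT.top 1 M.det one1_ne
    have h2 : f (2, 2) = D.H (aff k (Localization.Away M.det)) (2 * (1 : ℕ)) (2 * (1 : ℕ)) := rfl
    rw [h2]
    refine (of_rs ?_ : Ret T (Pool.Agent.Y691.TU.tw D.L 1 D.one)).trans (Ret.of_iso i.symm)
    rw [sk_tw hT, pow_one]
    exact rs_refl _

lemma gm_one (hT : IsTensor D T) : RS 1
    (toSkeleton (hSec D (one1 : Matrix (Fin 1) (Fin 1) (MvPolynomial (Fin 1) k)))) := by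
  rw [Skeleton.one_eq]
  exact rs_of (Ret.trans ⟨biprod.inl, biprod.fst, biprod.inl_fst⟩ (ret_gm hT))

lemma gm_T (hT : IsTensor D T) : RS (toSkeleton T)
    (toSkeleton (hSec D (one1 : Matrix (Fin 1) (Fin 1) (MvPolynomial (Fin 1) k)))) :=
  rs_of (Ret.trans ⟨biprod.inr, biprod.snd, biprod.inr_snd⟩ (ret_gm hT))

lemma det_dsum_ne (hM : M.det ≠ 0) (hN : N.det ≠ 0) : (dsum M N).det ≠ 0 := by
  rw [det_dsum]
  refine mul_ne_zero ?_ ?_
  · exact (map_ne_zero_iff _ (rename_injective _ (Fin.castAdd_injective d e))).mpr hM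
  · exact (map_ne_zero_iff _ (rename_injective _ (Fin.natAdd_injective e d))).mpr hN

/-- sparse patterns with nonzero determinant -/
structure Good (S : Set k) {d m : ℕ} (M : Matrix (Fin m) (Fin m) (MvPolynomial (Fin d) k)) :
    Prop where
  pat : IsPat S M
  thin : Thin M
  det : M.det ≠ 0

lemma good_dsum (h0 : (0 : k) ∈ S) (hM : Good S M) (hN : Good S N) : Good S (dsum M N) :=
  ⟨isPat_dsum h0 hM.pat hN.pat, thin_dsum hM.thin hN.thin, det_dsum_ne hM.det hN.det⟩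

lemma good_one1 : Good S (one1 : Matrix (Fin 1) (Fin 1) (MvPolynomial (Fin 1) k)) :=
  ⟨isPat_one1, thin_one1, one1_ne⟩

end main

end Pool.Agent.Y456.LG
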