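import Pool.Agent.Y456.LG.Full
import Mathlib.CategoryTheory.Preadditive.Schur

/-!
# Simple objects and the pieces of one section
-/

set_option autoImplicit false

open CategoryTheory CategoryTheory.Limits MonoidalCategory AlgebraicGeometry MvPolynomial

namespace Pool.Agent.Y456.LG

open Pool.Agent.Y116.UV Pool.Agent.Y101.Th Pool.Agent.Y691.TU Pool.Agent.Z125.UN

universe v u

section

variable {C : Type u} [Category.{v} C] [Abelian C] [HasFiniteBiproducts C]

/-- A simple direct summand of a finite direct sum is a direct summand of one term. -/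
lemma ret_term {J : Type} [Finite J] {B : C} [Simple B] {A : J → C} (h : Ret B (⨁ A)) :
    ∃ j, Ret B (A j) := by
  obtain ⟨s, r, hsr⟩ := h
  by_contra hcon
  push Not at hcon
  have h0 : ∀ j, (s ≫ biproduct.π A j) ≫ (biproduct.ι A j ≫ r) = 0 := by
    intro j
    by_contra hj
    have hiso : IsIso ((s ≫ biproduct.π A j) ≫ (biproduct.ι A j ≫ r)) :=
      isIso_of_hom_simple hj
    refine hcon j ⟨s ≫ biproduct.π A j, (biproduct.ι A j ≫ r) ≫
      inv ((s ≫ biproduct.π A j) ≫ (biproduct.ι A j ≫ r)), ?_⟩
    rw [← Category.assoc]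
    exact IsIso.hom_inv_id _
  have h1 : s ≫ r = 0 := by
    have := Fintype.ofFinite J
    have h2 : s ≫ (∑ j, biproduct.π A j ≫ biproduct.ι A j) ≫ r = s ≫ r := by
      rw [biproduct.total, Category.id_comp]
    rw [← h2, Preadditive.sum_comp, Preadditive.comp_sum]
    refine Finset.sum_eq_zero fun j _ => ?_
    have := h0 j
    simpa only [Category.assoc] using this
  rw [hsr] at h1
  exact id_nonzero B h1

lemma simple_tw {L : C ⥤ C} [L.IsEquivalence] {N : C} (h : Simple N) (n : ℕ) :
    Simple (Pool.Agent.Y691.TU.tw L n N) := by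
  induction n with
  | zero => exact h
  | succ n ih => exact simple_obj L _

end

section

variable {k : Type} [Field k] {S : Set k} {C : Type u} [Category.{v} C] [Abelian C]
  [HasFiniteBiproducts C] [MonoidalCategory C] [MonoidalPreadditive C] [BraidedCategory C]
  {D : Graded k C} [D.L.IsEquivalence] {T : C} {R : C → Prop}

/-- A Tate twist of a simple object is a direct summand of one piece of one sparse section. -/
theorem simple_piece (hS : Enough S) (hC : Semisimple C) (hD : IsGraded D) (hT : IsTensor D T)
    (N : C) (hN : Simple N) :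
    ∃ (n d m : ℕ) (M : Matrix (Fin m) (Fin m) (MvPolynomial (Fin d) k)) (w j : ℤ), Good S M ∧
      Ret (Pool.Agent.Y691.TU.tw D.L n N) (D.H (secGL M) w j) := by
  obtain ⟨n, d, m, M, h1, h2⟩ := summ_all hS hC hD hT N
  have := simple_tw (L := D.L) hN n
  obtain ⟨p, hp⟩ := ret_term h2
  exact ⟨n, d, m, M, _, _, h1, hp⟩

/-- A property of simple objects, section by section. -/
theorem simple_all (hS : Enough S) (hC : Semisimple C) (hD : IsGraded D) (hT : IsTensor D T) :
    (∀ N : C, Simple N → R N) ↔
      ∀ (d m : ℕ) (M : Matrix (Fin m) (Fin m) (MvPolynomial (Fin d) k)), Good S M →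
        ∀ w j : ℤ, Every D.L (fun B => Simple B → R B) (D.H (secGL M) w j) := by
  constructor
  · intro h d m M _ w j B B' s r _ _ hB
    exact h B' hB
  · intro h N hN
    obtain ⟨n, d, m, M, w, j, h1, s, r, h2⟩ := simple_piece hS hC hD hT N hN
    exact h d m M h1 w j _ N s r h2 ⟨n, 0, ⟨Iso.refl _⟩⟩ hN

/-- the complements of the hypersurfaces of the affine space of dimension `n + 1` -/
theorem every_sec [PerfectField k] (hk : Resolution k) (hC : Semisimple C) (hD : IsGraded D)
    (hR : Additive R) (h1 : Every D.L R D.one) (n : ℕ)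
    (h : ∀ X : Sch k, SmProj X → topologicalKrullDim X.left ≤ n → ∀ i, Every D.L R (D.H X i i))
    {m : ℕ} (M : Matrix (Fin m) (Fin m) (MvPolynomial (Fin (n + 1)) k)) (w j : ℤ) :
    Every D.L R (D.H (secGL M) w j) := by
  have hQ := stable_every hC hR h1
  have hB := bnd_pieces hC hD hQ
  refine away_of_dim hB (n := n) (fun A _ _ _ hA => ?_) M.det w j
  refine of_smproj hk hB n (fun X hX hd => (pieces_smproj hD hQ hX).mpr fun i => ?_) (aff k A)
    (ft_aff True) ?_
  · exact h X hX (by exact_mod_cast hd) i
  · rw [topDim_aff]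
    exact hA

end

end Pool.Agent.Y456.LG
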