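import Pool.Agent.Y456.LG.Simp

/-!
# Finite alphabets for number fields
-/

set_option autoImplicit false

open CategoryTheory CategoryTheory.Limits MonoidalCategory AlgebraicGeometry MvPolynomial

namespace Pool.Agent.Y456.LG

open Pool.Agent.Y116.UV Pool.Agent.Y101.Th Pool.Agent.Y691.TU Pool.Agent.Z125.UN

universe v u

section

variable {k : Type} [Field k] [CharZero k] {S : Set k}

lemma span_mul (h : Submodule.span ℚ S = ⊤) (x : k) :
    ∃ n : ℕ, n ≠ 0 ∧ (n : k) * x ∈ AddSubgroup.closure S := by
  have hx : x ∈ Submodule.span ℚ S := by rw [h]; trivial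
  induction hx using Submodule.span_induction with
  | mem x hx => exact ⟨1, one_ne_zero, by simpa using AddSubgroup.subset_closure hx⟩
  | zero => exact ⟨1, one_ne_zero, by simpa using AddSubgroup.zero_mem _⟩
  | add x y _ _ hx hy =>
    obtain ⟨n, hn, h1⟩ := hx
    obtain ⟨m, hm, h2⟩ := hy
    refine ⟨n * m, mul_ne_zero hn hm, ?_⟩
    have h3 : ((n * m : ℕ) : k) * (x + y) = m • ((n : k) * x) + n • ((m : k) * y) := by
      rw [nsmul_eq_mul, nsmul_eq_mul]
      push_cast
      ring
    rw [h3]
    exact AddSubgroup.add_mem _ (AddSubgroup.nsmul_mem _ h1 m) (AddSubgroup.nsmul_mem _ h2 n)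
  | smul q x _ hx =>
    obtain ⟨n, hn, h1⟩ := hx
    refine ⟨n * q.den, mul_ne_zero hn q.den_nz, ?_⟩
    have h3 : ((n * q.den : ℕ) : k) * (q • x) = q.num • ((n : k) * x) := by
      rw [Rat.smul_def, zsmul_eq_mul]
      have h4 : (q.den : k) * (q : k) = (q.num : k) := by
        have h5 := Rat.den_mul_eq_num q
        exact_mod_cast congrArg (fun z : ℚ => (z : k)) h5
      push_cast
      rw [← h4]
      ring
    rw [h3]
    exact AddSubgroup.zsmul_mem _ h1 _

/-- a set which spans the field over the rational numbers -/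
lemma enough_span (h0 : (0 : k) ∈ S) (h1 : (1 : k) ∈ S) (h : Submodule.span ℚ S = ⊤) :
    Enough S := by
  classical
  refine ⟨h0, h1, fun d g => ?_⟩
  choose n hn hS using fun m => span_mul h (coeff m g)
  refine ⟨((∏ m ∈ g.support, n m : ℕ) : k), ?_, fun m => ?_⟩
  · rw [isUnit_iff_ne_zero, Nat.cast_ne_zero]
    exact Finset.prod_ne_zero_iff.mpr fun m _ => hn m
  · rw [coeff_C_mul]
    by_cases hm : m ∈ g.support
    · rw [← Finset.mul_prod_erase _ _ hm]
      have h3 : ((n m * ∏ x ∈ g.support.erase m, n x : ℕ) : k) * coeff m g =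
          (∏ x ∈ g.support.erase m, n x) • ((n m : k) * coeff m g) := by
        rw [nsmul_eq_mul]
        push_cast
        ring
      rw [h3]
      exact AddSubgroup.nsmul_mem _ (hS m) _
    · rw [notMem_support_iff.mp hm, mul_zero]
      exact AddSubgroup.zero_mem _

end

section

variable {k : Type} [Field k] {S : Set k} {C : Type u} [Category.{v} C] [Abelian C]
  [HasFiniteBiproducts C] [MonoidalCategory C] [MonoidalPreadditive C] [BraidedCategory C]
  {D : Graded k C} {T : C} {R : C → Prop}

/-- A property of motives, section by section. -/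
theorem summ_iff (hS : Enough S) (hC : Semisimple C) (hD : IsGraded D) (hT : IsTensor D T) :
    (∀ N : C, R N) ↔
      ∀ (d m : ℕ) (M : Matrix (Fin m) (Fin m) (MvPolynomial (Fin d) k)), Good S M →
        Every D.L R (hSec D M) := by
  constructor
  · intro h d m M _ B B' s r _ _
    exact h B'
  · intro h N
    obtain ⟨n, d, m, M, h1, s, r, h2⟩ := summ_all hS hC hD hT N
    exact h d m M h1 _ N s r h2 ⟨n, 0, ⟨Iso.refl _⟩⟩

end

end Pool.Agent.Y456.LG
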