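import Pool.Agent.Y456.LG.Pat

/-!
# Sparse linear sections of `GL_m`: at most three nonzero entries in every row and column
-/

set_option autoImplicit false

open CategoryTheory AlgebraicGeometry MvPolynomial

namespace Pool.Agent.Y456.LG

open Pool.Agent.Y116.UV

section Split

variable {B : Type} [CommRing B]

open Classical in
/-- `1` for nonzero elements, `0` for zero -/
noncomputable def nz (x : B) : ℕ := if x = 0 then 0 else 1

lemma nz_zero : nz (0 : B) = 0 := if_pos rfl

lemma nz_le (x : B) : nz x ≤ 1 := by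
  unfold nz
  split_ifs <;> omega

/-- the number of nonzero entries of a row -/
noncomputable def rc {ι κ : Type} [Fintype κ] (M : Matrix ι κ B) (i : ι) : ℕ := ∑ j, nz (M i j)

/-- the number of nonzero entries of a column -/
noncomputable def cc {ι κ : Type} [Fintype ι] (M : Matrix ι κ B) (j : κ) : ℕ := ∑ i, nz (M i j)

lemma rc_eq {ι κ : Type} [Fintype κ] (M : Matrix ι κ B) (i : ι) :
    rc M i = {j | M i j ≠ 0}.ncard := by
  classical
  have h : {j | M i j ≠ 0} = ((Finset.univ.filter fun j => M i j ≠ 0 : Finset κ) : Set κ) := by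
    ext j
    simp
  rw [h, Set.ncard_coe_finset, Finset.card_filter]
  refine Finset.sum_congr rfl fun j _ => ?_
  unfold nz
  by_cases hj : M i j = 0 <;> simp [hj]

lemma cc_eq {ι κ : Type} [Fintype ι] (M : Matrix ι κ B) (j : κ) :
    cc M j = {i | M i j ≠ 0}.ncard := rc_eq M.transpose j

/-- the matrix of determinant one -/
noncomputable def un : Matrix (Fin 2) (Fin 2) B := !![1, 1; 0, 1]

/-- Splitting of a row. -/
lemma split {ι : Type} [Fintype ι] [DecidableEq ι] (M : Matrix ι ι B) (r : ι)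
    (hr : 4 ≤ rc M r) :
    ∃ M' : Matrix (ι ⊕ Fin 2) (ι ⊕ Fin 2) B,
      (∀ x y, M' x y = 0 ∨ M' x y = 1 ∨ ∃ i j, M' x y = M i j) ∧
      (∀ i j, ∃ x y, M' x y = M i j) ∧ M'.det = M.det ∧
      ∑ x, (rc M' x - 3) < ∑ i, (rc M i - 3) ∧
      (∀ j, cc M' (Sum.inl j) = cc M j) ∧ ∀ c, cc M' (Sum.inr c) ≤ 3 := by
  classical
  have hcard : rc M r = (Finset.univ.filter fun j => M r j ≠ 0).card := by
    rw [Finset.card_filter]
    refine Finset.sum_congr rfl fun j _ => ?_
    unfold nz
    by_cases hj : M r j = 0 <;> simp [hj]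
  obtain ⟨A, hA, hA2⟩ := Finset.exists_subset_card_eq (s := Finset.univ.filter fun j => M r j ≠ 0)
    (n := 2) (by omega)
  let A' : Matrix ι ι B := fun i j => if i = r then (if j ∈ A then M r j else 0) else M i j
  let B' : Matrix ι (Fin 2) B := fun i c => if i = r then (if c = 0 then 1 else 0) else 0
  let C' : Matrix (Fin 2) ι B := fun c j => if c = 1 then (if j ∈ A then 0 else M r j) else 0
  have hD : (un : Matrix (Fin 2) (Fin 2) B) * !![1, -1; 0, 1] = 1 := by
    ext i j
    fin_cases i <;> fin_cases j <;> simp [un, Matrix.mul_apply, Fin.sum_univ_two]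
  let _ : Invertible (un : Matrix (Fin 2) (Fin 2) B) :=
    ⟨!![1, -1; 0, 1], mul_eq_one_comm.mp hD, hD⟩
  have hinv : (⅟(un : Matrix (Fin 2) (Fin 2) B)) = !![1, -1; 0, 1] := rfl
  let M' : Matrix (ι ⊕ Fin 2) (ι ⊕ Fin 2) B := Matrix.fromBlocks A' B' C' un
  -- counting
  have hsum1 : ∑ j, nz (if j ∈ A then M r j else 0) = 2 := by
    rw [← hA2, Finset.card_eq_sum_ones, ← Finset.sum_filter_add_sum_filter_not Finset.univ (· ∈ A)]
    have h1 : ∑ j ∈ Finset.univ.filter (· ∉ A), nz (if j ∈ A then M r j else 0) = 0 := by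
      refine Finset.sum_eq_zero fun j hj => ?_
      rw [if_neg (Finset.mem_filter.mp hj).2, nz_zero]
    rw [h1, add_zero]
    have h2 : Finset.univ.filter (· ∈ A) = A := by
      ext j
      simp
    rw [h2]
    refine Finset.sum_congr rfl fun j hj => ?_
    have h3 := (Finset.mem_filter.mp (hA hj)).2
    rw [if_pos hj]
    unfold nz
    rw [if_neg h3]
  have hpt : ∀ j, nz (if j ∈ A then M r j else 0) + nz (if j ∈ A then 0 else M r j) = nz (M r j) := by
    intro j
    by_cases hj : j ∈ A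
    · simp only [if_pos hj, nz_zero, add_zero]
    · simp only [if_neg hj, nz_zero, zero_add]
  have hsum2 : 2 + ∑ j, nz (if j ∈ A then 0 else M r j) = rc M r := by
    rw [← hsum1, ← Finset.sum_add_distrib]
    exact Finset.sum_congr rfl fun j _ => hpt j
  have r1 : ∀ i, rc M' (Sum.inl i) = ∑ j, nz (A' i j) + (nz (B' i 0) + nz (B' i 1)) := by
    intro i
    unfold rc
    rw [Fintype.sum_sum_type, Fin.sum_univ_two]
    rfl
  have r2 : ∀ c, rc M' (Sum.inr c) = ∑ j, nz (C' c j) + (nz ((un : Matrix (Fin 2) (Fin 2) B) c 0) +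
      nz ((un : Matrix (Fin 2) (Fin 2) B) c 1)) := by
    intro c
    unfold rc
    rw [Fintype.sum_sum_type, Fin.sum_univ_two]
    rfl
  have c1 : ∀ j, cc M' (Sum.inl j) = ∑ i, nz (A' i j) + (nz (C' 0 j) + nz (C' 1 j)) := by
    intro j
    unfold cc
    rw [Fintype.sum_sum_type, Fin.sum_univ_two]
    rfl
  have c2 : ∀ c, cc M' (Sum.inr c) = ∑ i, nz (B' i c) + (nz ((un : Matrix (Fin 2) (Fin 2) B) 0 c) +
      nz ((un : Matrix (Fin 2) (Fin 2) B) 1 c)) := by
    intro c
    unfold cc
    rw [Fintype.sum_sum_type, Fin.sum_univ_two]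
    rfl
  have hne : ∀ i, i ≠ r → rc M' (Sum.inl i) = rc M i := by
    intro i hi
    rw [r1]
    have h1 : ∀ j, A' i j = M i j := fun j => if_neg hi
    have h2 : ∀ c, B' i c = 0 := fun c => if_neg hi
    rw [h2, h2, nz_zero]
    simp only [h1]
    rfl
  have hrr : rc M' (Sum.inl r) ≤ 3 := by
    rw [r1]
    have h1 : ∀ j, A' r j = if j ∈ A then M r j else 0 := fun j => if_pos rfl
    have h2 : B' r 1 = 0 := by
      change (if r = r then (if (1 : Fin 2) = 0 then (1 : B) else 0) else 0) = 0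
      rw [if_pos rfl, if_neg (by decide)]
    simp only [h1]
    rw [hsum1, h2, nz_zero]
    have := nz_le (B' r 0)
    omega
  have hr0 : rc M' (Sum.inr 0) ≤ 3 := by
    rw [r2]
    have h1 : ∀ j, C' 0 j = 0 := fun j => if_neg (by decide)
    simp only [h1, nz_zero, Finset.sum_const_zero, zero_add]
    have h2 := nz_le ((un : Matrix (Fin 2) (Fin 2) B) 0 0)
    have h3 := nz_le ((un : Matrix (Fin 2) (Fin 2) B) 0 1)
    omega
  have hr1 : rc M' (Sum.inr 1) + 1 ≤ rc M r := by
    rw [r2]
    have h1 : ∀ j, C' 1 j = if j ∈ A then 0 else M r j := fun j => if_pos rfl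
    have h2 : (un : Matrix (Fin 2) (Fin 2) B) 1 0 = 0 := rfl
    have h3 := nz_le ((un : Matrix (Fin 2) (Fin 2) B) 1 1)
    simp only [h1]
    rw [h2, nz_zero]
    omega
  refine ⟨M', ?_, ?_, ?_, ?_, ?_, ?_⟩
  · rintro (i | c) (j | c')
    · change A' i j = 0 ∨ A' i j = 1 ∨ _
      by_cases hi : i = r
      · by_cases hj : j ∈ A
        · refine Or.inr (Or.inr ⟨r, j, ?_⟩)
          change (if i = r then (if j ∈ A then M r j else 0) else M i j) = _
          rw [if_pos hi, if_pos hj]
        · left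
          change (if i = r then (if j ∈ A then M r j else 0) else M i j) = _
          rw [if_pos hi, if_neg hj]
      · exact Or.inr (Or.inr ⟨i, j, if_neg hi⟩)
    · change B' i c' = 0 ∨ B' i c' = 1 ∨ _
      by_cases hi : i = r
      · by_cases hj : c' = 0
        · refine Or.inr (Or.inl ?_)
          change (if i = r then (if c' = 0 then (1 : B) else 0) else 0) = _
          rw [if_pos hi, if_pos hj]
        · left
          change (if i = r then (if c' = 0 then (1 : B) else 0) else 0) = _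
          rw [if_pos hi, if_neg hj]
      · exact Or.inl (if_neg hi)
    · change C' c j = 0 ∨ C' c j = 1 ∨ _
      by_cases hi : c = 1
      · by_cases hj : j ∈ A
        · left
          change (if c = 1 then (if j ∈ A then 0 else M r j) else 0) = _
          rw [if_pos hi, if_pos hj]
        · refine Or.inr (Or.inr ⟨r, j, ?_⟩)
          change (if c = 1 then (if j ∈ A then 0 else M r j) else 0) = _
          rw [if_pos hi, if_neg hj]
      · exact Or.inl (if_neg hi)
    · change (un : Matrix (Fin 2) (Fin 2) B) c c' = 0 ∨ (un : Matrix (Fin 2) (Fin 2) B) c c' = 1 ∨ _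
      fin_cases c <;> fin_cases c'
      · exact Or.inr (Or.inl rfl)
      · exact Or.inr (Or.inl rfl)
      · exact Or.inl rfl
      · exact Or.inr (Or.inl rfl)
  · intro i j
    by_cases hi : i = r
    · by_cases hj : j ∈ A
      · refine ⟨Sum.inl r, Sum.inl j, ?_⟩
        change (if r = r then (if j ∈ A then M r j else 0) else M r j) = _
        rw [if_pos rfl, if_pos hj, hi]
      · refine ⟨Sum.inr 1, Sum.inl j, ?_⟩
        change (if (1 : Fin 2) = 1 then (if j ∈ A then 0 else M r j) else 0) = _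
        rw [if_pos rfl, if_neg hj, hi]
    · exact ⟨Sum.inl i, Sum.inl j, if_neg hi⟩
  · change (Matrix.fromBlocks A' B' C' un).det = _
    rw [Matrix.det_fromBlocks₂₂, hinv]
    have h1 : (un : Matrix (Fin 2) (Fin 2) B).det = 1 := by
      rw [un, Matrix.det_fin_two_of]
      ring
    rw [h1, one_mul]
    congr 1
    ext i j
    rw [Matrix.sub_apply, Matrix.mul_apply, Fin.sum_univ_two, Matrix.mul_apply, Matrix.mul_apply,
      Fin.sum_univ_two, Fin.sum_univ_two]
    by_cases hi : i = r
    · by_cases hj : j ∈ A <;> simp [A', B', C', hi, hj]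
    · simp [A', B', hi]
  · rw [Fintype.sum_sum_type, Fin.sum_univ_two, Nat.sub_eq_zero_of_le hr0, zero_add]
    have h1 : rc M' (Sum.inr 1) - 3 = ∑ i, if i = r then rc M' (Sum.inr 1) - 3 else 0 := by
      rw [Finset.sum_ite_eq' Finset.univ r, if_pos (Finset.mem_univ r)]
    rw [h1, ← Finset.sum_add_distrib]
    refine Finset.sum_lt_sum (fun i _ => ?_) ⟨r, Finset.mem_univ r, ?_⟩
    · by_cases hi : i = r
      · rw [if_pos hi, hi]
        omega
      · rw [if_neg hi, hne i hi, add_zero]
    · rw [if_pos rfl]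
      omega
  · intro j
    rw [c1]
    have h0 : C' 0 j = 0 := if_neg (by decide)
    have h1 : C' 1 j = if j ∈ A then 0 else M r j := if_pos rfl
    rw [h0, nz_zero, zero_add, h1]
    have h2 : nz (if j ∈ A then 0 else M r j) =
        ∑ i, if i = r then nz (if j ∈ A then 0 else M r j) else 0 := by
      rw [Finset.sum_ite_eq' Finset.univ r, if_pos (Finset.mem_univ r)]
    rw [h2, ← Finset.sum_add_distrib]
    refine Finset.sum_congr rfl fun i _ => ?_
    by_cases hi : i = r
    · have h3 : A' i j = if j ∈ A then M r j else 0 := if_pos hi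
      rw [if_pos hi, h3, hpt, hi]
    · have h3 : A' i j = M i j := if_neg hi
      rw [if_neg hi, h3, add_zero]
  · intro c
    rw [c2]
    have h1 : ∑ i, nz (B' i c) ≤ 1 := by
      calc ∑ i, nz (B' i c) ≤ ∑ i, (if i = r then 1 else 0) := by
            refine Finset.sum_le_sum fun i _ => ?_
            by_cases hi : i = r
            · rw [if_pos hi]
              exact nz_le _
            · have h3 : B' i c = 0 := if_neg hi
              rw [if_neg hi, h3, nz_zero]
        _ = 1 := by rw [Finset.sum_ite_eq' Finset.univ r, if_pos (Finset.mem_univ r)]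
    have h2 := nz_le ((un : Matrix (Fin 2) (Fin 2) B) 0 c)
    have h3 := nz_le ((un : Matrix (Fin 2) (Fin 2) B) 1 c)
    omega

/-- at most three nonzero entries in every row -/
theorem rows {Q : B → Prop} (h0 : Q 0) (h1 : Q 1) (n : ℕ) :
    ∀ (ι : Type) [Fintype ι] [DecidableEq ι] (M : Matrix ι ι B), ∑ i, (rc M i - 3) = n →
      (∀ i j, Q (M i j)) →
      ∃ (κ : Type) (_ : Fintype κ) (_ : DecidableEq κ) (M' : Matrix κ κ B), (∀ x y, Q (M' x y)) ∧
        (∀ i j, ∃ x y, M' x y = M i j) ∧ M'.det = M.det ∧ (∀ x, rc M' x ≤ 3) ∧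
        ((∀ j, cc M j ≤ 3) → ∀ y, cc M' y ≤ 3) := by
  induction n using Nat.strong_induction_on with
  | _ n ih =>
    intro ι _ _ M hn hM
    by_cases h : ∀ i, rc M i ≤ 3
    · exact ⟨ι, inferInstance, inferInstance, M, hM, fun i j => ⟨i, j, rfl⟩, rfl, h, fun h => h⟩
    · push Not at h
      obtain ⟨r, hr⟩ := h
      obtain ⟨M', e1, e2, e3, e4, e5, e6⟩ := split M r hr
      obtain ⟨κ, i1, i2, M'', f1, f2, f3, f4, f5⟩ := ih _ (by rw [← hn]; exact e4) (ι ⊕ Fin 2) M' rfl
        (by
          intro x y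
          rcases e1 x y with h | h | ⟨i, j, h⟩
          · rw [h]
            exact h0
          · rw [h]
            exact h1
          · rw [h]
            exact hM i j)
      refine ⟨κ, i1, i2, M'', f1, ?_, f3.trans e3, f4, ?_⟩
      · intro i j
        obtain ⟨x, y, hxy⟩ := e2 i j
        obtain ⟨x', y', h'⟩ := f2 x y
        exact ⟨x', y', h'.trans hxy⟩
      · intro hc
        refine f5 ?_
        rintro (j | c)
        · rw [e5]
          exact hc j
        · exact e6 c

/-- at most three nonzero entries in every row and column -/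
theorem rows_cols {Q : B → Prop} (h0 : Q 0) (h1 : Q 1) (ι : Type) [Fintype ι] [DecidableEq ι]
    (M : Matrix ι ι B) (hM : ∀ i j, Q (M i j)) :
    ∃ (κ : Type) (_ : Fintype κ) (_ : DecidableEq κ) (M' : Matrix κ κ B), (∀ x y, Q (M' x y)) ∧
      (∀ i j, ∃ x y, M' x y = M i j) ∧ M'.det = M.det ∧ (∀ x, rc M' x ≤ 3) ∧
      ∀ y, cc M' y ≤ 3 := by
  obtain ⟨κ, _, _, N, a1, a2, a3, a4, -⟩ := rows h0 h1 _ ι M.transpose rfl fun i j => hM j i
  obtain ⟨κ', i1, i2, N', b1, b2, b3, b4, b5⟩ := rows h0 h1 _ κ N.transpose rfl fun i j => a1 j i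
  refine ⟨κ', i1, i2, N', b1, ?_, ?_, b4, b5 fun j => a4 j⟩
  · intro i j
    obtain ⟨x, y, hxy⟩ := a2 j i
    obtain ⟨x', y', h'⟩ := b2 y x
    exact ⟨x', y', h'.trans hxy⟩
  · rw [b3, Matrix.det_transpose, a3, Matrix.det_transpose]

end Split

variable {R : Type} [CommRing R] {S : Set R}

/-- At most three entries different from zero in every row and in every column. -/
def Thin {B : Type} [CommRing B] {m : ℕ} (M : Matrix (Fin m) (Fin m) B) : Prop :=
  (∀ i, {j | M i j ≠ 0}.ncard ≤ 3) ∧ ∀ j, {i | M i j ≠ 0}.ncard ≤ 3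

/-- A sparse form of Valiant's theorem. -/
theorem thin_of_rep (h0 : 0 ∈ S) (h1 : 1 ∈ S) {d : ℕ} {g : MvPolynomial (Fin d) R}
    (hg : RepS S g) :
    ∃ (m : ℕ) (M : Matrix (Fin m) (Fin m) (MvPolynomial (Fin d) R)), IsPat S M ∧ Thin M ∧
      M.det = -g := by
  classical
  obtain ⟨m, M, hM, hdet⟩ := pat_of_rep h0 h1 hg
  obtain ⟨κ, _, _, N, e1, e2, e3, e4, e5⟩ := rows_cols (Q := IsC S) (isC_zero h0) (isC_one h1)
    (Fin m) M fun i j => hM.entry i j
  let e := Fintype.equivFin κ
  have hr : ∀ i, rc (Matrix.reindex e e N) i = rc N (e.symm i) := by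
    intro i
    unfold rc
    exact e.symm.sum_comp fun j => nz (N (e.symm i) j)
  have hc : ∀ i, cc (Matrix.reindex e e N) i = cc N (e.symm i) := by
    intro i
    unfold cc
    exact e.symm.sum_comp fun j => nz (N j (e.symm i))
  refine ⟨_, Matrix.reindex e e N, ⟨?_, ?_⟩, ⟨?_, ?_⟩, ?_⟩
  · intro i j
    exact e1 (e.symm i) (e.symm j)
  · intro k
    obtain ⟨i, j, hij⟩ := hM.occurs k
    obtain ⟨x, y, hxy⟩ := e2 i j
    refine ⟨e x, e y, ?_⟩
    change N (e.symm (e x)) (e.symm (e y)) = _
    rw [e.symm_apply_apply, e.symm_apply_apply, hxy, hij]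
  · intro i
    rw [← rc_eq, hr]
    exact e4 _
  · intro j
    rw [← cc_eq, hc]
    exact e5 _
  · rw [Matrix.det_reindex_self, e3, hdet]

/-- A sparse form of Valiant's theorem for all polynomials. -/
theorem exists_thin (h0 : 0 ∈ S) (h1 : 1 ∈ S) (hS : AddSubgroup.closure S = ⊤) {d : ℕ}
    (g : MvPolynomial (Fin d) R) :
    ∃ (m : ℕ) (M : Matrix (Fin m) (Fin m) (MvPolynomial (Fin d) R)), IsPat S M ∧ Thin M ∧
      M.det = -g :=
  thin_of_rep h0 h1 (reps_all h0 h1 hS g)

variable {sep : Prop} {P : Sch R → Prop} {d : ℕ}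

/-- the sparse sections have the property -/
def ForThin (S : Set R) (P : Sch R → Prop) (d : ℕ) : Prop :=
  ∀ (m : ℕ) (M : Matrix (Fin m) (Fin m) (MvPolynomial (Fin d) R)), IsPat S M → Thin M →
    P (secGL M)

/-- complements of hypersurfaces -/
theorem thin_away (h0 : 0 ∈ S) (h1 : 1 ∈ S) (hS : AddSubgroup.closure S = ⊤)
    (hiso : ∀ {X Y : Sch R}, FT sep X → Nonempty (X ≅ Y) → P X → P Y)
    (h : ForThin S P d) (g : MvPolynomial (Fin d) R) : P (aff R (Localization.Away g)) := by
  obtain ⟨m, M, hM, hT, hdet⟩ := exists_thin h0 h1 hS g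
  have h4 := h _ M hM hT
  have h5 : IsLocalization.Away g (Localization.Away M.det) := by
    have hu : Associated M.det g := by
      rw [hdet]
      exact ⟨-1, by simp⟩
    exact IsLocalization.Away.of_associated hu
  have := ft_away (R := R) (MvPolynomial (Fin d) R) M.det
  obtain ⟨e⟩ := away_iso (R := R) g (S := Localization.Away M.det) (T := Localization.Away g)
  exact hiso (ft_aff sep) ⟨(affIso e).symm⟩ h4

/-- closed subschemes of the affine space -/
theorem thin_ideal [IsNoetherianRing R] (h0 : 0 ∈ S) (h1 : 1 ∈ S)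
    (hS : AddSubgroup.closure S = ⊤) (hP : Dev sep P) (h : ForThin S P d)
    (I : Ideal (MvPolynomial (Fin d) R)) : P (aff R (MvPolynomial (Fin d) R ⧸ I)) := by
  obtain ⟨G, hG⟩ := (isNoetherianRing_iff_ideal_fg _).mp (inferInstance :
    IsNoetherianRing (MvPolynomial (Fin d) R)) I
  have h2 : Ideal.span {x | x ∈ G.toList} = I := by
    rw [← hG]
    congr 1
    ext x
    simp
  rw [← h2]
  exact quot_of_list hP _ _ G.toList rfl fun M _ => thin_away h0 h1 hS hP.iso h M.prod

/-- rings generated by `d` elements -/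
theorem thin_gen [IsNoetherianRing R] (h0 : 0 ∈ S) (h1 : 1 ∈ S)
    (hS : AddSubgroup.closure S = ⊤) (hP : Dev sep P) (h : ForThin S P d)
    (A : Type) [CommRing A] [Algebra R A] (φ : MvPolynomial (Fin d) R →ₐ[R] A)
    (hφ : Function.Surjective φ) : P (aff R A) :=
  iso_alg hP (Ideal.quotientKerAlgEquivOfSurjective hφ) (thin_ideal h0 h1 hS hP h _)

/-- all schemes of finite type -/
theorem thin_all [IsNoetherianRing R] (h0 : 0 ∈ S) (h1 : 1 ∈ S)
    (hS : AddSubgroup.closure S = ⊤) (hP : Dev sep P) (h : ∀ d, ForThin S P d)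
    (X : Sch R) (hX : FT sep X) : P X := by
  refine of_affine' hP.iso hP.total ?_ X hX
  intro A _ _ hA
  obtain ⟨d, φ, hφ⟩ := Algebra.FiniteType.iff_quotient_mvPolynomial''.mp hA
  exact thin_gen h0 h1 hS hP (h d) A φ hφ

end Pool.Agent.Y456.LG
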