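import Pool.Agent.Y456.LG.Tann

/-!
# Every pure motive is, up to a Tate twist, a direct summand of the motive of one section
-/

set_option autoImplicit false

open CategoryTheory CategoryTheory.Limits MonoidalCategory AlgebraicGeometry MvPolynomial
open scoped TensorProduct

namespace Pool.Agent.Y456.LG

open Pool.Agent.Y116.UV Pool.Agent.Y101.Th Pool.Agent.Y691.TU Pool.Agent.Z125.UN

universe v u

variable {k : Type} [Field k] {S : Set k} {C : Type u} [Category.{v} C] [Abelian C]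
  [HasFiniteBiproducts C] [MonoidalCategory C] [BraidedCategory C] {D : Graded k C} {T : C}

omit [HasFiniteBiproducts C] [BraidedCategory C] in
/-- distributivity -/
lemma ret_distrib [MonoidalPreadditive C] {A B X Z Q Y : C} (h : Ret (A ⊗ Q) (X ⊗ Y))
    (h' : Ret (B ⊗ Q) (Z ⊗ Y)) : Ret ((A ⊞ B) ⊗ Q) ((X ⊞ Z) ⊗ Y) := by
  obtain ⟨s, r, hs⟩ := h
  obtain ⟨s', r', hs'⟩ := h'
  have a1 : (biprod.inl : X ⟶ X ⊞ Z) ▷ Y ≫ biprod.fst ▷ Y = 𝟙 _ := by
    rw [← MonoidalCategory.comp_whiskerRight, biprod.inl_fst, MonoidalCategory.id_whiskerRight]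
  have a2 : (biprod.inl : X ⟶ X ⊞ Z) ▷ Y ≫ biprod.snd ▷ Y = 0 := by
    rw [← MonoidalCategory.comp_whiskerRight, biprod.inl_snd, MonoidalPreadditive.zero_whiskerRight]
  have a3 : (biprod.inr : Z ⟶ X ⊞ Z) ▷ Y ≫ biprod.fst ▷ Y = 0 := by
    rw [← MonoidalCategory.comp_whiskerRight, biprod.inr_fst, MonoidalPreadditive.zero_whiskerRight]
  have a4 : (biprod.inr : Z ⟶ X ⊞ Z) ▷ Y ≫ biprod.snd ▷ Y = 𝟙 _ := by
    rw [← MonoidalCategory.comp_whiskerRight, biprod.inr_snd, MonoidalCategory.id_whiskerRight]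
  have a5 : (biprod.fst : A ⊞ B ⟶ A) ▷ Q ≫ biprod.inl ▷ Q +
      (biprod.snd : A ⊞ B ⟶ B) ▷ Q ≫ biprod.inr ▷ Q = 𝟙 _ := by
    rw [← MonoidalCategory.comp_whiskerRight, ← MonoidalCategory.comp_whiskerRight,
      ← MonoidalPreadditive.add_whiskerRight, biprod.total, MonoidalCategory.id_whiskerRight]
  refine ⟨(biprod.fst ▷ Q ≫ s) ≫ biprod.inl ▷ Y + (biprod.snd ▷ Q ≫ s') ≫ biprod.inr ▷ Y,
    biprod.fst ▷ Y ≫ (r ≫ biprod.inl ▷ Q) + biprod.snd ▷ Y ≫ (r' ≫ biprod.inr ▷ Q), ?_⟩
  rw [Preadditive.add_comp, Preadditive.comp_add, Preadditive.comp_add]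
  simp only [Category.assoc]
  rw [reassoc_of% a1, reassoc_of% a2, reassoc_of% a3, reassoc_of% a4]
  simp only [zero_comp, comp_zero, add_zero, zero_add]
  rw [reassoc_of% hs, reassoc_of% hs', a5]

/-- all small powers in one section -/
lemma powers (h0 : (0 : k) ∈ S) (hD : IsGraded D) (hT : IsTensor D T) (s : ℕ) :
    ∃ (d m : ℕ) (P : Matrix (Fin m) (Fin m) (MvPolynomial (Fin d) k)), Good S P ∧
      ∀ i ≤ s, RS (toSkeleton T ^ i) (toSkeleton (hSec D P)) := by
  induction s with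
  | zero =>
    refine ⟨1, 1, one1, good_one1, fun i hi => ?_⟩
    rw [Nat.le_zero.mp hi, pow_zero]
    exact gm_one hT
  | succ s ih =>
    obtain ⟨d, m, P, hP, h⟩ := ih
    refine ⟨_, _, dsum P one1, good_dsum h0 hP good_one1, fun i hi => ?_⟩
    rcases Nat.le_succ_iff.mp hi with hi | rfl
    · have h1 := rs_trans (rs_mul (h i hi) (gm_one hT)) (kun hD hT P one1)
      rwa [mul_one] at h1
    · rw [pow_succ]
      exact rs_trans (rs_mul (h s le_rfl) (gm_T hT)) (kun hD hT P one1)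

/-- A Tate twist of the object is a direct summand of the motive of a section. -/
def Summ (S : Set k) (D : Graded k C) (T : C) (A : C) : Prop :=
  ∃ (n d m : ℕ) (M : Matrix (Fin m) (Fin m) (MvPolynomial (Fin d) k)),
    Good S M ∧ RS (toSkeleton A * toSkeleton T ^ n) (toSkeleton (hSec D M))

lemma summ_one {A : C} (hT : IsTensor D T) (h : RS (toSkeleton A) 1) : Summ S D T A := by
  refine ⟨0, 1, 1, one1, good_one1, ?_⟩
  rw [pow_zero, mul_one]
  exact rs_trans h (gm_one hT)

lemma stable_summ [MonoidalPreadditive C] (h0 : (0 : k) ∈ S) (hD : IsGraded D)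
    (hT : IsTensor D T) : Stable D fun _ A => Summ S D T A where
  zero _ A hA := by
    refine summ_one hT ?_
    rw [Skeleton.one_eq]
    exact rs_of ⟨(0 : A ⟶ 𝟙_ C), 0, hA.eq_of_src _ _⟩
  summand _ A B s r hs hB := by
    obtain ⟨n, d, m, M, h1, h2⟩ := hB
    exact ⟨n, d, m, M, h1, rs_trans (rs_mul (rs_of ⟨s, r, hs⟩) (rs_refl _)) h2⟩
  unit := by
    obtain ⟨i⟩ := hT.one
    refine summ_one hT ?_
    rw [Skeleton.one_eq]
    exact rs_of (Ret.of_iso i)
  twist _ A := by
    obtain ⟨i⟩ := hT.twist A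
    have h : toSkeleton (D.L.obj A) = toSkeleton A * toSkeleton T := by
      rw [← Skeleton.toSkeleton_tensorObj]
      exact congr_toSkeleton_of_iso i
    constructor
    · rintro ⟨n, d, m, M, h1, h2⟩
      refine ⟨n + 1, d, m, M, h1, ?_⟩
      rw [h, mul_assoc, ← pow_succ'] at h2
      exact h2
    · rintro ⟨n, d, m, M, h1, h2⟩
      refine ⟨n, _, _, dsum M one1, good_dsum h0 h1 good_one1, ?_⟩
      rw [h, mul_right_comm]
      exact rs_trans (rs_mul h2 (gm_T hT)) (kun hD hT M one1)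
  sum _ A B hA hB := by
    obtain ⟨n, d, m, M, hM, hA⟩ := hA
    obtain ⟨n', e, m', N, hN, hB⟩ := hB
    obtain ⟨f, l, P, hP, hPi⟩ := powers (D := D) h0 hD hT (max (d + n' + 1) (n + e))
    set t := toSkeleton T with ht
    let G : Matrix (Fin 1) (Fin 1) (MvPolynomial (Fin 1) k) := one1
    let K := dsum G (dsum P (dsum M N))
    have hK : Good S K := good_dsum h0 good_one1 (good_dsum h0 hP (good_dsum h0 hM hN))
    let Y : C := hSec D P ⊗ (hSec D M ⊗ hSec D N)
    have hY : toSkeleton Y = toSkeleton (hSec D P) *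
        (toSkeleton (hSec D M) * toSkeleton (hSec D N)) := by
      rw [Skeleton.toSkeleton_tensorObj, Skeleton.toSkeleton_tensorObj]
    have hGY : RS (toSkeleton (hSec D G) * toSkeleton Y) (toSkeleton (hSec D K)) := by
      rw [hY]
      exact rs_trans (rs_mul (rs_refl _) (rs_trans (rs_mul (rs_refl _) (kun hD hT M N))
        (kun hD hT P (dsum M N)))) (kun hD hT G (dsum P (dsum M N)))
    let c := n + e + (d + n' + 1)
    -- the two summands
    have hu1 : RS (toSkeleton A * t ^ c) (toSkeleton Y) := by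
      have h1 := rs_mul (hPi (d + n' + 1) (le_max_left _ _)) (rs_mul hA (ret_top hT hN.det))
      rw [← hY] at h1
      have h2 : t ^ (d + n' + 1) * (toSkeleton A * t ^ n * t ^ e) = toSkeleton A * t ^ c := by
        simp only [c, pow_add]
        ac_rfl
      rwa [h2] at h1
    have hu2 : RS (toSkeleton B * t ^ c) (t * toSkeleton Y) := by
      have h1 := rs_mul (rs_refl t) (rs_mul (hPi (n + e) (le_max_right _ _))
        (rs_mul (ret_top hT hM.det) hB))
      rw [← hY] at h1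
      have h2 : t * (t ^ (n + e) * (t ^ d * (toSkeleton B * t ^ n'))) = toSkeleton B * t ^ c := by
        simp only [c, pow_add, pow_one]
        ac_rfl
      rwa [h2] at h1
    -- the power of the Tate object
    obtain ⟨Tc, hTc⟩ := Quotient.exists_rep (t ^ c)
    have hTc' : toSkeleton Tc = t ^ c := hTc
    have h3 : Ret (A ⊗ Tc) (𝟙_ C ⊗ Y) := by
      refine of_rs ?_
      rw [Skeleton.toSkeleton_tensorObj, hTc', Skeleton.toSkeleton_tensorObj, ← Skeleton.one_eq,
        one_mul]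
      exact hu1
    have h4 : Ret (B ⊗ Tc) (T ⊗ Y) := by
      refine of_rs ?_
      rw [Skeleton.toSkeleton_tensorObj, hTc', Skeleton.toSkeleton_tensorObj]
      exact hu2
    have h5 : Ret ((A ⊞ B) ⊗ Tc) ((𝟙_ C ⊞ T) ⊗ Y) := ret_distrib h3 h4
    refine ⟨c, _, _, K, hK, ?_⟩
    rw [← hTc', ← Skeleton.toSkeleton_tensorObj]
    refine rs_trans (rs_of h5) (rs_trans ?_ hGY)
    rw [Skeleton.toSkeleton_tensorObj]
    exact rs_mul (rs_of (ret_gm hT)) (rs_refl _)

lemma sk_twA (hT : IsTensor D T) (A : C) (n : ℕ) :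
    toSkeleton (Pool.Agent.Y691.TU.tw D.L n A) = toSkeleton A * toSkeleton T ^ n := by
  induction n with
  | zero =>
    rw [pow_zero, mul_one]
    rfl
  | succ n ih =>
    obtain ⟨e⟩ := hT.twist (Pool.Agent.Y691.TU.tw D.L n A)
    rw [pow_succ, ← mul_assoc, ← ih, ← Skeleton.toSkeleton_tensorObj]
    exact congr_toSkeleton_of_iso e

/-- Every object is, up to a Tate twist, a direct summand of the motive of one sparse linear section
of `GL_m`. -/
theorem summ_all [MonoidalPreadditive C] (hS : Enough S) (hC : Semisimple C) (hD : IsGraded D)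
    (hT : IsTensor D T) (N : C) :
    ∃ (n d m : ℕ) (M : Matrix (Fin m) (Fin m) (MvPolynomial (Fin d) k)), Good S M ∧
      Ret (Pool.Agent.Y691.TU.tw D.L n N) (hSec D M) := by
  obtain ⟨n, d, m, M, h1, h2⟩ := all_of hS hC hD hT (stable_summ hS.1 hD hT)
    (fun d m M hM => ⟨0, d, m, M, hM, by
      rw [pow_zero, mul_one]
      exact rs_refl _⟩) N
  refine ⟨n, d, m, M, h1, of_rs ?_⟩
  rw [sk_twA hT]
  exact h2

end Pool.Agent.Y456.LG
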