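import Pool.Agent.Y456.LG.Ret
import Pool.Agent.Z125.UN.Dim

/-!
# Every pure motive is in the tensor category generated by one sparse linear section of `GL_m`
-/

set_option autoImplicit false

open CategoryTheory CategoryTheory.Limits MonoidalCategory AlgebraicGeometry MvPolynomial
open scoped TensorProduct

namespace Pool.Agent.Y456.LG

open Pool.Agent.Y116.UV Pool.Agent.Y101.Th Pool.Agent.Y691.TU Pool.Agent.Z125.UN

universe v u

section gen

variable {C : Type u} [Category.{v} C] [Abelian C] [HasFiniteBiproducts C] [MonoidalCategory C]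

lemma InGen.ret {E A B : C} (h : Ret A B) (hB : InGen E B) : InGen E A := by
  obtain ⟨s, r, hs⟩ := h
  exact .summand s r hs hB

lemma InGen.iso {E A B : C} (e : A ≅ B) (h : InGen E A) : InGen E B :=
  .ret (Ret.of_iso e.symm) h

lemma InGen.trans {E F A : C} (h : InGen E F) (h' : InGen F A) : InGen E A := by
  induction h' with
  | self => exact h
  | unit => exact .unit
  | tensor _ _ h1 h2 => exact .tensor h1 h2
  | sum _ _ h1 h2 => exact .sum h1 h2
  | sums f _ h1 => exact .sums f h1
  | summand s r hs _ h1 => exact .summand s r hs h1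
  | dual e _ h1 => exact .dual e h1
  | inverse e _ h1 => exact .inverse e h1

lemma InGen.zero {E A : C} (h : IsZero A) : InGen E A :=
  .summand (0 : A ⟶ 𝟙_ C) 0 (h.eq_of_src _ _) .unit

/-- classes of objects of `⟨E⟩` -/
def GS (E : C) (x : Skeleton C) : Prop := ∃ A, toSkeleton A = x ∧ InGen E A

lemma gs_of {E A : C} (h : InGen E A) : GS E (toSkeleton A) := ⟨A, rfl, h⟩

lemma of_gs {E A : C} (h : GS E (toSkeleton A)) : InGen E A := by
  obtain ⟨B, hB, h⟩ := h
  obtain ⟨e⟩ := toSkeleton_eq_toSkeleton_iff.mp hB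
  exact h.iso e

lemma gs_mul {E : C} {x y : Skeleton C} (hx : GS E x) (hy : GS E y) : GS E (x * y) := by
  obtain ⟨A, rfl, hA⟩ := hx
  obtain ⟨B, rfl, hB⟩ := hy
  exact ⟨A ⊗ B, Skeleton.toSkeleton_tensorObj A B, .tensor hA hB⟩

lemma gs_rs {E : C} {x y : Skeleton C} (h : RS x y) (hy : GS E y) : GS E x := by
  obtain ⟨A, rfl⟩ := Quotient.exists_rep x
  obtain ⟨B, rfl⟩ := Quotient.exists_rep y
  exact gs_of (.ret (of_rs h) (of_gs hy))

lemma gs_inv {E : C} {x y : Skeleton C} (h : x * y = 1) (hx : GS E x) : GS E y := by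
  obtain ⟨A, rfl, hA⟩ := hx
  obtain ⟨B, rfl⟩ := Quotient.exists_rep y
  refine ⟨B, rfl, .inverse ?_ hA⟩
  have h1 : toSkeleton (A ⊗ B) = toSkeleton (𝟙_ C) :=
    (Skeleton.toSkeleton_tensorObj A B).trans h
  exact toSkeleton_eq_toSkeleton_iff.mp h1

end gen

section main

variable {k : Type} [Field k] {S : Set k} {C : Type u} [Category.{v} C] [Abelian C]
  [HasFiniteBiproducts C] [MonoidalCategory C] [BraidedCategory C] {D : Graded k C} {T : C}

variable {d e m n : ℕ} {M : Matrix (Fin m) (Fin m) (MvPolynomial (Fin d) k)}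
  {N : Matrix (Fin n) (Fin n) (MvPolynomial (Fin e) k)}

/-- the sum of two sections and of the multiplicative group -/
noncomputable abbrev big (M : Matrix (Fin m) (Fin m) (MvPolynomial (Fin d) k))
    (N : Matrix (Fin n) (Fin n) (MvPolynomial (Fin e) k)) :
    Matrix (Fin (m + (n + 1))) (Fin (m + (n + 1))) (MvPolynomial (Fin (d + (e + 1))) k) :=
  dsum M (dsum N one1)

/-- The category generated by the motive of the sum contains `ℚ(-1)` and the motives of both
sections. -/
lemma big_all (hD : IsGraded D) (hT : IsTensor D T) (hM : M.det ≠ 0) (hN : N.det ≠ 0) :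
    InGen (hSec D (big M N)) T ∧ InGen (hSec D (big M N)) (hSec D M) ∧
      InGen (hSec D (big M N)) (hSec D N) := by
  set E := hSec D (big M N) with hE
  obtain ⟨T', ⟨iT⟩⟩ := hT.inverse
  set t := toSkeleton T with ht
  set t' := toSkeleton T' with ht'
  have htt : t * t' = 1 := by
    rw [ht, ht', ← Skeleton.toSkeleton_tensorObj, Skeleton.one_eq]
    exact congr_toSkeleton_of_iso iT
  have key : GS E (toSkeleton (hSec D M) * (toSkeleton (hSec D N) * toSkeleton
      (hSec D (one1 : Matrix (Fin 1) (Fin 1) (MvPolynomial (Fin 1) k))))) := by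
    refine gs_rs (rs_trans (rs_mul (rs_refl _) (kun hD hT N one1)) (kun hD hT M (dsum N one1))) ?_
    exact gs_of .self
  have tM := ret_top hT hM
  have tN := ret_top hT hN
  have k1 := gs_rs (rs_mul tM (rs_mul tN (gm_one hT))) key
  have k2 := gs_rs (rs_mul tM (rs_mul tN (gm_T hT))) key
  rw [mul_one, ← pow_add] at k1
  rw [← mul_assoc, ← pow_add] at k2
  have hpow : ∀ a : ℕ, t ^ a * t' ^ a = 1 := fun a => by rw [← mul_pow, htt, one_pow]
  have k3 : GS E (t' ^ (d + e)) := gs_inv (hpow _) k1
  have k4 : GS E t := by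
    have h := gs_mul k3 k2
    rw [← mul_assoc, mul_comm (t' ^ (d + e)), hpow, one_mul] at h
    exact h
  have k5 : GS E t' := gs_inv htt k4
  have k6 : ∀ a : ℕ, GS E (t' ^ a) := by
    intro a
    induction a with
    | zero =>
      rw [pow_zero, Skeleton.one_eq]
      exact gs_of .unit
    | succ a ih =>
      rw [pow_succ]
      exact gs_mul ih k5
  refine ⟨of_gs k4, of_gs ?_, of_gs ?_⟩
  · have h := gs_mul (gs_rs (rs_mul (rs_refl _) (rs_mul tN (gm_one hT))) key) (k6 e)
    rw [mul_one, mul_assoc, hpow, mul_one] at h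
    exact h
  · have h := gs_mul (k6 d) (gs_rs (rs_mul tM (rs_mul (rs_refl _) (gm_one hT))) key)
    rw [mul_one, ← mul_assoc, mul_comm (t' ^ d), hpow, one_mul] at h
    exact h

/-- The objects in the categories generated by single sparse sections. -/
def Single (S : Set k) (D : Graded k C) (A : C) : Prop :=
  ∃ (d m : ℕ) (M : Matrix (Fin m) (Fin m) (MvPolynomial (Fin d) k)),
    Good S M ∧ InGen (hSec D M) A

/-- two objects -/
lemma single_two (h0 : (0 : k) ∈ S) (hD : IsGraded D) (hT : IsTensor D T) {A B : C}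
    (hA : Single S D A) (hB : Single S D B) :
    ∃ (d m : ℕ) (M : Matrix (Fin m) (Fin m) (MvPolynomial (Fin d) k)),
      Good S M ∧ InGen (hSec D M) A ∧ InGen (hSec D M) B ∧ InGen (hSec D M) T := by
  obtain ⟨d, m, M, a1, a4⟩ := hA
  obtain ⟨e, n, N, b1, b4⟩ := hB
  obtain ⟨c1, c2, c3⟩ := big_all (D := D) hD hT a1.det b1.det
  exact ⟨_, _, big M N, good_dsum h0 a1 (good_dsum h0 b1 good_one1), c2.trans a4, c3.trans b4, c1⟩

lemma single_one {A : C} (h : InGen (𝟙_ C) A) : Single S D A :=
  ⟨1, 1, one1, good_one1, InGen.trans .unit h⟩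

lemma stable_single (h0 : (0 : k) ∈ S) (hD : IsGraded D) (hT : IsTensor D T) :
    Stable D fun _ A => Single S D A where
  zero _ A hA := single_one (.zero hA)
  sum _ A B hA hB := by
    obtain ⟨d, m, M, h1, h4, h5, -⟩ := single_two h0 hD hT hA hB
    exact ⟨d, m, M, h1, .sum h4 h5⟩
  summand _ A B s r hs hB := by
    obtain ⟨d, m, M, h1, h4⟩ := hB
    exact ⟨d, m, M, h1, .summand s r hs h4⟩
  twist _ A := by
    obtain ⟨i⟩ := hT.twist A
    constructor
    · intro h
      obtain ⟨d, m, M, h1, h4, -, h5⟩ := single_two h0 hD hT h h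
      refine ⟨d, m, M, h1, ?_⟩
      obtain ⟨T', ⟨iT⟩⟩ := hT.inverse
      have h6 : InGen (hSec D M) T' := .inverse ⟨iT⟩ h5
      have h7 : InGen (hSec D M) ((A ⊗ T) ⊗ T') := .tensor (h4.iso i) h6
      exact h7.iso (α_ A T T' ≪≫ whiskerLeftIso A iT ≪≫ ρ_ A)
    · intro h
      obtain ⟨d, m, M, h1, h4, -, h5⟩ := single_two h0 hD hT h h
      exact ⟨d, m, M, h1, (InGen.tensor h4 h5).iso i.symm⟩
  unit := by
    obtain ⟨i⟩ := hT.one
    exact single_one (InGen.self.iso i.symm)

/-- A stable property of the summands of the motives of sections is true for all pieces. -/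
theorem pieces_of {Q : C → Prop} (hS : Enough S) (hC : Semisimple C) (hD : IsGraded D)
    (hT : IsTensor D T) (hQ : Stable D fun _ A => Q A)
    (h : ∀ (d m : ℕ) (M : Matrix (Fin m) (Fin m) (MvPolynomial (Fin d) k)), Good S M →
      Q (hSec D M)) (X : Sch k) (hX : FT True X) (w j : ℤ) : Q (D.H X w j) := by
  have hB := bnd_pieces hC hD hQ
  have hdev : Dev True (Pieces D fun _ A => Q A) := ⟨hB.iso, hB.total, hB.closed⟩
  refine scale_all hS hdev (fun d m M hM hM' => ?_) X hX w j
  by_cases h0 : M.det = 0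
  · have h1 : Subsingleton (Localization.Away M.det) := by
      rw [h0]
      exact IsLocalization.subsingleton (M := Submonoid.powers (0 : MvPolynomial (Fin d) k))
        (Submonoid.mem_powers _)
    exact p_empty hB _ h1
  · intro w j
    rcases piece_ret hT M w j with h1 | ⟨s, r, h1⟩
    · exact hQ.zero 0 _ h1
    · exact hQ.summand 0 _ _ s r h1 (h d m M ⟨hM, hM', h0⟩)

lemma ret_succ {r : ℕ} (f : Fin (r + 1) → C) : Ret (⨁ f) (f 0 ⊞ ⨁ fun i : Fin r => f i.succ) := by
  refine ⟨biprod.lift (biproduct.π f 0) (biproduct.lift fun i => biproduct.π f i.succ),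
    biprod.desc (biproduct.ι f 0) (biproduct.desc fun i => biproduct.ι f i.succ), ?_⟩
  rw [biprod.lift_desc, biproduct.lift_desc]
  have h := biproduct.total (f := f)
  rw [Fin.sum_univ_succ] at h
  exact h

/-- finite direct sums -/
lemma q_sums {Q : C → Prop} (hQ : Stable D fun _ A => Q A) (r : ℕ) :
    ∀ f : Fin r → C, (∀ i, Q (f i)) → Q (⨁ f) := by
  induction r with
  | zero =>
    intro f _
    refine hQ.zero 0 _ ?_
    rw [IsZero.iff_id_eq_zero, ← biproduct.total]
    simp
  | succ r ih =>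
    intro f hf
    obtain ⟨s, p, hs⟩ := ret_succ f
    exact hQ.summand 0 _ _ s p hs (hQ.sum 0 _ _ (hf 0) (ih _ fun i => hf i.succ))

lemma q_tw {Q : C → Prop} (hQ : Stable D fun _ A => Q A) (A : C) (n : ℕ) :
    Q (Pool.Agent.Y691.TU.tw D.L n A) ↔ Q A := by
  induction n with
  | zero => exact Iff.rfl
  | succ n ih => exact (hQ.twist 0 _).trans ih

/-- A stable property of the motives of sections is true for all objects. -/
theorem all_of {Q : C → Prop} (hS : Enough S) (hC : Semisimple C) (hD : IsGraded D)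
    (hT : IsTensor D T) (hQ : Stable D fun _ A => Q A)
    (h : ∀ (d m : ℕ) (M : Matrix (Fin m) (Fin m) (MvPolynomial (Fin d) k)), Good S M →
      Q (hSec D M)) (N : C) : Q N := by
  obtain ⟨X, m, r, s, p, hX, hs⟩ := hT.gen N
  rw [← q_tw hQ N m]
  exact hQ.summand 0 _ _ s p hs (q_sums hQ r _ fun i => pieces_of hS hC hD hT hQ h X hX.ft _ _)

/-- Every object is in the category generated by the motive of one sparse linear section of `GL_m`. -/
theorem single_all (hS : Enough S) (hC : Semisimple C) (hD : IsGraded D) (hT : IsTensor D T)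
    (N : C) : Single S D N :=
  all_of hS hC hD hT (stable_single hS.1 hD hT) (fun d m M hM => ⟨d, m, M, hM, .self⟩) N

/-- Two objects are in the category generated by the motive of one section. -/
theorem pair_all (hS : Enough S) (hC : Semisimple C) (hD : IsGraded D) (hT : IsTensor D T)
    (A B : C) : ∃ (d m : ℕ) (M : Matrix (Fin m) (Fin m) (MvPolynomial (Fin d) k)),
      Good S M ∧ InGen (hSec D M) A ∧ InGen (hSec D M) B := by
  obtain ⟨d, m, M, h1, h4, h5, -⟩ := single_two hS.1 hD hT (single_all hS hC hD hT A)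
    (single_all hS hC hD hT B)
  exact ⟨d, m, M, h1, h4, h5⟩

end main

end Pool.Agent.Y456.LG
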