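import Pool.Agent.Y456.LG.Sparse
import Pool.Agent.Y691.TU.Defs
import Mathlib.CategoryTheory.Monoidal.Skeleton

/-!
# The pure motive of a linear section of `GL_m` and the tensor category generated by it: definitions
-/

set_option autoImplicit false

open CategoryTheory CategoryTheory.Limits MonoidalCategory AlgebraicGeometry MvPolynomial
open scoped TensorProduct

namespace Pool.Agent.Y456.LG

open Pool.Agent.Y116.UV Pool.Agent.Y101.Th Pool.Agent.Y691.TU

universe v u

/-- `InGen E N`: the object `N` is in the category `⟨E⟩` generated by `E` under tensor products, direct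
sums, direct summands (in particular isomorphic objects), and inverses and duals. In a semisimple
Tannakian category these are the objects of the Tannakian subcategory generated by `E`. -/
inductive InGen {C : Type u} [Category.{v} C] [Abelian C] [HasFiniteBiproducts C]
    [MonoidalCategory C] (E : C) : C → Prop
  | self : InGen E E
  | unit : InGen E (𝟙_ C)
  | tensor {A B : C} : InGen E A → InGen E B → InGen E (A ⊗ B)
  | sum {A B : C} : InGen E A → InGen E B → InGen E (A ⊞ B)
  | sums {J : Type} [Finite J] (f : J → C) : (∀ j, InGen E (f j)) → InGen E (⨁ f)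
  | summand {A B : C} (s : A ⟶ B) (r : B ⟶ A) : s ≫ r = 𝟙 A → InGen E B → InGen E A
  | dual {A B : C} : Nonempty (ExactPairing A B) → InGen E A → InGen E B
  | inverse {A B : C} : Nonempty (A ⊗ B ≅ 𝟙_ C) → InGen E A → InGen E B

variable {k : Type} [Field k] {C : Type u} [Category.{v} C] [Abelian C] [HasFiniteBiproducts C]
  [MonoidalCategory C]

/-- The direct sum of the weight graded pieces `gr^W_w H^j_c(X)`, `0 ≤ w, j ≤ b`. -/
noncomputable def tot (D : Graded k C) (X : Sch k) (b : ℕ) : C :=
  ⨁ fun p : Fin (b + 1) × Fin (b + 1) => D.H X (p.1 : ℕ) (p.2 : ℕ)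

/-- The pure motive `h(U_M)` of the linear section `U_M = secGL M` of dimension `d`: the direct sum of
all its weight graded pieces `gr^W_w H^j_c(U_M)`, `0 ≤ w, j ≤ 2 d`. -/
noncomputable def hSec (D : Graded k C) {d m : ℕ}
    (M : Matrix (Fin m) (Fin m) (MvPolynomial (Fin d) k)) : C :=
  tot D (secGL M) (2 * d)

/-- Known properties of the tensor category `C` of pure motives over `k` and of the weight graded pieces
`H X w j = gr^W_w H^j_c(X)`; `T` is the motive `ℚ(-1)`:

* `one`, `twist`, `inverse`: the unit, the Tate twist is the tensor product with `T`, and `T` is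
  invertible;
* `kunneth`: the tensor product of the sums of the pieces of `X` and `Y` is a direct summand of the sum
  of the pieces of the product `X × Y` (Künneth formula);
* `top`: `H^{2d}_c(U) = ℚ(-d)` for the open subschemes `U` given by `f ≠ 0` in the affine space of
  dimension `d`, where `f` is not zero;
* `torus`: `gr^W_0 H^1_c(𝔾_m) = ℚ(0)`;
* `range`: the cohomology with compact supports of these `U` is in degrees and weights from `0` to `2d`;
* `gen`: for every object `N` some Tate twist `N(-m)` is a direct summand of the direct sum of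
  finitely many groups `H^i(X)`, where `X` is smooth and projective. -/
structure IsTensor (D : Graded k C) (T : C) : Prop where
  one : Nonempty (D.one ≅ 𝟙_ C)
  twist : ∀ A : C, Nonempty (D.L.obj A ≅ A ⊗ T)
  inverse : ∃ T' : C, Nonempty (T ⊗ T' ≅ 𝟙_ C)
  kunneth : ∀ (A B : Type) [CommRing A] [CommRing B] [Algebra k A] [Algebra k B]
    [Algebra.FiniteType k A] [Algebra.FiniteType k B] (a b : ℕ),
    ∃ (s : tot D (aff k A) a ⊗ tot D (aff k B) b ⟶ tot D (aff k (A ⊗[k] B)) (a + b))
      (r : tot D (aff k (A ⊗[k] B)) (a + b) ⟶ tot D (aff k A) a ⊗ tot D (aff k B) b),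
      s ≫ r = 𝟙 _
  top : ∀ (d : ℕ) (f : MvPolynomial (Fin d) k), f ≠ 0 →
    Nonempty (D.H (aff k (Localization.Away f)) (2 * d) (2 * d) ≅ Pool.Agent.Y691.TU.tw D.L d D.one)
  torus : Nonempty
    (D.H (aff k (Localization.Away (X 0 : MvPolynomial (Fin 1) k))) 0 1 ≅ D.one)
  range : ∀ (d : ℕ) (f : MvPolynomial (Fin d) k) (w n : ℤ),
    (w < 0 ∨ 2 * d < w ∨ n < 0 ∨ 2 * d < n) → IsZero (D.H (aff k (Localization.Away f)) w n)
  gen : ∀ N : C, ∃ (X : Sch k) (m r : ℕ)
    (s : Pool.Agent.Y691.TU.tw D.L m N ⟶ ⨁ fun i : Fin r => D.H X (i : ℕ) (i : ℕ))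
    (p : (⨁ fun i : Fin r => D.H X (i : ℕ) (i : ℕ)) ⟶ Pool.Agent.Y691.TU.tw D.L m N),
    SmProj X ∧ s ≫ p = 𝟙 _

end Pool.Agent.Y456.LG
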