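import Pool.Agent.Y456.LG.Ret
import Pool.Agent.Y456.LG.Local

/-!
# Towers of sparse linear sections of `GL_m`: definitions
-/

set_option autoImplicit false

open CategoryTheory AlgebraicGeometry MvPolynomial

namespace Pool.Agent.Y456.LG

open Pool.Agent.Y116.UV

/-- A square matrix of polynomials over `k`: `(d, m, M)` is an `m × m` matrix in `d` variables. -/
abbrev Mat (k : Type) [CommRing k] : Type :=
  Σ d m : ℕ, Matrix (Fin m) (Fin m) (MvPolynomial (Fin d) k)

/-- The sequence `M` of sparse patterns with constants in `S` and with nonzero determinants is a tower: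
for every `i` there is such a pattern `N` such that `M (i + 1)` is the block diagonal matrix with the
blocks `M i` and `N` (in separate variables). Then the section given by `M (i + 1)` is the product of the
sections given by `M i` and by `N`. -/
def IsTower {k : Type} [Field k] (S : Set k) (M : ℕ → Mat k) : Prop :=
  ∀ i, Good S (M i).2.2 ∧ ∃ N : Mat k, Good S N.2.2 ∧ M (i + 1) = ⟨_, _, dsum (M i).2.2 N.2.2⟩

end Pool.Agent.Y456.LG
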