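import Pool.Agent.Y456.LG.Summ
import Pool.Agent.Y456.LG.TowerDefs

/-!
# One tower of sparse linear sections of `GL_m` contains all motives
-/

set_option autoImplicit false

open CategoryTheory CategoryTheory.Limits MonoidalCategory AlgebraicGeometry MvPolynomial
open scoped TensorProduct

namespace Pool.Agent.Y456.LG

open Pool.Agent.Y116.UV Pool.Agent.Y101.Th Pool.Agent.Y691.TU Pool.Agent.Z125.UN

universe v u

section enum

variable {k : Type} [Field k] {S : Set k}

/-- the matrix given by a code -/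
noncomputable def codeMat {d m : ℕ} (c : Fin m → Fin m → S ⊕ Fin d) :
    Matrix (Fin m) (Fin m) (MvPolynomial (Fin d) k) :=
  fun i j => Sum.elim (fun s : S => C s.1) X (c i j)

lemma exists_code {d m : ℕ} {M : Matrix (Fin m) (Fin m) (MvPolynomial (Fin d) k)}
    (h : IsPat S M) : ∃ c, codeMat (S := S) c = M := by
  have h1 : ∀ i j, ∃ x : S ⊕ Fin d, Sum.elim (fun s : S => C s.1) X x = M i j := by
    intro i j
    rcases h.entry i j with ⟨c, hc, hM⟩ | ⟨l, hM⟩
    · exact ⟨Sum.inl ⟨c, hc⟩, hM.symm⟩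
    · exact ⟨Sum.inr l, hM.symm⟩
  choose c hc using h1
  exact ⟨c, funext fun i => funext fun j => hc i j⟩

lemma exists_enum (hS : S.Countable) : ∃ f : ℕ → Mat k, ∀ (d m : ℕ)
    (M : Matrix (Fin m) (Fin m) (MvPolynomial (Fin d) k)), IsPat S M → ∃ i, f i = ⟨d, m, M⟩ := by
  have := hS.to_subtype
  have hne : Nonempty (Σ d m : ℕ, (Fin m → Fin m → S ⊕ Fin d)) := ⟨⟨0, 0, fun i => i.elim0⟩⟩
  obtain ⟨g, hg⟩ := exists_surjective_nat (Σ d m : ℕ, (Fin m → Fin m → S ⊕ Fin d))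
  let F : (Σ d m : ℕ, (Fin m → Fin m → S ⊕ Fin d)) → Mat k :=
    fun x => ⟨x.1, x.2.1, codeMat x.2.2⟩
  refine ⟨fun i => F (g i), fun d m M hM => ?_⟩
  obtain ⟨c, hc⟩ := exists_code hM
  obtain ⟨i, hi⟩ := hg ⟨d, m, c⟩
  refine ⟨i, ?_⟩
  change F (g i) = _
  rw [hi, ← hc]

/-- the tower with given blocks -/
noncomputable def tower (N : ℕ → Mat k) : ℕ → Mat k
  | 0 => ⟨1, 1, one1⟩
  | i + 1 => ⟨_, _, dsum (tower N i).2.2 (N i).2.2⟩

lemma good_tower (h0 : (0 : k) ∈ S) {N : ℕ → Mat k} (hN : ∀ i, Good S (N i).2.2) (i : ℕ) :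
    Good S (tower N i).2.2 := by
  induction i with
  | zero => exact good_one1
  | succ i ih => exact good_dsum h0 ih (hN i)

lemma isTower_tower (h0 : (0 : k) ∈ S) {N : ℕ → Mat k} (hN : ∀ i, Good S (N i).2.2) :
    IsTower S (tower N) :=
  fun i => ⟨good_tower h0 hN i, N i, hN i, rfl⟩

end enum

section main

variable {k : Type} [Field k] {S : Set k}

section

variable {C : Type u} [Category.{v} C] [Abelian C] [HasFiniteBiproducts C] [MonoidalCategory C]
  [BraidedCategory C] {D : Graded k C} {T : C}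

/-- `A` is a summand of the motive of the section, up to a Tate twist. -/
def In (D : Graded k C) (T : C) (A : C) (x : Mat k) : Prop :=
  ∃ n : ℕ, RS (toSkeleton A * toSkeleton T ^ n) (toSkeleton (hSec D x.2.2))

lemma in_left (hD : IsGraded D) (hT : IsTensor D T) {A : C} {x y : Mat k}
    (hy : y.2.2.det ≠ 0) (h : In D T A x) : In D T A ⟨_, _, dsum x.2.2 y.2.2⟩ := by
  obtain ⟨n, h⟩ := h
  refine ⟨n + y.1, ?_⟩
  have h1 := rs_trans (rs_mul h (ret_top hT hy)) (kun hD hT x.2.2 y.2.2)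
  rwa [mul_assoc, ← pow_add] at h1

lemma in_right (hD : IsGraded D) (hT : IsTensor D T) {A : C} {x y : Mat k}
    (hx : x.2.2.det ≠ 0) (h : In D T A y) : In D T A ⟨_, _, dsum x.2.2 y.2.2⟩ := by
  obtain ⟨n, h⟩ := h
  refine ⟨n + x.1, ?_⟩
  have h1 := rs_trans (rs_mul (ret_top hT hx) h) (kun hD hT x.2.2 y.2.2)
  have h2 : toSkeleton T ^ x.1 * (toSkeleton A * toSkeleton T ^ n) =
      toSkeleton A * toSkeleton T ^ (n + x.1) := by
    rw [pow_add]
    ac_rfl
  rwa [h2] at h1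

lemma in_tower (hD : IsGraded D) (hT : IsTensor D T) (h0 : (0 : k) ∈ S) {A : C}
    {N : ℕ → Mat k} (hN : ∀ i, Good S (N i).2.2) {j : ℕ} (h : In D T A (N j)) (i : ℕ)
    (hi : j + 1 ≤ i) : In D T A (tower N i) := by
  induction i, hi using Nat.le_induction with
  | base => exact in_right hD hT (good_tower h0 hN j).det h
  | succ i _ ih => exact in_left hD hT (hN i).det ih

end

/-- One tower of sparse linear sections of `GL_m` contains, up to Tate twists, all motives. -/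
theorem tower_all (hc : S.Countable) (hS : Enough S) :
    ∃ M : ℕ → Mat k, IsTower S M ∧ ∀ {C : Type u} [Category.{v} C] [Abelian C]
      [HasFiniteBiproducts C] [MonoidalCategory C] [MonoidalPreadditive C] [BraidedCategory C]
      {D : Graded k C} {T : C}, Semisimple C → IsGraded D → IsTensor D T → ∀ N : C,
        ∃ i₀, ∀ i ≥ i₀, ∃ n : ℕ, Ret (Pool.Agent.Y691.TU.tw D.L n N) (hSec D (M i).2.2) := by
  classical
  obtain ⟨f, hf⟩ := exists_enum hc
  have hex : ∀ i, ∃ x : Mat k, Good S x.2.2 ∧ (Good S (f i).2.2 → x = f i) := by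
    intro i
    by_cases h : Good S (f i).2.2
    · exact ⟨f i, h, fun _ => rfl⟩
    · exact ⟨⟨1, 1, one1⟩, good_one1, fun h' => absurd h' h⟩
  choose N hN hN' using hex
  refine ⟨tower N, isTower_tower hS.1 hN, ?_⟩
  intro C _ _ _ _ _ _ D T hC hD hT A
  obtain ⟨n, d, m, M, hM, h⟩ := summ_all hS hC hD hT A
  obtain ⟨j, hj⟩ := hf d m M hM.pat
  have hNj : N j = ⟨d, m, M⟩ := by
    rw [hN' j (by rw [hj]; exact hM), hj]
  have h1 : In D T A (N j) := by
    rw [hNj]
    refine ⟨n, ?_⟩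
    rw [← sk_twA hT]
    exact rs_of h
  refine ⟨j + 1, fun i hi => ?_⟩
  obtain ⟨n', h2⟩ := in_tower hD hT hS.1 hN h1 i hi
  refine ⟨n', of_rs ?_⟩
  rw [sk_twA hT]
  exact h2

end main

end Pool.Agent.Y456.LG
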