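import Pool.Agent.Y456.LG.Det

/-!
# Every polynomial with integral coefficients is the determinant of a pattern up to the sign
-/

set_option autoImplicit false

open CategoryTheory AlgebraicGeometry MvPolynomial

namespace Pool.Agent.Y456.LG

open Pool.Agent.Y116.UV

variable {R : Type} [CommRing R] {V : Type}

/-- `g = a C⁻¹ b` for a row `a`, a matrix `C` of determinant `1` and a column `b` with entries `0`, `1`
or variables -/
def Rep (g : MvPolynomial V R) : Prop :=
  ∃ (ι : Type) (_ : Fintype ι) (_ : DecidableEq ι) (a b : ι → MvPolynomial V R)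
    (C Ci : Matrix ι ι (MvPolynomial V R)), (∀ i, IsE (a i)) ∧ (∀ i, IsE (b i)) ∧
    (∀ i j, IsE (C i j)) ∧ C * Ci = 1 ∧ C.det = 1 ∧ g = a ⬝ᵥ (Matrix.mulVec Ci b)

lemma rep_one : Rep (1 : MvPolynomial V R) := by
  refine ⟨Unit, inferInstance, inferInstance, fun _ => 1, fun _ => 1, 1, 1, fun _ => isE_one,
    fun _ => isE_one, fun _ _ => ?_, mul_one _, Matrix.det_one, ?_⟩
  · rw [Matrix.one_apply, if_pos rfl]
    exact isE_one
  · rw [Matrix.one_mulVec, dotProduct]
    simp

lemma rep_add {g h : MvPolynomial V R} (hg : Rep g) (hh : Rep h) : Rep (g + h) := by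
  obtain ⟨ι, _, _, a, b, C, Ci, ha, hb, hC, h1, h2, rfl⟩ := hg
  obtain ⟨ι', _, _, a', b', C', Ci', ha', hb', hC', h1', h2', rfl⟩ := hh
  refine ⟨ι ⊕ ι', inferInstance, inferInstance, Sum.elim a a', Sum.elim b b',
    Matrix.fromBlocks C 0 0 C', Matrix.fromBlocks Ci 0 0 Ci', ?_, ?_, ?_, ?_, ?_, ?_⟩
  · rintro (i | i)
    · exact ha i
    · exact ha' i
  · rintro (i | i)
    · exact hb i
    · exact hb' i
  · rintro (i | i) (j | j)
    · exact hC i j
    · exact isE_zero
    · exact isE_zero
    · exact hC' i j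
  · simp only [Matrix.fromBlocks_multiply, h1, h1', Matrix.mul_zero, Matrix.zero_mul, add_zero,
      zero_add, Matrix.fromBlocks_one]
  · rw [Matrix.det_fromBlocks_zero₂₁, h2, h2', mul_one]
  · rw [Matrix.fromBlocks_mulVec, Matrix.zero_mulVec, Matrix.zero_mulVec, add_zero, zero_add,
      sumElim_dotProduct_sumElim]
    rfl

lemma rep_step {g x : MvPolynomial V R} (hx : IsE x) (hg : Rep g) : Rep (-(x * g)) := by
  obtain ⟨ι, _, _, a, b, C, Ci, ha, hb, hC, h1, h2, rfl⟩ := hg
  let A : Matrix Unit ι (MvPolynomial V R) := Matrix.of fun _ i => a i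
  refine ⟨Unit ⊕ ι, inferInstance, inferInstance, Sum.elim (fun _ => x) 0, Sum.elim 0 b,
    Matrix.fromBlocks 1 A 0 C, Matrix.fromBlocks 1 (-(A * Ci)) 0 Ci, ?_, ?_, ?_, ?_, ?_, ?_⟩
  · rintro (i | i)
    · exact hx
    · exact isE_zero
  · rintro (i | i)
    · exact isE_zero
    · exact hb i
  · rintro (i | i) (j | j)
    · change IsE ((1 : Matrix Unit Unit (MvPolynomial V R)) i j)
      rw [Matrix.one_apply, if_pos rfl]
      exact isE_one
    · exact ha j
    · exact isE_zero
    · exact hC i j
  · rw [Matrix.fromBlocks_multiply, h1, Matrix.mul_zero, Matrix.mul_zero, Matrix.zero_mul,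
      Matrix.zero_mul, Matrix.one_mul, Matrix.one_mul, add_zero, add_zero, zero_add,
      neg_add_cancel, Matrix.fromBlocks_one]
  · rw [Matrix.det_fromBlocks_zero₂₁, h2, Matrix.det_one, mul_one]
  · rw [Matrix.fromBlocks_mulVec, Matrix.zero_mulVec, zero_add, sumElim_dotProduct_sumElim,
      zero_dotProduct, add_zero, Matrix.neg_mulVec, ← Matrix.mulVec_mulVec]
    simp only [dotProduct, Finset.univ_unique, Finset.sum_singleton, Function.comp_apply,
      Pi.add_apply, Pi.neg_apply, Sum.elim_inl]
    have h3 : (Matrix.mulVec (1 : Matrix Unit Unit (MvPolynomial V R))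
        (Sum.elim (0 : Unit → MvPolynomial V R) b ∘ Sum.inl)) default = 0 := by
      rw [Matrix.one_mulVec]
      rfl
    rw [h3, zero_add, mul_neg]
    rfl

lemma rep_neg {g : MvPolynomial V R} (hg : Rep g) : Rep (-g) := by
  have h := rep_step (isE_one (V := V) (R := R)) hg
  rwa [one_mul] at h

lemma rep_zero : Rep (0 : MvPolynomial V R) := by
  have h := rep_step (isE_zero (V := V) (R := R)) rep_one
  rwa [zero_mul, neg_zero] at h

lemma rep_int (z : ℤ) : Rep ((z : ℤ) : MvPolynomial V R) := by
  induction z using Int.induction_on with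
  | zero =>
    rw [Int.cast_zero]
    exact rep_zero
  | succ n ih =>
    rw [Int.cast_add, Int.cast_one]
    exact rep_add ih rep_one
  | pred n ih =>
    rw [Int.cast_sub, Int.cast_one, sub_eq_add_neg]
    exact rep_add ih (rep_neg rep_one)

/-- All polynomials over a ring whose elements are integers. -/
theorem rep_all (hR : Function.Surjective (Int.cast : ℤ → R)) (g : MvPolynomial V R) : Rep g := by
  induction g using MvPolynomial.induction_on with
  | C r =>
    obtain ⟨z, rfl⟩ := hR r
    have h : (C ((z : ℤ) : R) : MvPolynomial V R) = ((z : ℤ) : MvPolynomial V R) := map_intCast _ z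
    rw [h]
    exact rep_int z
  | add p q hp hq => exact rep_add hp hq
  | mul_X p k hp =>
    have h := rep_neg (rep_step (isE_X k) hp)
    rwa [neg_neg, mul_comm] at h

/-- Valiant's theorem: `-g` is the determinant of a matrix with entries `0`, `1` or variables in which
all variables occur. -/
theorem exists_det [Fintype V] [DecidableEq V] (hR : Function.Surjective (Int.cast : ℤ → R))
    (g : MvPolynomial V R) :
    ∃ (ι : Type) (_ : Fintype ι) (_ : DecidableEq ι) (M : Matrix ι ι (MvPolynomial V R)),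
      (∀ i j, IsE (M i j)) ∧ (∀ k, ∃ i j, M i j = X k) ∧ M.det = -g := by
  obtain ⟨ι, _, _, a, b, C, Ci, ha, hb, hC, h1, h2, rfl⟩ := rep_all hR g
  let _ : Invertible C := ⟨Ci, mul_eq_one_comm.mp h1, h1⟩
  let A : Matrix Unit ι (MvPolynomial V R) := Matrix.of fun _ i => a i
  let B : Matrix ι Unit (MvPolynomial V R) := Matrix.of fun i _ => b i
  refine ⟨(Unit ⊕ ι) ⊕ (Fin 2 × V), inferInstance, inferInstance,
    Matrix.fromBlocks (Matrix.fromBlocks 0 A B C) 0 0
      (Matrix.blockDiagonal fun k : V => uni (X k)), ?_, ?_, ?_⟩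
  · rintro ((i | i) | ⟨i, k⟩) ((j | j) | ⟨j, k'⟩)
    · exact isE_zero
    · exact ha j
    · exact isE_zero
    · exact hb i
    · exact hC i j
    · exact isE_zero
    · exact isE_zero
    · exact isE_zero
    · change IsE (Matrix.blockDiagonal (fun k : V => uni (X k : MvPolynomial V R)) (i, k) (j, k'))
      rw [Matrix.blockDiagonal_apply]
      dsimp only
      split_ifs with ht
      · fin_cases i <;> fin_cases j
        · exact isE_one
        · exact isE_X k
        · exact isE_zero
        · exact isE_one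
      · exact isE_zero
  · intro k
    refine ⟨Sum.inr (0, k), Sum.inr (1, k), ?_⟩
    change Matrix.blockDiagonal (fun k : V => uni (X k : MvPolynomial V R)) (0, k) (1, k) = _
    rw [Matrix.blockDiagonal_apply]
    dsimp only
    rw [if_pos rfl]
    rfl
  · have h3 : (⅟C : Matrix ι ι (MvPolynomial V R)) = Ci := rfl
    rw [Matrix.det_fromBlocks_zero₂₁, Matrix.det_blockDiagonal, Matrix.det_fromBlocks₂₂, h2, h3]
    simp only [det_uni, Finset.prod_const_one, mul_one, one_mul]
    rw [Matrix.det_unique, Matrix.sub_apply, Matrix.zero_apply, zero_sub, Matrix.mul_assoc]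
    rfl

end Pool.Agent.Y456.LG
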