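import Pool.Agent.Y456.LG.ResDefs

/-!
# Geometric origin of Galois representations, up to Tate twists: definitions
-/

set_option autoImplicit false

open CategoryTheory CategoryTheory.Limits AlgebraicGeometry MvPolynomial

namespace Pool.Agent.Y456.LG

open Pool.Agent.Y116.UV Pool.Agent.Y101.Th

universe v u

/-- Data: the cohomology `Ho Y n = H^n(Y ⊗ K̄)` and the cohomology with compact supports
`Hc Y n = H^n_c(Y ⊗ K̄)` of the schemes `Y` over the field `K`, and the cohomology with compact supports
`H Y n = H^n_c(Y ⊗ k̄)` of the schemes `Y` over the subfield `k`, as representations of the Galois group of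
`K`, where `K` is a finite separable extension of `k`, and the Tate twists `tw n R = R(n)`. -/
structure Theories (k K : Type) [Field k] [Field K] (A : Type u) [Category.{v} A] where
  Ho : Sch K → ℤ → A
  Hc : Sch K → ℤ → A
  H : Sch k → ℤ → A
  tw : ℤ → A → A

/-- Known properties:

* `coh`: isomorphic schemes have isomorphic cohomology, and long exact sequences (for `H`);
* `simple`: Tate twists of irreducible representations are irreducible;
* `add`: `R(n)(m) = R(m + n)`;
* `compact`: an irreducible representation is, up to a Tate twist, a subquotient of the cohomology of a
  separated scheme of finite type over `K` if and only if it is, up to a Tate twist, a subquotient of the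
  cohomology with compact supports of such a scheme (both are equivalent to the same for smooth projective
  schemes over finite purely inseparable extensions, by the theorem of de Jong on alterations and by
  Poincaré duality);
* `induced`: the cohomology with compact supports of a scheme over `K` is a subquotient (a direct summand)
  of the cohomology with compact supports of the same scheme, considered as a scheme over `k`;
* `restrict`: the cohomology with compact supports of a scheme `Y` over `k`, as a representation of the
  Galois group of `K`, is the cohomology of the scheme `Y ⊗ K` over `K`. -/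
structure IsTheories {k K : Type} [Field k] [Field K] [Algebra k K] {A : Type u}
    [Category.{v} A] [Abelian A] (T : Theories k K A) : Prop where
  coh : IsCoh T.H
  simple : ∀ (R : A) (n : ℤ), Simple R → Simple (T.tw n R)
  add : ∀ (R : A) (m n : ℤ), Nonempty (T.tw m (T.tw n R) ≅ T.tw (m + n) R)
  compact : ∀ R : A, Simple R →
    ((∃ (n i : ℤ) (Y : Sch K), FT True Y ∧ Subq (T.tw n R) (T.Ho Y i)) ↔
      ∃ (n i : ℤ) (Y : Sch K), FT True Y ∧ Subq (T.tw n R) (T.Hc Y i))
  induced : ∀ Y : Sch K, FT True Y → ∀ n : ℤ, Subq (T.Hc Y n) (T.H (toBase k K Y) n)
  restrict : ∀ Y : Sch k, FT True Y → ∃ Y' : Sch K, FT True Y' ∧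
    ∀ n : ℤ, Nonempty (T.H Y n ≅ T.Hc Y' n)

end Pool.Agent.Y456.LG
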