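import Pool.Agent.Y456.LG.ResFin
import Pool.Agent.Y456.LG.VarDefs

/-!
# Geometric origin of Galois representations and sparse linear sections of `GL_m`
-/

set_option autoImplicit false

open CategoryTheory CategoryTheory.Limits AlgebraicGeometry MvPolynomial

namespace Pool.Agent.Y456.LG

open Pool.Agent.Y116.UV Pool.Agent.Z125.UN Pool.Agent.Y101.Th

universe v u

variable {k K : Type} [Field k] [Field K] [Algebra k K] {S : Set k} {A : Type u}
  [Category.{v} A] [Abelian A] {T : Theories k K A}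

/-- An irreducible representation is of geometric origin if and only if it occurs, up to a Tate twist, in
the cohomology with compact supports of one sparse linear section of `GL_m` over the base field. -/
theorem var_iff [Algebra.FiniteType k K] (hS : Alphabet S) (hT : IsTheories T) (R : A)
    (hR : Simple R) :
    (∃ (n i : ℤ) (Y : Sch K), FT True Y ∧ Subq (T.tw n R) (T.Ho Y i)) ↔
      ∃ (n i : ℤ) (d m : ℕ) (M : Matrix (Fin m) (Fin m) (MvPolynomial (Fin d) k)),
        IsPat S M ∧ Thin M ∧ Subq (T.tw n R) (T.H (secGL M) i) := by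
  rw [hT.compact R hR]
  constructor
  · rintro ⟨n, i, Y, hY, h⟩
    have := hT.simple R n hR
    obtain ⟨d, m, M, h1, h2, j, h3⟩ := occ_all hS hT.coh (ft_toBase (k := k) hY)
      ⟨i, h.trans (hT.induced Y hY i)⟩
    exact ⟨n, j, d, m, M, h1, h2, h3⟩
  · rintro ⟨n, i, d, m, M, h1, h2, h3⟩
    have hf : FT True (secGL M) := by
      have := ft_away (R := k) (MvPolynomial (Fin d) k) M.det
      exact ft_aff True
    obtain ⟨Y, hY, e⟩ := hT.restrict _ hf
    obtain ⟨e⟩ := e i
    exact ⟨n, i, Y, hY, h3.iso e⟩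

/-- Finitely many sections for each scheme. -/
theorem var_fin [Algebra.FiniteType k K] (hS : Alphabet S) (Y : Sch K) (hY : FT True Y) :
    ∃ L : Mats k, (∀ x ∈ L, IsPat S x.2.2 ∧ Thin x.2.2) ∧
      ∀ {A : Type u} [Category.{v} A] [Abelian A] {T : Theories k K A}, IsTheories T →
        ∀ R : A, Simple R → ∀ i, Subq R (T.Hc Y i) → ∃ x ∈ L, ∃ j, Subq R (T.H (secGL x.2.2) j) := by
  obtain ⟨L, h1, h2⟩ := occ_fin.{v, u} hS (toBase k K Y) (ft_toBase hY)
  exact ⟨L, h1, fun hT R hR i hi => h2 hT.coh R hR ⟨i, hi.trans (hT.induced Y hY i)⟩⟩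

end Pool.Agent.Y456.LG
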