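import Pool.Agent.Y456.LG.Local
import Pool.Agent.Y456.LG.Order
import Pool.Agent.Y116.UV.ZetaDefs
import Pool.Agent.Y116.UV.ZetaH

/-!
# Zeta functions as quotients of products of zeta functions of sparse linear sections of `GL_m`
-/

set_option autoImplicit false

open CategoryTheory AlgebraicGeometry MvPolynomial

namespace Pool.Agent.Y456.LG

open Pool.Agent.Y116.UV Pool.Agent.Y111.HR

/-- The Euler product over the closed points. -/
noncomputable def zeta (X : Scheme.{0}) (s : ℂ) : ℂ :=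
  ∏' x : {x : X // IsClosed ({x} : Set X)}, (1 - ((Nat.card (X.residueField x.1) : ℂ) ^ (-s)))⁻¹

lemma zeta_eq (X : Scheme.{0}) (s : ℂ) : zeta X s = eulerP (nrm X) s := rfl

/-- The product of the zeta functions of the sections `secGL M`, `M` in the list. -/
noncomputable def zprod (L : Mats ℤ) (s : ℂ) : ℂ := (L.map fun x => zeta (secGL x.2.2).left s).prod

/-- On some right half-plane the zeta function of `X` is the quotient of the products, which are not
zero there, of the zeta functions of the sections in the two lists. -/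
def IsQuotient (L L' : Mats ℤ) (X : Sch ℤ) : Prop :=
  ∃ σ : ℝ, ∀ s : ℂ, σ < s.re →
    zprod L s ≠ 0 ∧ zprod L' s ≠ 0 ∧ zeta X.left s = zprod L s / zprod L' s

lemma zprod_append (L L' : Mats ℤ) (s : ℂ) : zprod (L ++ L') s = zprod L s * zprod L' s := by
  rw [zprod, List.map_append, List.prod_append]
  rfl

/-- the schemes with such a formula -/
def HasQuot (D : (Σ d m : ℕ, Matrix (Fin m) (Fin m) (MvPolynomial (Fin d) ℤ)) → Prop)
    (X : Sch ℤ) : Prop :=
  ∃ L L' : Mats ℤ, (∀ x ∈ L, D x) ∧ (∀ x ∈ L', D x) ∧ IsQuotient L L' X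

lemma forall_append {D : (Σ d m : ℕ, Matrix (Fin m) (Fin m) (MvPolynomial (Fin d) ℤ)) → Prop}
    {L L' : Mats ℤ} (h : ∀ x ∈ L, D x) (h' : ∀ x ∈ L', D x) : ∀ x ∈ L ++ L', D x := by
  intro x hx
  rcases List.mem_append.mp hx with hx | hx
  · exact h x hx
  · exact h' x hx

lemma zeta_mul {Z X U : Sch ℤ} {i : Z ⟶ X} {j : U ⟶ X} (hX : FT False X) (h : IsTriple i j) :
    ∃ σ : ℝ, ∀ s : ℂ, σ < s.re → zeta X.left s = zeta Z.left s * zeta U.left s := by
  obtain ⟨g, hg, hg'⟩ := adm_triple hX h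
  refine ⟨g + 1, fun s hs => ?_⟩
  rw [zeta_eq, zeta_eq, zeta_eq, ← eulerP_sum hg hg' hs hs]
  exact (eulerP_equiv (ptsTriple hX h) (nrm_ptsTriple hX h) s).symm

theorem dev_quot (D : (Σ d m : ℕ, Matrix (Fin m) (Fin m) (MvPolynomial (Fin d) ℤ)) → Prop) :
    Dev False (HasQuot D) where
  iso := by
    rintro X Y _ ⟨e⟩ ⟨L, L', h1, h2, σ, h3⟩
    obtain ⟨e'⟩ := leftIso e
    refine ⟨L, L', h1, h2, σ, fun s hs => ?_⟩
    obtain ⟨a, b, c⟩ := h3 s hs
    refine ⟨a, b, ?_⟩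
    rw [← c, zeta_eq, zeta_eq]
    exact (eulerP_equiv (ptsIso e') (nrm_ptsIso e') s).symm
  total := by
    rintro Z X U i j hX ht ⟨L, L', h1, h2, σ, h3⟩ ⟨M, M', k1, k2, τ, k3⟩
    obtain ⟨ρ, hρ⟩ := zeta_mul hX ht
    refine ⟨L ++ M, L' ++ M', forall_append h1 k1, forall_append h2 k2, max ρ (max σ τ),
      fun s hs => ?_⟩
    rw [max_lt_iff, max_lt_iff] at hs
    obtain ⟨a, b, c⟩ := h3 s hs.2.1
    obtain ⟨a', b', c'⟩ := k3 s hs.2.2
    rw [zprod_append, zprod_append, hρ s hs.1, c, c']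
    exact ⟨mul_ne_zero a a', mul_ne_zero b b', div_mul_div_comm _ _ _ _⟩
  closed := by
    rintro Z X U i j hX ht ⟨L, L', h1, h2, σ, h3⟩ ⟨M, M', k1, k2, τ, k3⟩
    obtain ⟨ρ, hρ⟩ := zeta_mul hX ht
    refine ⟨L ++ M', L' ++ M, forall_append h1 k2, forall_append h2 k1, max ρ (max σ τ),
      fun s hs => ?_⟩
    rw [max_lt_iff, max_lt_iff] at hs
    obtain ⟨a, b, c⟩ := h3 s hs.2.1
    obtain ⟨a', b', c'⟩ := k3 s hs.2.2
    have h4 := hρ s hs.1
    rw [c, c'] at h4
    rw [zprod_append, zprod_append]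
    refine ⟨mul_ne_zero a b', mul_ne_zero b a', ?_⟩
    rw [eq_div_iff (mul_ne_zero b a')]
    rw [div_eq_iff b] at h4
    rw [h4]
    field_simp

lemma quot_self {D : (Σ d m : ℕ, Matrix (Fin m) (Fin m) (MvPolynomial (Fin d) ℤ)) → Prop}
    {d m : ℕ} (M : Matrix (Fin m) (Fin m) (MvPolynomial (Fin d) ℤ)) (h : D ⟨d, m, M⟩) :
    HasQuot D (secGL M) := by
  obtain ⟨g, hg⟩ := adm_all (secGL M) (ft_sec M)
  have h1 : ∀ s, zprod [⟨d, m, M⟩] s = zeta (secGL M).left s := fun s => by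
    rw [zprod, List.map_singleton, List.prod_singleton]
  have h2 : ∀ s, zprod [] s = 1 := fun s => rfl
  refine ⟨[⟨d, m, M⟩], [], ?_, ?_, g + 1, fun s hs => ?_⟩
  · intro x hx
    rw [List.mem_singleton.mp hx]
    exact h
  · intro x hx
    simp at hx
  · rw [h1, h2, div_one]
    exact ⟨eulerP_ne hg hs, one_ne_zero, rfl⟩

/-- Every zeta function is such a quotient. -/
theorem quot_all (X : Sch ℤ) (hX : FT False X) : HasQuot IsThin X :=
  thin_all (S := {0, 1}) (Or.inl rfl) (Or.inr rfl) (closure_int hz) (dev_quot _)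
    (fun _ _ M hM hT => quot_self M ⟨isPattern_of hM, hT⟩) X hX

/-- rings generated by `d` elements -/
theorem quot_gen {d : ℕ} (A : Type) [CommRing A] [Algebra ℤ A] (φ : MvPolynomial (Fin d) ℤ →ₐ[ℤ] A)
    (hφ : Function.Surjective φ) : HasQuot (fun x => x.1 = d ∧ IsThin x) (aff ℤ A) :=
  thin_gen (S := {0, 1}) (Or.inl rfl) (Or.inr rfl) (closure_int hz) (dev_quot _)
    (fun _ M hM hT => quot_self M ⟨rfl, isPattern_of hM, hT⟩) A φ hφ

lemma dev_zm : Dev False ZM := ⟨uni_zm.iso, uni_zm.total, uni_zm.closed⟩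

lemma forThin_of' {P : Sch ℤ → Prop} {d : ℕ}
    (h : ∀ (m : ℕ) (M : Matrix (Fin m) (Fin m) (MvPolynomial (Fin d) ℤ)), IsPattern M → Thin M →
      P (secGL M)) : ForThin ({0, 1} : Set ℤ) P d := fun m M hM hT => h m M (isPattern_of hM) hT

/-- Q1 -/
theorem mero_all (h : ∀ (d m : ℕ) (M : Matrix (Fin m) (Fin m) (MvPolynomial (Fin d) ℤ)),
    IsPattern M → Thin M → HasMeroZeta (secGL M).left) (X : Sch ℤ) (hX : FT False X) :
    HasMeroZeta X.left :=
  thin_all (P := ZM) (S := {0, 1}) (Or.inl rfl) (Or.inr rfl) (closure_int hz) dev_zm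
    (fun d => forThin_of' (P := ZM) (h d)) X hX

/-- Q1 in each dimension -/
theorem mero_gen (d : ℕ) :
    (∀ (A : Type) [CommRing A] [Algebra ℤ A] (a : Fin d → A),
      Function.Surjective (MvPolynomial.aeval (R := ℤ) a) → HasMeroZeta (Spec (.of A))) ↔
    ∀ (m : ℕ) (M : Matrix (Fin m) (Fin m) (MvPolynomial (Fin d) ℤ)), IsPattern M → Thin M →
      HasMeroZeta (secGL M).left := by
  constructor
  · intro h m M _ _
    refine away_of (sep := False) (P := ZM) uni_zm.iso uni_zm.opened ?_ M.det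
    intro A _ _ φ hφ
    refine h A (φ ∘ X) ?_
    rw [← MvPolynomial.aeval_unique φ]
    exact hφ
  · intro h A _ _ a ha
    exact thin_gen (P := ZM) (S := {0, 1}) (Or.inl rfl) (Or.inr rfl) (closure_int hz) dev_zm
      (forThin_of' (P := ZM) h) A _ ha

/-- Q2 for one scheme -/
theorem formula_local (sep : Prop) (X : Sch ℤ) (hX : FT sep X) :
    ∃ L : Mats ℤ, (∀ x ∈ L, IsPattern x.2.2 ∧ Thin x.2.2) ∧
      ∀ T : HigherChow, IsChow sep T → ∀ n : ℤ,
        (∀ x ∈ L, FormulaAt T n (secGL x.2.2)) → FormulaAt T n X := by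
  obtain ⟨L, h1, h2⟩ := decides_all (sep := sep) hz X hX
  exact ⟨L, h1, fun T hT n h => h2 _ (dev_formulaAt hT n) h⟩

end Pool.Agent.Y456.LG
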